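import Pool.Agent.Lib.MP_c86c76_al.Q.F5.Dat
import Pool.Agent.Lib.MP_c86c76_al.Q.Mod5

/-!
Kernel checks of the model.
-/

set_option autoImplicit false
set_option maxRecDepth 100000

namespace Pool.Agent.MQ.F5

open Pool.Agent.MC

theorem ku0 : allIn 0 8 ((mdat5 wbiT.get).uOk dat) = true := by decide +kernel

theorem ku1 : allIn 8 8 ((mdat5 wbiT.get).uOk dat) = true := by decide +kernel

theorem ku2 : allIn 16 8 ((mdat5 wbiT.get).uOk dat) = true := by decide +kernel

theorem ku3 : allIn 24 8 ((mdat5 wbiT.get).uOk dat) = true := by decide +kernel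

theorem ku4 : allIn 32 8 ((mdat5 wbiT.get).uOk dat) = true := by decide +kernel

theorem ku5 : allIn 40 8 ((mdat5 wbiT.get).uOk dat) = true := by decide +kernel

theorem ku6 : allIn 48 8 ((mdat5 wbiT.get).uOk dat) = true := by decide +kernel

theorem ku7 : allIn 56 8 ((mdat5 wbiT.get).uOk dat) = true := by decide +kernel

theorem ku8 : allIn 64 8 ((mdat5 wbiT.get).uOk dat) = true := by decide +kernel

theorem ku9 : allIn 72 8 ((mdat5 wbiT.get).uOk dat) = true := by decide +kernel

theorem ku10 : allIn 80 8 ((mdat5 wbiT.get).uOk dat) = true := by decide +kernel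

theorem ku11 : allIn 88 8 ((mdat5 wbiT.get).uOk dat) = true := by decide +kernel

theorem ku12 : allIn 96 8 ((mdat5 wbiT.get).uOk dat) = true := by decide +kernel

theorem ku13 : allIn 104 8 ((mdat5 wbiT.get).uOk dat) = true := by decide +kernel

theorem ku14 : allIn 112 8 ((mdat5 wbiT.get).uOk dat) = true := by decide +kernel

theorem ku15 : allIn 120 8 ((mdat5 wbiT.get).uOk dat) = true := by decide +kernel

theorem ku16 : allIn 128 8 ((mdat5 wbiT.get).uOk dat) = true := by decide +kernel

theorem ku17 : allIn 136 8 ((mdat5 wbiT.get).uOk dat) = true := by decide +kernel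

theorem ku18 : allIn 144 8 ((mdat5 wbiT.get).uOk dat) = true := by decide +kernel

theorem ku19 : allIn 152 8 ((mdat5 wbiT.get).uOk dat) = true := by decide +kernel

theorem ku20 : allIn 160 8 ((mdat5 wbiT.get).uOk dat) = true := by decide +kernel

theorem ku21 : allIn 168 8 ((mdat5 wbiT.get).uOk dat) = true := by decide +kernel

theorem ku22 : allIn 176 8 ((mdat5 wbiT.get).uOk dat) = true := by decide +kernel

theorem ku23 : allIn 184 8 ((mdat5 wbiT.get).uOk dat) = true := by decide +kernel


end Pool.Agent.MQ.F5
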