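import Pool.Agent.Lib.MP_c86c76_al.Q.F5.Dat
import Pool.Agent.Lib.MP_c86c76_al.Q.Mod5

/-!
Kernel checks of the model.
-/

set_option autoImplicit false
set_option maxRecDepth 100000

namespace Pool.Agent.MQ.F5

open Pool.Agent.MC

theorem ku24 : allIn 192 8 ((mdat5 wbiT.get).uOk dat) = true := by decide +kernel

theorem ku25 : allIn 200 8 ((mdat5 wbiT.get).uOk dat) = true := by decide +kernel

theorem ku26 : allIn 208 8 ((mdat5 wbiT.get).uOk dat) = true := by decide +kernel

theorem ku27 : allIn 216 8 ((mdat5 wbiT.get).uOk dat) = true := by decide +kernel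

theorem ku28 : allIn 224 8 ((mdat5 wbiT.get).uOk dat) = true := by decide +kernel

theorem ku29 : allIn 232 8 ((mdat5 wbiT.get).uOk dat) = true := by decide +kernel

theorem ku30 : allIn 240 8 ((mdat5 wbiT.get).uOk dat) = true := by decide +kernel

theorem ku31 : allIn 248 8 ((mdat5 wbiT.get).uOk dat) = true := by decide +kernel

theorem ku32 : allIn 256 8 ((mdat5 wbiT.get).uOk dat) = true := by decide +kernel

theorem ku33 : allIn 264 8 ((mdat5 wbiT.get).uOk dat) = true := by decide +kernel

theorem ku34 : allIn 272 8 ((mdat5 wbiT.get).uOk dat) = true := by decide +kernel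

theorem ku35 : allIn 280 8 ((mdat5 wbiT.get).uOk dat) = true := by decide +kernel

theorem ku36 : allIn 288 8 ((mdat5 wbiT.get).uOk dat) = true := by decide +kernel

theorem ku37 : allIn 296 8 ((mdat5 wbiT.get).uOk dat) = true := by decide +kernel

theorem ku38 : allIn 304 8 ((mdat5 wbiT.get).uOk dat) = true := by decide +kernel

theorem ku39 : allIn 312 8 ((mdat5 wbiT.get).uOk dat) = true := by decide +kernel

theorem ku40 : allIn 320 8 ((mdat5 wbiT.get).uOk dat) = true := by decide +kernel

theorem ku41 : allIn 328 8 ((mdat5 wbiT.get).uOk dat) = true := by decide +kernel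

theorem ku42 : allIn 336 8 ((mdat5 wbiT.get).uOk dat) = true := by decide +kernel

theorem ku43 : allIn 344 8 ((mdat5 wbiT.get).uOk dat) = true := by decide +kernel

theorem ku44 : allIn 352 8 ((mdat5 wbiT.get).uOk dat) = true := by decide +kernel

theorem ku45 : allIn 360 8 ((mdat5 wbiT.get).uOk dat) = true := by decide +kernel

theorem ku46 : allIn 368 8 ((mdat5 wbiT.get).uOk dat) = true := by decide +kernel

theorem ku47 : allIn 376 8 ((mdat5 wbiT.get).uOk dat) = true := by decide +kernel

theorem kv : allIn 0 15 ((mdat5 wbiT.get).bOk dat) = true := by decide +kernel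

theorem kh : (mdat5 wbiT.get).hdOk dat r05 = true := by decide +kernel


end Pool.Agent.MQ.F5
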