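import Pool.Agent.Lib.MP_c86c76_al.Q.F5.Ok
import Pool.Agent.Lib.MP_c86c76_al.Q.F5.Km0
import Pool.Agent.Lib.MP_c86c76_al.Q.F5.Km1

/-!
The relative fixed point property in genus five.
-/

set_option autoImplicit false
set_option maxRecDepth 100000

namespace Pool.Agent.MQ.F5

open Pool.Agent.MC

theorem ju0 : allIn 0 64 ((mdat5 wbiT.get).uOk dat) = true :=
  (asmApp (asmApp (asmApp (asmApp (asmApp (asmApp (asmApp ku0 ku1 rfl rfl) ku2 rfl rfl) ku3 rfl rfl) ku4 rfl rfl) ku5 rfl rfl) ku6 rfl rfl) ku7 rfl rfl)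

theorem ju8 : allIn 64 64 ((mdat5 wbiT.get).uOk dat) = true :=
  (asmApp (asmApp (asmApp (asmApp (asmApp (asmApp (asmApp ku8 ku9 rfl rfl) ku10 rfl rfl) ku11 rfl rfl) ku12 rfl rfl) ku13 rfl rfl) ku14 rfl rfl) ku15 rfl rfl)

theorem ju16 : allIn 128 64 ((mdat5 wbiT.get).uOk dat) = true :=
  (asmApp (asmApp (asmApp (asmApp (asmApp (asmApp (asmApp ku16 ku17 rfl rfl) ku18 rfl rfl) ku19 rfl rfl) ku20 rfl rfl) ku21 rfl rfl) ku22 rfl rfl) ku23 rfl rfl)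

theorem ju24 : allIn 192 64 ((mdat5 wbiT.get).uOk dat) = true :=
  (asmApp (asmApp (asmApp (asmApp (asmApp (asmApp (asmApp ku24 ku25 rfl rfl) ku26 rfl rfl) ku27 rfl rfl) ku28 rfl rfl) ku29 rfl rfl) ku30 rfl rfl) ku31 rfl rfl)

theorem ju32 : allIn 256 64 ((mdat5 wbiT.get).uOk dat) = true :=
  (asmApp (asmApp (asmApp (asmApp (asmApp (asmApp (asmApp ku32 ku33 rfl rfl) ku34 rfl rfl) ku35 rfl rfl) ku36 rfl rfl) ku37 rfl rfl) ku38 rfl rfl) ku39 rfl rfl)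

theorem ju40 : allIn 320 64 ((mdat5 wbiT.get).uOk dat) = true :=
  (asmApp (asmApp (asmApp (asmApp (asmApp (asmApp (asmApp ku40 ku41 rfl rfl) ku42 rfl rfl) ku43 rfl rfl) ku44 rfl rfl) ku45 rfl rfl) ku46 rfl rfl) ku47 rfl rfl)

theorem allU : allIn 0 384 ((mdat5 wbiT.get).uOk dat) = true :=
  (asmApp (asmApp (asmApp (asmApp (asmApp ju0 ju8 rfl rfl) ju16 rfl rfl) ju24 rfl rfl) ju32 rfl rfl) ju40 rfl rfl)

theorem modOk : ModOk dat (mdat5 wbiT.get) r05 :=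
  ⟨kh, fun _ h => mod_bits (x := rlN) (w := 128) (n := 64) _ (by decide +kernel) h, allIn_lt allU,
    allIn_lt kv⟩

/-- The inner automorphisms of the surface group of genus five fix a point. -/
theorem rf51 (H : Type) [NormedAddCommGroup H] [InnerProductSpace ℂ H] [CompleteSpace H]
    (α : MulAut (Lib.MP_c86c76_al.Pi1 5) →* (H ≃ᵃⁱ[ℂ] H)) : ∃ y, ∀ w, α (MulAut.conj w) y = y :=
  rf5 rfl modOk allOk H α

end Pool.Agent.MQ.F5
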