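import Pool.Agent.Lib.MP_c86c76_al.Q.Asm

/-!
Certificate data.
-/

set_option autoImplicit false
set_option maxRecDepth 100000

noncomputable section

namespace Pool.Agent.MQ.F5

open Pool.Agent.MC

def cwt0 : Tr ℕ := (.nd (.nd (.nd (.nd (.nd (.nd (.nd (.lf (nat_lit 0)) (.lf (nat_lit 0xcdb00000000000000000000000000001))) (.lf (nat_lit 0))) (.lf (nat_lit 0))) (.nd (.lf (nat_lit 0)) (.nd (.lf (nat_lit 0)) (.lf (nat_lit 0xb45000000000000000000000000000000000000000000000000000001))))) (.lf (nat_lit 0))) (.nd (.lf (nat_lit 0)) (.nd (.nd (.nd (.lf (nat_lit 0)) (.lf (nat_lit 0xb470000000000000000001))) (.nd (.lf (nat_lit 0)) (.lf (nat_lit 0xb4500000000000001)))) (.lf (nat_lit 0))))) (.nd (.nd (.lf (nat_lit 0)) (.nd (.lf (nat_lit 0)) (.nd (.lf (nat_lit 0)) (.nd (.lf (nat_lit 0)) (.lf (nat_lit 0xcca0000000cca000000000000d0a000000000000d0a00d0a00d0a000000001)))))) (.lf (nat_lit 0))))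
def cwt1 : Tr ℕ := (.nd (.nd (.nd (.nd (.nd (.nd (.nd (.lf (nat_lit 0)) (.lf (nat_lit 0xcdb00000000000001))) (.lf (nat_lit 0))) (.lf (nat_lit 0))) (.lf (nat_lit 0))) (.nd (.lf (nat_lit 0)) (.nd (.lf (nat_lit 0)) (.nd (.lf (nat_lit 0)) (.lf (nat_lit 0xb6100000000000000000000000000000000ae10000000000000000001)))))) (.nd (.lf (nat_lit 0)) (.nd (.nd (.nd (.lf (nat_lit 0)) (.lf (nat_lit 0xb1a000000001))) (.nd (.lf (nat_lit 0)) (.lf (nat_lit 0xc9d00c9d0000000000000000000000c9d00b9d00b9d00000000000001)))) (.lf (nat_lit 0))))) (.nd (.nd (.lf (nat_lit 0)) (.nd (.lf (nat_lit 0)) (.nd (.lf (nat_lit 0)) (.nd (.lf (nat_lit 0xc8a010000000000000000000000000c8a010000000000000000000000000c8a010000000000000000000000000000008b000d0a0100000c8a01000000000002)) (.lf (nat_lit 0)))))) (.nd (.lf (nat_lit 0)) (.nd (.nd (.lf (nat_lit 0)) (.nd (.lf (nat_lit 0)) (.lf (nat_lit 0xc4300000000000000000000000000000000000000000001)))) (.nd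 (.lf (nat_lit 0)) (.nd (.lf (nat_lit 0)) (.lf (nat_lit 0xbdd000000000000000000000000000000000000000000000000000001))))))))
def cwt2 : Tr ℕ := (.nd (.nd (.nd (.nd (.nd (.nd (.lf (nat_lit 0)) (.lf (nat_lit 0xc9300000000000000000000000000000000cd3000000000000000000000001))) (.lf (nat_lit 0))) (.nd (.lf (nat_lit 0)) (.nd (.lf (nat_lit 0)) (.lf (nat_lit 0xb45000000000000000000000000000000000000000000000000000001))))) (.lf (nat_lit 0))) (.nd (.nd (.nd (.nd (.nd (.lf (nat_lit 0)) (.lf (nat_lit 0xcd200cd200000000000000000000000000000000000000000001))) (.lf (nat_lit 0))) (.lf (nat_lit 0))) (.lf (nat_lit 0))) (.lf (nat_lit 0)))) (.nd (.nd (.nd (.nd (.nd (.nd (.lf (nat_lit 0)) (.lf (nat_lit 0xcdb00000000000000000000000000001))) (.lf (nat_lit 0))) (.lf (nat_lit 0))) (.lf (nat_lit 0))) (.nd (.lf (nat_lit 0)) (.nd (.lf (nat_lit 0)) (.nd (.lf (nat_lit 0xc8a0100000c8a01000000000000000000008b000d0a01000000000000000c8a0100000c8a01000000000000000000000000000000000000000002))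 (.lf (nat_lit 0)))))) (.lf (nat_lit 0))))
def cwt3 : Tr ℕ := (.nd (.nd (.nd (.nd (.lf (nat_lit 0)) (.nd (.lf (nat_lit 0)) (.nd (.lf (nat_lit 0)) (.lf (nat_lit 0xb1e010000000000000000000000000000000000001))))) (.lf (nat_lit 0))) (.nd (.nd (.nd (.nd (.lf (nat_lit 0)) (.lf (nat_lit 0xcce02000000000000000000000000000000000000000001))) (.lf (nat_lit 0))) (.lf (nat_lit 0))) (.lf (nat_lit 0)))) (.nd (.nd (.nd (.nd (.nd (.nd (.lf (nat_lit 0)) (.lf (nat_lit 0xcdb00000000000001))) (.lf (nat_lit 0))) (.lf (nat_lit 0))) (.lf (nat_lit 0))) (.nd (.lf (nat_lit 0)) (.nd (.lf (nat_lit 0)) (.nd (.lf (nat_lit 0xc8a010000000000000000000000000c8a010000000000000000000000000c8a010000000000000000000000000000008b000d0a0100000c8a01000000000002)) (.lf (nat_lit 0)))))) (.nd (.lf (nat_lit 0)) (.nd (.nd (.lf (nat_lit 0)) (.nd (.lf (nat_lit 0)) (.lf (nat_lit 0xc430000000c430000000000000000000000000000000000000000000000001)))) (.lf (nat_lit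 0))))))
def cwt4 : Tr ℕ := (.nd (.nd (.nd (.nd (.lf (nat_lit 0)) (.nd (.lf (nat_lit 0)) (.nd (.lf (nat_lit 0xac7000000000000000000000000000000000000000000000000000001)) (.lf (nat_lit 0))))) (.lf (nat_lit 0))) (.nd (.nd (.nd (.nd (.nd (.lf (nat_lit 0)) (.lf (nat_lit 0xcd200cd200000000000000000000000000000000000000000001))) (.lf (nat_lit 0xcce02000000000000000000000000000000000000000001))) (.lf (nat_lit 0))) (.lf (nat_lit 0))) (.lf (nat_lit 0)))) (.nd (.nd (.nd (.lf (nat_lit 0)) (.nd (.lf (nat_lit 0)) (.nd (.lf (nat_lit 0)) (.lf (nat_lit 0xb0101000000000000000000000000000000000000000001))))) (.nd (.nd (.lf (nat_lit 0)) (.nd (.lf (nat_lit 0)) (.lf (nat_lit 0xc6700000000000000000000000000000000000000000000000000000000001)))) (.nd (.lf (nat_lit 0)) (.nd (.lf (nat_lit 0xc8a0100000c8a01000000000000000000008b000d0a01000000000000000c8a0100000c8a01000000000000000000000000000000000000000002)) (.lf (nat_lit 0))))))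 (.lf (nat_lit 0))))
def cwt5 : Tr ℕ := (.nd (.nd (.nd (.lf (nat_lit 0)) (.nd (.nd (.nd (.nd (.lf (nat_lit 0)) (.lf (nat_lit 0xbe70000000be700000000000000000000000000001))) (.lf (nat_lit 0))) (.lf (nat_lit 0))) (.lf (nat_lit 0)))) (.lf (nat_lit 0))) (.nd (.nd (.nd (.lf (nat_lit 0)) (.nd (.lf (nat_lit 0)) (.nd (.lf (nat_lit 0)) (.lf (nat_lit 0xb0101000000000000000000000000000000000000000001))))) (.lf (nat_lit 0))) (.nd (.lf (nat_lit 0)) (.nd (.nd (.lf (nat_lit 0)) (.nd (.lf (nat_lit 0)) (.lf (nat_lit 0xc430000000c430000000000000000000000000000000000000000000000001)))) (.nd (.lf (nat_lit 0)) (.nd (.lf (nat_lit 0)) (.lf (nat_lit 0xc8700000000000000000c870000000000000000000000000000000001))))))))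
def cwt6 : Tr ℕ := (.nd (.nd (.nd (.nd (.nd (.nd (.lf (nat_lit 0)) (.lf (nat_lit 0xcd300cd30000000000000000001))) (.lf (nat_lit 0))) (.nd (.lf (nat_lit 0)) (.nd (.lf (nat_lit 0)) (.lf (nat_lit 0xbc700000000000000000000000000000000000000000000000000000000001))))) (.nd (.lf (nat_lit 0)) (.nd (.nd (.lf (nat_lit 0)) (.lf (nat_lit 0x8af008ad01d260200000000000000000000000000000000000000000000000000000000000000000000000000000000000000000000000000000000000000000000000000000000000000000000000000000000000000000000003))) (.nd (.lf (nat_lit 0)) (.lf (nat_lit 0xc07000000000000000000000000000000000000001)))))) (.nd (.lf (nat_lit 0)) (.nd (.lf (nat_lit 0)) (.nd (.lf (nat_lit 0)) (.nd (.lf (nat_lit 0)) (.lf (nat_lit 0xc9a0000000cda00000000000000000cda00cda000000001))))))) (.lf (nat_lit 0)))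
def cwt7 : Tr ℕ := (.nd (.nd (.nd (.lf (nat_lit 0)) (.nd (.lf (nat_lit 0)) (.nd (.nd (.lf (nat_lit 0)) (.lf (nat_lit 0xd26028af008ad01d26028af008ad01d260200000000000000000000000000000000000000000000000000000000000000000000000000000000000000000000000000000000000000000000000000000000000000003))) (.lf (nat_lit 0))))) (.nd (.nd (.lf (nat_lit 0)) (.nd (.lf (nat_lit 0)) (.nd (.lf (nat_lit 0)) (.lf (nat_lit 0xc5a000000000000000000000001))))) (.nd (.lf (nat_lit 0)) (.nd (.nd (.lf (nat_lit 0)) (.lf (nat_lit 0xd09000000000000000000000000000000000000001))) (.lf (nat_lit 0)))))) (.nd (.nd (.nd (.lf (nat_lit 0)) (.nd (.lf (nat_lit 0)) (.nd (.lf (nat_lit 0)) (.lf (nat_lit 0xd1400c94000000001))))) (.lf (nat_lit 0))) (.nd (.nd (.nd (.nd (.nd (.lf (nat_lit 0)) (.lf (nat_lit 0xd1a00000000000000000000000000001))) (.lf (nat_lit 0xc8f000000000000000000000001))) (.lf (nat_lit 0))) (.lf (nat_lit 0))) (.lf (nat_lit 0)))))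
def cwt8 : Tr ℕ := (.nd (.nd (.nd (.nd (.nd (.nd (.lf (nat_lit 0)) (.lf (nat_lit 0xcd300cd30000000000000000001))) (.lf (nat_lit 0))) (.lf (nat_lit 0))) (.nd (.nd (.nd (.nd (.lf (nat_lit 0)) (.lf (nat_lit 0xbe70000000000000000001))) (.lf (nat_lit 0))) (.lf (nat_lit 0))) (.lf (nat_lit 0)))) (.nd (.nd (.nd (.nd (.lf (nat_lit 0)) (.lf (nat_lit 0x8ba01d1802000000000000000000000000000000000000000000000c1802000000000002))) (.lf (nat_lit 0))) (.lf (nat_lit 0))) (.lf (nat_lit 0)))) (.nd (.nd (.nd (.lf (nat_lit 0)) (.nd (.lf (nat_lit 0)) (.nd (.lf (nat_lit 0)) (.lf (nat_lit 0xc940000000c5400000000000000000000000000000000000000000001))))) (.lf (nat_lit 0))) (.nd (.nd (.nd (.nd (.lf (nat_lit 0)) (.lf (nat_lit 0xc8f0000000000000000000000000000000001))) (.lf (nat_lit 0))) (.lf (nat_lit 0))) (.lf (nat_lit 0)))))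
def cwt9 : Tr ℕ := (.nd (.nd (.nd (.lf (nat_lit 0)) (.nd (.lf (nat_lit 0)) (.nd (.nd (.lf (nat_lit 0)) (.lf (nat_lit 0xcd300000000000000000000000000000000000000000000000000000000001))) (.lf (nat_lit 0))))) (.nd (.nd (.lf (nat_lit 0)) (.nd (.lf (nat_lit 0)) (.nd (.lf (nat_lit 0)) (.lf (nat_lit 0xb9700000000000001))))) (.nd (.nd (.lf (nat_lit 0)) (.nd (.lf (nat_lit 0)) (.lf (nat_lit 0xc880000000c0800000000000000000000000000001)))) (.lf (nat_lit 0))))) (.nd (.nd (.nd (.lf (nat_lit 0)) (.nd (.lf (nat_lit 0)) (.nd (.lf (nat_lit 0)) (.lf (nat_lit 0xb0c00b0c000000001))))) (.nd (.lf (nat_lit 0)) (.nd (.lf (nat_lit 0)) (.nd (.lf (nat_lit 0xc8a0100000c8a01000000000000000000008b000d0a01000000000000000c8a0100000c8a01000000000000000000000000000000000000000002)) (.lf (nat_lit 0)))))) (.lf (nat_lit 0))))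
def cwt10 : Tr ℕ := (.nd (.nd (.nd (.lf (nat_lit 0)) (.nd (.nd (.nd (.nd (.lf (nat_lit 0)) (.lf (nat_lit 0xaa70000000000000000000000000000000000000000000000001))) (.lf (nat_lit 0))) (.lf (nat_lit 0))) (.nd (.nd (.lf (nat_lit 0)) (.lf (nat_lit 0xd260100000d2601000000000000000000008ad00d260100000000008ad00d260100000d260100000be60100000000000000000000000000000002))) (.lf (nat_lit 0))))) (.nd (.nd (.nd (.nd (.lf (nat_lit 0)) (.lf (nat_lit 0x8ba01d180200000000000000000000000000000000000000000000000000000000000002))) (.lf (nat_lit 0))) (.lf (nat_lit 0))) (.nd (.nd (.nd (.lf (nat_lit 0)) (.lf (nat_lit 0xbdd0000000c9d00000000000000000cdd00c9d000000001))) (.lf (nat_lit 0))) (.lf (nat_lit 0))))) (.nd (.nd (.nd (.lf (nat_lit 0)) (.nd (.lf (nat_lit 0)) (.nd (.lf (nat_lit 0)) (.lf (nat_lit 0xc940000000c5400000000000000000000000000000000000000000001))))) (.nd (.lf (nat_lit 0)) (.nd (.lf (nat_lit 0)) (.nd (.lf (nat_lit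 0xc8a010000000000000000000000000c8a010000000000000000000000000c8a010000000000000000000000000000008b000d0a0100000c8a01000000000002)) (.lf (nat_lit 0)))))) (.lf (nat_lit 0))))
def cwt11 : Tr ℕ := (.nd (.nd (.nd (.lf (nat_lit 0)) (.nd (.lf (nat_lit 0)) (.nd (.nd (.lf (nat_lit 0)) (.lf (nat_lit 0x8ad00d260100000d260100000d26010000000000000000000000000000008ad00d26018ad00d260100000d260100000be6010000000000000000000002))) (.nd (.lf (nat_lit 0)) (.lf (nat_lit 0xc1c00000000000000000000000000000000bdc000000000000000000000001)))))) (.nd (.nd (.lf (nat_lit 0)) (.nd (.lf (nat_lit 0)) (.nd (.lf (nat_lit 0)) (.lf (nat_lit 0xc5a000000001))))) (.nd (.nd (.nd (.lf (nat_lit 0)) (.lf (nat_lit 0xac50000000ac500000000000000000000000000001))) (.nd (.lf (nat_lit 0)) (.lf (nat_lit 0xc8800c08000000001)))) (.nd (.nd (.lf (nat_lit 0)) (.lf (nat_lit 0xd09000000000000000000000000000000000000001))) (.nd (.lf (nat_lit 0)) (.lf (nat_lit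 0xcda00000000000001))))))) (.nd (.nd (.nd (.lf (nat_lit 0)) (.nd (.lf (nat_lit 0)) (.nd (.lf (nat_lit 0)) (.lf (nat_lit 0xb0c00b0c000000001))))) (.nd (.lf (nat_lit 0)) (.nd (.lf (nat_lit 0)) (.nd (.lf (nat_lit 0xc8a0100000c8a01000000000000000000008b000d0a01000000000000000c8a0100000c8a01000000000000000000000000000000000000000002)) (.lf (nat_lit 0)))))) (.nd (.nd (.nd (.nd (.lf (nat_lit 0)) (.lf (nat_lit 0xc8f0000000000000000000000000000000001))) (.lf (nat_lit 0))) (.lf (nat_lit 0))) (.lf (nat_lit 0)))))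
def cwt12 : Tr ℕ := (.nd (.nd (.nd (.nd (.lf (nat_lit 0)) (.nd (.lf (nat_lit 0)) (.nd (.lf (nat_lit 0xac7000000000000000000000000000000000000000000000000000001)) (.lf (nat_lit 0))))) (.lf (nat_lit 0))) (.nd (.nd (.nd (.nd (.lf (nat_lit 0)) (.lf (nat_lit 0x8ba01d180200000000000000000000000000000000000000000000000000000000000002))) (.lf (nat_lit 0))) (.lf (nat_lit 0))) (.lf (nat_lit 0)))) (.nd (.nd (.nd (.lf (nat_lit 0)) (.nd (.lf (nat_lit 0)) (.nd (.lf (nat_lit 0)) (.lf (nat_lit 0xc100000000c1000000000000000000000000000000000000000000001))))) (.nd (.lf (nat_lit 0)) (.nd (.lf (nat_lit 0)) (.nd (.lf (nat_lit 0xc8a010000000000000000000000000c8a010000000000000000000000000c8a010000000000000000000000000000008b000d0a0100000c8a01000000000002)) (.lf (nat_lit 0)))))) (.nd (.nd (.nd (.nd (.lf (nat_lit 0)) (.lf (nat_lit 0xc8f000000000000000000000001))) (.lf (nat_lit 0))) (.lf (nat_lit 0))) (.lf (nat_lit 0)))))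
def cwt13 : Tr ℕ := (.nd (.nd (.nd (.nd (.nd (.nd (.nd (.lf (nat_lit 0)) (.lf (nat_lit 0xcdb00000000000000000000000000001))) (.lf (nat_lit 0))) (.lf (nat_lit 0))) (.lf (nat_lit 0))) (.nd (.nd (.nd (.nd (.lf (nat_lit 0)) (.lf (nat_lit 0xb97000000001))) (.lf (nat_lit 0))) (.lf (nat_lit 0))) (.lf (nat_lit 0)))) (.nd (.nd (.lf (nat_lit 0)) (.nd (.lf (nat_lit 0)) (.nd (.lf (nat_lit 0)) (.lf (nat_lit 0xc5a00000000000000000000000000001))))) (.nd (.lf (nat_lit 0)) (.nd (.nd (.lf (nat_lit 0)) (.lf (nat_lit 0xd1d00bdd000000000000000000000000000d1d0000000000000000001))) (.lf (nat_lit 0)))))) (.nd (.lf (nat_lit 0)) (.nd (.nd (.nd (.nd (.nd (.lf (nat_lit 0)) (.lf (nat_lit 0xbc5000000000000000000000000000000000000001))) (.lf (nat_lit 0))) (.lf (nat_lit 0))) (.lf (nat_lit 0))) (.lf (nat_lit 0)))))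
def cwt14 : Tr ℕ := (.nd (.nd (.nd (.nd (.nd (.nd (.nd (.lf (nat_lit 0)) (.lf (nat_lit 0xcdb000000001))) (.lf (nat_lit 0))) (.lf (nat_lit 0))) (.nd (.lf (nat_lit 0)) (.nd (.lf (nat_lit 0)) (.lf (nat_lit 0xb1e010000000000000000000000000000000000001))))) (.nd (.lf (nat_lit 0)) (.nd (.nd (.lf (nat_lit 0)) (.lf (nat_lit 0xd26010000000000000000000000000d260100000be601000000000000000d26010000000000000000000000000000008ad00d26018ad00d2601000000000002))) (.lf (nat_lit 0))))) (.nd (.nd (.nd (.nd (.lf (nat_lit 0)) (.lf (nat_lit 0xc18028ba01d1802000000000000000000000000000000000000000002))) (.lf (nat_lit 0))) (.lf (nat_lit 0))) (.nd (.nd (.nd (.lf (nat_lit 0)) (.lf (nat_lit 0xcdd0000000c9d00c9d00bdd0000000000000000001))) (.lf (nat_lit 0))) (.nd (.lf (nat_lit 0)) (.nd (.lf (nat_lit 0xd0c000000000000000000000001)) (.lf (nat_lit 0))))))) (.nd (.lf (nat_lit 0)) (.nd (.nd (.nd (.nd (.lf (nat_lit 0)) (.lf (nat_lit 0xcd700000000000000000000000000000000000000000001)))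 (.lf (nat_lit 0))) (.lf (nat_lit 0))) (.lf (nat_lit 0)))))
def cwt15 : Tr ℕ := (.nd (.nd (.nd (.lf (nat_lit 0)) (.nd (.lf (nat_lit 0)) (.nd (.nd (.lf (nat_lit 0)) (.lf (nat_lit 0x8ad00d260100000d260100000d26010000000000000000000000000000008ad00d26018ad00d260100000d260100000be6010000000000000000000002))) (.lf (nat_lit 0))))) (.nd (.nd (.nd (.nd (.nd (.lf (nat_lit 0)) (.lf (nat_lit 0xd1403000000000000000000000000001))) (.lf (nat_lit 0))) (.lf (nat_lit 0))) (.lf (nat_lit 0))) (.nd (.nd (.nd (.lf (nat_lit 0)) (.lf (nat_lit 0xac50000000ac500000000000000000000000000001))) (.lf (nat_lit 0))) (.nd (.nd (.lf (nat_lit 0)) (.lf (nat_lit 0xd1d00bdd000000000000000000000000000d1d0000000000000000001))) (.lf (nat_lit 0)))))) (.nd (.nd (.nd (.nd (.nd (.nd (.lf (nat_lit 0)) (.lf (nat_lit 0xcdb00000000000000000000000000001))) (.lf (nat_lit 0))) (.lf (nat_lit 0))) (.lf (nat_lit 0))) (.nd (.lf (nat_lit 0)) (.nd (.lf (nat_lit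 0)) (.nd (.lf (nat_lit 0)) (.lf (nat_lit 0xc2700000000000000000b67000000000000000000000000000000000000001)))))) (.nd (.nd (.nd (.nd (.lf (nat_lit 0)) (.lf (nat_lit 0xc96000000000000000000000000000000000000001))) (.lf (nat_lit 0))) (.nd (.lf (nat_lit 0)) (.nd (.lf (nat_lit 0xc9c00000000000000000000000000000000000000000001)) (.lf (nat_lit 0))))) (.lf (nat_lit 0)))))
def cwt16 : Tr ℕ := (.nd (.nd (.nd (.lf (nat_lit 0)) (.nd (.nd (.nd (.nd (.lf (nat_lit 0)) (.lf (nat_lit 0xc5a0000000000000000000000000000000000000000000000001))) (.lf (nat_lit 0))) (.lf (nat_lit 0))) (.lf (nat_lit 0)))) (.nd (.nd (.nd (.nd (.nd (.lf (nat_lit 0)) (.lf (nat_lit 0xd14030000001))) (.lf (nat_lit 0xc4c00c4c00c4c00bcc00000000000000000000000000001))) (.lf (nat_lit 0))) (.lf (nat_lit 0))) (.nd (.lf (nat_lit 0)) (.nd (.lf (nat_lit 0)) (.nd (.lf (nat_lit 0xd0c0000000000000000000000000000000001)) (.lf (nat_lit 0))))))) (.nd (.nd (.nd (.nd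 (.nd (.nd (.lf (nat_lit 0)) (.lf (nat_lit 0xcdb00000000000000000000000000001))) (.lf (nat_lit 0))) (.lf (nat_lit 0))) (.lf (nat_lit 0))) (.nd (.lf (nat_lit 0)) (.nd (.nd (.lf (nat_lit 0)) (.lf (nat_lit 0xc93000000000000000000000001))) (.lf (nat_lit 0))))) (.lf (nat_lit 0))))
def cwt17 : Tr ℕ := (.nd (.nd (.lf (nat_lit 0)) (.nd (.lf (nat_lit 0)) (.nd (.lf (nat_lit 0)) (.nd (.lf (nat_lit 0)) (.nd (.lf (nat_lit 0)) (.lf (nat_lit 0xacc000000000000000000000000000000000000001))))))) (.nd (.lf (nat_lit 0)) (.nd (.nd (.lf (nat_lit 0)) (.nd (.lf (nat_lit 0)) (.nd (.lf (nat_lit 0xc9c00000000000000000000000000000000000000000001)) (.lf (nat_lit 0))))) (.nd (.lf (nat_lit 0)) (.nd (.lf (nat_lit 0)) (.nd (.lf (nat_lit 0)) (.lf (nat_lit 0xac500000000000000000000000000000000000000000000000000000000001))))))))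
def cwt18 : Tr ℕ := (.nd (.nd (.lf (nat_lit 0)) (.nd (.nd (.nd (.nd (.lf (nat_lit 0)) (.lf (nat_lit 0xbcc0000000c4c00000000000000000c4c00c4c000000001))) (.lf (nat_lit 0))) (.lf (nat_lit 0))) (.lf (nat_lit 0)))) (.nd (.nd (.nd (.lf (nat_lit 0)) (.nd (.lf (nat_lit 0)) (.nd (.lf (nat_lit 0)) (.lf (nat_lit 0xc2700000000000000000000000000001))))) (.lf (nat_lit 0))) (.lf (nat_lit 0))))
def cwt19 : Tr ℕ := (.nd (.nd (.nd (.lf (nat_lit 0)) (.nd (.nd (.nd (.nd (.lf (nat_lit 0)) (.lf (nat_lit 0xb040000000b04000000001))) (.lf (nat_lit 0))) (.lf (nat_lit 0))) (.lf (nat_lit 0)))) (.nd (.nd (.nd (.nd (.nd (.lf (nat_lit 0)) (.lf (nat_lit 0xd1403000000000000000000000000001))) (.lf (nat_lit 0))) (.lf (nat_lit 0))) (.lf (nat_lit 0))) (.nd (.nd (.lf (nat_lit 0)) (.nd (.lf (nat_lit 0)) (.lf (nat_lit 0xc080000000c8800000000000000000000000000001)))) (.lf (nat_lit 0))))) (.nd (.lf (nat_lit 0)) (.nd (.nd (.nd (.nd (.lf (nat_lit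 0)) (.lf (nat_lit 0xc8f00000000000000000000000000000000000000000001))) (.lf (nat_lit 0))) (.lf (nat_lit 0))) (.lf (nat_lit 0)))))
def cwt20 : Tr ℕ := (.nd (.nd (.nd (.nd (.lf (nat_lit 0)) (.nd (.lf (nat_lit 0)) (.nd (.lf (nat_lit 0xac7000000000000000000000000000000000000000000000000000001)) (.lf (nat_lit 0))))) (.nd (.lf (nat_lit 0)) (.nd (.lf (nat_lit 0)) (.nd (.lf (nat_lit 0)) (.lf (nat_lit 0xb850000000b8500000000000000000000000000001)))))) (.nd (.nd (.nd (.nd (.nd (.lf (nat_lit 0)) (.lf (nat_lit 0xd1403000000000000000000000000001))) (.lf (nat_lit 0))) (.lf (nat_lit 0))) (.lf (nat_lit 0))) (.lf (nat_lit 0)))) (.nd (.lf (nat_lit 0)) (.nd (.nd (.nd (.nd (.lf (nat_lit 0)) (.lf (nat_lit 0xc8f0000000000000000001))) (.lf (nat_lit 0))) (.lf (nat_lit 0))) (.lf (nat_lit 0)))))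
def cwt21 : Tr ℕ := (.nd (.nd (.nd (.lf (nat_lit 0)) (.nd (.nd (.nd (.nd (.lf (nat_lit 0)) (.lf (nat_lit 0xb040100000000000000000000000000000000000000000000001))) (.lf (nat_lit 0))) (.lf (nat_lit 0))) (.lf (nat_lit 0)))) (.nd (.lf (nat_lit 0)) (.nd (.nd (.lf (nat_lit 0)) (.nd (.lf (nat_lit 0)) (.lf (nat_lit 0xc080000000c8800000000000000000000000000001)))) (.nd (.nd (.lf (nat_lit 0)) (.lf (nat_lit 0xd0900000000000000000000000000000000d090000000000000000001))) (.lf (nat_lit 0)))))) (.nd (.lf (nat_lit 0)) (.nd (.nd (.lf (nat_lit 0)) (.nd (.lf (nat_lit 0)) (.nd (.lf (nat_lit 0)) (.lf (nat_lit 0x8ac018b2028af03d0404000000000000000000000000000000000000000004))))) (.lf (nat_lit 0)))))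
def cwt22 : Tr ℕ := (.nd (.nd (.lf (nat_lit 0)) (.nd (.lf (nat_lit 0)) (.nd (.nd (.nd (.lf (nat_lit 0)) (.lf (nat_lit 0xb4700000000000000000000000000001))) (.nd (.lf (nat_lit 0)) (.lf (nat_lit 0xb4500000000000000000000000000000000b450000000000000000001)))) (.lf (nat_lit 0))))) (.nd (.nd (.lf (nat_lit 0)) (.nd (.lf (nat_lit 0)) (.nd (.nd (.lf (nat_lit 0)) (.lf (nat_lit 0xc93000000001))) (.lf (nat_lit 0))))) (.lf (nat_lit 0))))
def cwt23 : Tr ℕ := (.nd (.nd (.nd (.nd (.lf (nat_lit 0)) (.nd (.lf (nat_lit 0)) (.nd (.lf (nat_lit 0)) (.lf (nat_lit 0xb5f000000000000000000000000000000000000000000000000000001))))) (.nd (.nd (.nd (.nd (.lf (nat_lit 0)) (.lf (nat_lit 0xb04040000001))) (.lf (nat_lit 0))) (.lf (nat_lit 0))) (.lf (nat_lit 0)))) (.nd (.nd (.nd (.nd (.nd (.lf (nat_lit 0)) (.lf (nat_lit 0xcd80000000000000000000000000000000000000000000000001))) (.lf (nat_lit 0))) (.lf (nat_lit 0))) (.lf (nat_lit 0))) (.nd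 (.nd (.nd (.lf (nat_lit 0)) (.lf (nat_lit 0xb1a0000000000000000001))) (.nd (.lf (nat_lit 0)) (.lf (nat_lit 0xc9d0000000b9d00000000000000000b1d00b9d000000001)))) (.lf (nat_lit 0))))) (.nd (.lf (nat_lit 0)) (.nd (.nd (.nd (.nd (.lf (nat_lit 0)) (.lf (nat_lit 0xc8f0000000000000000001))) (.lf (nat_lit 0))) (.lf (nat_lit 0))) (.lf (nat_lit 0)))))
def cwt24 : Tr ℕ := (.nd (.nd (.nd (.lf (nat_lit 0)) (.nd (.lf (nat_lit 0)) (.nd (.nd (.lf (nat_lit 0)) (.lf (nat_lit 0xb27000000000000000000000000000000000000001))) (.lf (nat_lit 0))))) (.nd (.lf (nat_lit 0)) (.nd (.nd (.nd (.lf (nat_lit 0)) (.lf (nat_lit 0xc9d00c9d00cdd00bdd00000000000000000000000000001))) (.lf (nat_lit 0))) (.nd (.lf (nat_lit 0)) (.nd (.lf (nat_lit 0xc9a0000000000000000001)) (.lf (nat_lit 0xd1a00cda00cda0000000000000000000000cda000000000000000000000001))))))) (.nd (.nd (.lf (nat_lit 0)) (.nd (.nd (.lf (nat_lit 0)) (.nd (.lf (nat_lit 0)) (.lf (nat_lit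 0xb6700000000000000000000000000000000b6700c6700000000000001)))) (.lf (nat_lit 0)))) (.nd (.nd (.nd (.nd (.lf (nat_lit 0)) (.lf (nat_lit 0xc8f00000000000000000000000000000000000000000001))) (.lf (nat_lit 0))) (.lf (nat_lit 0))) (.lf (nat_lit 0)))))
def cwt25 : Tr ℕ := (.nd (.nd (.lf (nat_lit 0)) (.nd (.lf (nat_lit 0)) (.nd (.nd (.nd (.lf (nat_lit 0)) (.lf (nat_lit 0xac500ac50000000000000000001))) (.lf (nat_lit 0))) (.lf (nat_lit 0))))) (.nd (.lf (nat_lit 0)) (.nd (.lf (nat_lit 0)) (.nd (.lf (nat_lit 0)) (.nd (.lf (nat_lit 0)) (.nd (.lf (nat_lit 0)) (.lf (nat_lit 0xc87000000000000000000000001))))))))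
def cwt26 : Tr ℕ := (.nd (.nd (.nd (.nd (.nd (.nd (.nd (.lf (nat_lit 0)) (.lf (nat_lit 0xcdb00000000000000000000000000001))) (.lf (nat_lit 0))) (.lf (nat_lit 0))) (.lf (nat_lit 0))) (.nd (.lf (nat_lit 0)) (.nd (.nd (.lf (nat_lit 0)) (.lf (nat_lit 0xb27000000000000000000000000000000000000001))) (.lf (nat_lit 0))))) (.nd (.nd (.nd (.nd (.nd (.lf (nat_lit 0)) (.lf (nat_lit 0xcd80000000000000000000000000000000000000000000000001))) (.lf (nat_lit 0))) (.lf (nat_lit 0))) (.lf (nat_lit 0))) (.nd (.lf (nat_lit 0)) (.nd (.lf (nat_lit 0)) (.nd (.lf (nat_lit 0xc9a0000000000000000001)) (.lf (nat_lit 0))))))) (.nd (.nd (.lf (nat_lit 0)) (.nd (.nd (.lf (nat_lit 0)) (.nd (.lf (nat_lit 0)) (.lf (nat_lit 0xcd30100000000000000000000000000000001)))) (.lf (nat_lit 0)))) (.lf (nat_lit 0))))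
def cwt27 : Tr ℕ := (.nd (.nd (.nd (.nd (.nd (.nd (.nd (.lf (nat_lit 0)) (.lf (nat_lit 0xcdb0000000000000000000000000000000001))) (.lf (nat_lit 0))) (.lf (nat_lit 0))) (.lf (nat_lit 0))) (.lf (nat_lit 0))) (.nd (.lf (nat_lit 0)) (.nd (.lf (nat_lit 0)) (.nd (.nd (.lf (nat_lit 0)) (.lf (nat_lit 0xd1d0000000000000000001))) (.lf (nat_lit 0)))))) (.nd (.lf (nat_lit 0)) (.nd (.nd (.lf (nat_lit 0)) (.nd (.lf (nat_lit 0)) (.nd (.lf (nat_lit 0xc9c0000000000000000000000000000000001)) (.lf (nat_lit 0))))) (.lf (nat_lit 0)))))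
def cwt28 : Tr ℕ := (.nd (.nd (.nd (.nd (.lf (nat_lit 0)) (.nd (.lf (nat_lit 0)) (.nd (.lf (nat_lit 0xac7000000000000000000000000000000000000000000000000000001)) (.lf (nat_lit 0))))) (.nd (.lf (nat_lit 0)) (.nd (.nd (.lf (nat_lit 0)) (.lf (nat_lit 0xcce00bce000000000000000000000000000d0e0000000000000000001))) (.lf (nat_lit 0))))) (.lf (nat_lit 0))) (.nd (.nd (.nd (.nd (.nd (.nd (.lf (nat_lit 0)) (.lf (nat_lit 0xcdb00000000000000000000000000001))) (.lf (nat_lit 0))) (.lf (nat_lit 0))) (.lf (nat_lit 0))) (.lf (nat_lit 0))) (.nd (.nd (.lf (nat_lit 0)) (.nd (.nd (.lf (nat_lit 0)) (.lf (nat_lit 0xaa1000000000000000000000000000000000000001))) (.lf (nat_lit 0)))) (.lf (nat_lit 0)))))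
def cwt29 : Tr ℕ := (.nd (.nd (.lf (nat_lit 0)) (.nd (.nd (.nd (.nd (.lf (nat_lit 0)) (.lf (nat_lit 0xcce000000000000000000000000000000000000000000000000000001))) (.lf (nat_lit 0))) (.lf (nat_lit 0))) (.nd (.lf (nat_lit 0)) (.nd (.lf (nat_lit 0)) (.nd (.lf (nat_lit 0)) (.lf (nat_lit 0xc8c0100000d0c01000000000000000000000000001))))))) (.nd (.nd (.nd (.nd (.nd (.nd (.lf (nat_lit 0)) (.lf (nat_lit 0xcdb0000000000000000001))) (.lf (nat_lit 0))) (.lf (nat_lit 0))) (.lf (nat_lit 0))) (.nd (.nd (.lf (nat_lit 0)) (.nd (.lf (nat_lit 0)) (.lf (nat_lit 0xcd301000000000000000000000000000000000000000001)))) (.lf (nat_lit 0)))) (.lf (nat_lit 0))))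
def cwt30 : Tr ℕ := (.nd (.nd (.nd (.lf (nat_lit 0)) (.nd (.nd (.nd (.nd (.lf (nat_lit 0)) (.lf (nat_lit 0x8b800d1a018b800d1a010000000000000000000000000000000000000000000000000000000d1a0100000b5a010000000000000000000002))) (.lf (nat_lit 0))) (.lf (nat_lit 0))) (.nd (.nd (.lf (nat_lit 0)) (.lf (nat_lit 0xc17000000000000000000000000000000000000000000000000000001))) (.lf (nat_lit 0))))) (.nd (.nd (.nd (.nd (.lf (nat_lit 0)) (.lf (nat_lit 0xcce000000000000000000000000000000000000000000000000000001))) (.lf (nat_lit 0))) (.lf (nat_lit 0))) (.nd (.nd (.nd (.lf (nat_lit 0)) (.lf (nat_lit 0xc9d00c9d00cdd00bdd00000000000000000000000000001))) (.lf (nat_lit 0))) (.nd (.lf (nat_lit 0)) (.nd (.lf (nat_lit 0xd1a00000000000000000000000000000000000000000001)) (.lf (nat_lit 0xc8c0100000d0c01000000000000000000000000001))))))) (.nd (.nd (.nd (.lf (nat_lit 0)) (.nd (.lf (nat_lit 0)) (.nd (.lf (nat_lit 0)) (.lf (nat_lit 0xc9200000000000000000000000000001)))))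 (.nd (.nd (.lf (nat_lit 0)) (.nd (.lf (nat_lit 0)) (.lf (nat_lit 0xc9200000000000000000000000000000000000000000000000000000000001)))) (.lf (nat_lit 0)))) (.lf (nat_lit 0))))
def cwt31 : Tr ℕ := (.nd (.nd (.nd (.lf (nat_lit 0)) (.nd (.nd (.nd (.nd (.lf (nat_lit 0)) (.lf (nat_lit 0xb5a0100000000000000001))) (.lf (nat_lit 0))) (.lf (nat_lit 0))) (.nd (.nd (.lf (nat_lit 0)) (.lf (nat_lit 0xd1800d18000000000000000000000000000d1800c5800000000000001))) (.lf (nat_lit 0))))) (.nd (.nd (.nd (.nd (.nd (.lf (nat_lit 0)) (.lf (nat_lit 0xc8c00b4c000000000000000000000000000c8c00000000000001))) (.lf (nat_lit 0))) (.lf (nat_lit 0))) (.lf (nat_lit 0))) (.nd (.nd (.nd (.lf (nat_lit 0)) (.lf (nat_lit 0xac50000000ac50000000000000000000000000000000001))) (.lf (nat_lit 0))) (.nd (.nd (.lf (nat_lit 0)) (.lf (nat_lit 0xd1d0000000000000000001))) (.lf (nat_lit 0)))))) (.nd (.nd (.lf (nat_lit 0)) (.nd (.nd (.lf (nat_lit 0)) (.nd (.lf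 (nat_lit 0)) (.lf (nat_lit 0xb4c00000000000000000000000000000000b0c0000000000000000001)))) (.nd (.lf (nat_lit 0)) (.nd (.lf (nat_lit 0)) (.lf (nat_lit 0xb6700000000000000000000000000001)))))) (.nd (.nd (.lf (nat_lit 0)) (.nd (.lf (nat_lit 0)) (.nd (.lf (nat_lit 0)) (.lf (nat_lit 0x8af03d22040000000000000000000000000000000000000000000000000000000000000000000000000000000000000be2040000000000000000000002))))) (.lf (nat_lit 0)))))
def cwt32 : Tr ℕ := (.nd (.nd (.nd (.lf (nat_lit 0)) (.nd (.lf (nat_lit 0)) (.nd (.nd (.lf (nat_lit 0)) (.lf (nat_lit 0xc17000000000000000000000000000000000000000000000000000001))) (.nd (.lf (nat_lit 0xca7000000000000000000000000000000000000001)) (.lf (nat_lit 0)))))) (.nd (.nd (.nd (.nd (.nd (.lf (nat_lit 0)) (.lf (nat_lit 0xd190000000000000000000000000000000000000000000000001))) (.lf (nat_lit 0))) (.lf (nat_lit 0))) (.lf (nat_lit 0))) (.nd (.nd (.nd (.lf (nat_lit 0)) (.lf (nat_lit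 0xb47000000000000000000000001))) (.lf (nat_lit 0))) (.nd (.lf (nat_lit 0)) (.nd (.lf (nat_lit 0xd1a00000000000000000000000000000000000000000001)) (.lf (nat_lit 0))))))) (.nd (.nd (.lf (nat_lit 0)) (.nd (.nd (.lf (nat_lit 0)) (.nd (.lf (nat_lit 0)) (.lf (nat_lit 0xc920000000000000000000000000000000000000000000000000000000000000001)))) (.nd (.lf (nat_lit 0)) (.nd (.lf (nat_lit 0xa9200c9200a9200cd200cd200cd200d120000000a920001)) (.lf (nat_lit 0)))))) (.nd (.nd (.lf (nat_lit 0)) (.nd (.lf (nat_lit 0)) (.nd (.lf (nat_lit 0)) (.lf (nat_lit 0xbe201000000000000000000000000000000000000000000000000000000001))))) (.lf (nat_lit 0)))))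
def cwt33 : Tr ℕ := (.nd (.nd (.nd (.lf (nat_lit 0)) (.nd (.nd (.nd (.nd (.lf (nat_lit 0)) (.lf (nat_lit 0xd1e0000000cde00000000000000000bde000000001))) (.lf (nat_lit 0))) (.lf (nat_lit 0))) (.nd (.nd (.lf (nat_lit 0)) (.lf (nat_lit 0xd1800d18000000000000000000000000000d1800c5800000000000001))) (.lf (nat_lit 0))))) (.nd (.nd (.nd (.nd (.nd (.lf (nat_lit 0)) (.lf (nat_lit 0xc8c00b4c000000000000000000000000000c8c00000000000001))) (.lf (nat_lit 0))) (.lf (nat_lit 0))) (.lf (nat_lit 0))) (.nd (.lf (nat_lit 0)) (.nd (.nd (.lf (nat_lit 0)) (.lf (nat_lit 0xd1d00d1d0000000000000000000000000000000000000000000000001))) (.lf (nat_lit 0)))))) (.nd (.nd (.nd (.lf (nat_lit 0)) (.nd (.lf (nat_lit 0)) (.nd (.lf (nat_lit 0)) (.lf (nat_lit 0xaa100000000000000000000000000001))))) (.nd (.nd (.lf (nat_lit 0)) (.nd (.lf (nat_lit 0)) (.lf (nat_lit 0xb4c00000000000000000000000000000000b0c0000000000000000001)))) (.lf (nat_lit 0))))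 (.nd (.nd (.lf (nat_lit 0)) (.nd (.lf (nat_lit 0)) (.nd (.lf (nat_lit 0)) (.lf (nat_lit 0x8af00d04010000000000000000000000000000000000000000000000000000000000000000000000000000000000000000000000000000000000000002))))) (.lf (nat_lit 0)))))
def cwt34 : Tr ℕ := (.nd (.nd (.lf (nat_lit 0)) (.nd (.nd (.nd (.nd (.nd (.lf (nat_lit 0)) (.lf (nat_lit 0xd190000000000000000000000000000000000000000000000001))) (.lf (nat_lit 0))) (.lf (nat_lit 0))) (.lf (nat_lit 0))) (.nd (.nd (.nd (.lf (nat_lit 0)) (.lf (nat_lit 0xb4700000000000000000000000000000000000000000001))) (.lf (nat_lit 0))) (.nd (.lf (nat_lit 0)) (.nd (.lf (nat_lit 0xd1a00c9a0000000c9a00000000000000000000000000001)) (.lf (nat_lit 0))))))) (.nd (.nd (.lf (nat_lit 0)) (.nd (.lf (nat_lit 0)) (.nd (.lf (nat_lit 0)) (.nd (.lf (nat_lit 0xa9200c9200a9200cd200cd200cd200d120000000a920001)) (.lf (nat_lit 0)))))) (.nd (.nd (.lf (nat_lit 0)) (.nd (.lf (nat_lit 0)) (.nd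 (.lf (nat_lit 0)) (.lf (nat_lit 0x8af01d04020000000000000000000000000bc402000000000000000000008af01d040200000000000000000000000000000000000000000000000000000000000002))))) (.lf (nat_lit 0)))))
def cwt35 : Tr ℕ := (.nd (.nd (.lf (nat_lit 0)) (.nd (.nd (.nd (.nd (.nd (.lf (nat_lit 0)) (.lf (nat_lit 0xcd8020000001))) (.lf (nat_lit 0))) (.lf (nat_lit 0))) (.nd (.lf (nat_lit 0)) (.nd (.lf (nat_lit 0xcdc00d1b01000000000000000000000000000000c5c00c5c00000000000001)) (.lf (nat_lit 0))))) (.lf (nat_lit 0)))) (.nd (.lf (nat_lit 0)) (.nd (.nd (.lf (nat_lit 0)) (.nd (.lf (nat_lit 0)) (.nd (.lf (nat_lit 0)) (.lf (nat_lit 0xba1000000000000ce1000000000000ba10000000000000000000000000000000001))))) (.lf (nat_lit 0)))))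
def cwt36 : Tr ℕ := (.nd (.nd (.nd (.nd (.lf (nat_lit 0)) (.nd (.lf (nat_lit 0)) (.nd (.lf (nat_lit 0xac7000000000000000000000000000000000000000000000000000001)) (.lf (nat_lit 0))))) (.nd (.nd (.nd (.nd (.lf (nat_lit 0)) (.lf (nat_lit 0xc8700000000000000000000000000000000000000000001))) (.lf (nat_lit 0))) (.lf (nat_lit 0))) (.nd (.nd (.lf (nat_lit 0)) (.lf (nat_lit 0xbd60000000000000000000000000000000001))) (.nd (.lf (nat_lit 0)) (.lf (nat_lit 0xcd300000000000000000c930000000c9300000000000000000000000000001)))))) (.nd (.lf (nat_lit 0)) (.nd (.nd (.nd (.lf (nat_lit 0)) (.lf (nat_lit 0xb470000000000000000000000000000000001))) (.lf (nat_lit 0))) (.lf (nat_lit 0))))) (.nd (.nd (.lf (nat_lit 0)) (.nd (.nd (.lf (nat_lit 0)) (.nd (.lf (nat_lit 0)) (.lf (nat_lit 0xb0c000000000000000000000000000000000000001)))) (.lf (nat_lit 0)))) (.nd (.nd (.nd (.nd (.nd (.lf (nat_lit 0)) (.lf (nat_lit 0xd270000000000000000000000000000000000000000000000001)))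 (.lf (nat_lit 0))) (.lf (nat_lit 0))) (.nd (.lf (nat_lit 0)) (.nd (.lf (nat_lit 0)) (.lf (nat_lit 0x8af01d040200000bc402000000000000000000000000000000000000000000000000008af01d0402000000000000000000000000000000000000000002))))) (.lf (nat_lit 0)))))
def cwt37 : Tr ℕ := (.nd (.nd (.lf (nat_lit 0)) (.nd (.nd (.nd (.nd (.nd (.lf (nat_lit 0)) (.lf (nat_lit 0xcd8020000001))) (.lf (nat_lit 0))) (.lf (nat_lit 0))) (.nd (.lf (nat_lit 0)) (.nd (.lf (nat_lit 0xcdc00d1b01000000000000000000000000000000c5c00c5c00000000000001)) (.lf (nat_lit 0))))) (.nd (.lf (nat_lit 0)) (.nd (.nd (.lf (nat_lit 0)) (.lf (nat_lit 0xd1d000000000000000000000000000000000000000000000000000001))) (.lf (nat_lit 0)))))) (.nd (.nd (.lf (nat_lit 0)) (.nd (.nd (.lf (nat_lit 0)) (.nd (.lf (nat_lit 0)) (.lf (nat_lit 0xb0c00000000000001)))) (.lf (nat_lit 0)))) (.nd (.nd (.lf (nat_lit 0)) (.nd (.lf (nat_lit 0)) (.nd (.lf (nat_lit 0)) (.lf (nat_lit 0xba100ce1000000000000000000000000000ba1000000000000000000000001)))))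 (.nd (.lf (nat_lit 0)) (.nd (.lf (nat_lit 0)) (.nd (.lf (nat_lit 0xbe500000000000000000000000000000000000000000000000000000000001)) (.lf (nat_lit 0))))))))
def cwt38 : Tr ℕ := (.nd (.nd (.lf (nat_lit 0)) (.nd (.nd (.nd (.nd (.lf (nat_lit 0)) (.lf (nat_lit 0xcce00000000000000000000000000000000000000000001))) (.lf (nat_lit 0))) (.lf (nat_lit 0))) (.nd (.nd (.nd (.lf (nat_lit 0)) (.lf (nat_lit 0xb4700000000000000000000000000000000000000000001))) (.lf (nat_lit 0))) (.lf (nat_lit 0))))) (.nd (.nd (.lf (nat_lit 0)) (.nd (.nd (.lf (nat_lit 0)) (.nd (.lf (nat_lit 0)) (.lf (nat_lit 0xcd900000000000001)))) (.lf (nat_lit 0)))) (.lf (nat_lit 0))))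
def cwt39 : Tr ℕ := (.nd (.nd (.nd (.nd (.nd (.nd (.nd (.lf (nat_lit 0)) (.lf (nat_lit 0xcdb00000000000000000000000000001))) (.lf (nat_lit 0))) (.lf (nat_lit 0))) (.lf (nat_lit 0))) (.lf (nat_lit 0))) (.lf (nat_lit 0))) (.lf (nat_lit 0)))
def cwt40 : Tr ℕ := (.nd (.nd (.nd (.nd (.nd (.nd (.nd (.lf (nat_lit 0)) (.lf (nat_lit 0xcdb00000000000000000000000000001))) (.lf (nat_lit 0))) (.lf (nat_lit 0))) (.lf (nat_lit 0))) (.lf (nat_lit 0))) (.nd (.nd (.nd (.nd (.lf (nat_lit 0)) (.lf (nat_lit 0xcce00000000000000000000000000000000000000000001))) (.lf (nat_lit 0))) (.lf (nat_lit 0))) (.lf (nat_lit 0)))) (.nd (.nd (.lf (nat_lit 0)) (.nd (.nd (.lf (nat_lit 0)) (.nd (.lf (nat_lit 0)) (.lf (nat_lit 0xcd900000000000001)))) (.lf (nat_lit 0)))) (.nd (.nd (.nd (.nd (.nd (.lf (nat_lit 0)) (.lf (nat_lit 0xd2700d2700d27000000000000000000000000000d270000000000000000001))) (.lf (nat_lit 0))) (.lf (nat_lit 0))) (.lf (nat_lit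 0))) (.lf (nat_lit 0)))))
def cwt41 : Tr ℕ := (.nd (.nd (.lf (nat_lit 0)) (.nd (.lf (nat_lit 0)) (.nd (.lf (nat_lit 0)) (.nd (.nd (.lf (nat_lit 0)) (.lf (nat_lit 0xd1d00000000000000000000000000000000000000000000000000000000001))) (.lf (nat_lit 0)))))) (.nd (.nd (.nd (.nd (.nd (.nd (.lf (nat_lit 0)) (.lf (nat_lit 0xcdb00000000000000000000000000001))) (.lf (nat_lit 0))) (.lf (nat_lit 0))) (.lf (nat_lit 0))) (.lf (nat_lit 0))) (.lf (nat_lit 0))))
def cwt42 : Tr ℕ := (.nd (.nd (.lf (nat_lit 0)) (.nd (.nd (.nd (.nd (.lf (nat_lit 0)) (.lf (nat_lit 0xd1800000000000000000000000000000000000000000000000000000000001))) (.lf (nat_lit 0))) (.nd (.lf (nat_lit 0)) (.nd (.lf (nat_lit 0xc890000000c890000000000000000000000000000000001)) (.lf (nat_lit 0))))) (.lf (nat_lit 0)))) (.nd (.nd (.nd (.nd (.nd (.nd (.lf (nat_lit 0)) (.lf (nat_lit 0xcdb000000000000000000000001))) (.lf (nat_lit 0))) (.lf (nat_lit 0))) (.lf (nat_lit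 0))) (.lf (nat_lit 0))) (.nd (.nd (.nd (.nd (.lf (nat_lit 0)) (.lf (nat_lit 0xcd7000000000000000000000001))) (.lf (nat_lit 0))) (.lf (nat_lit 0))) (.lf (nat_lit 0)))))
def cwt43 : Tr ℕ := (.nd (.nd (.lf (nat_lit 0)) (.nd (.nd (.lf (nat_lit 0)) (.nd (.lf (nat_lit 0)) (.nd (.lf (nat_lit 0xc8900c890000000000000000001)) (.lf (nat_lit 0))))) (.lf (nat_lit 0)))) (.nd (.lf (nat_lit 0)) (.nd (.nd (.nd (.nd (.lf (nat_lit 0)) (.lf (nat_lit 0xc960000000000000000001))) (.lf (nat_lit 0))) (.lf (nat_lit 0))) (.nd (.lf (nat_lit 0)) (.nd (.lf (nat_lit 0)) (.nd (.lf (nat_lit 0xbd00000000000000000000000000000000000000bd00000000000000000001)) (.lf (nat_lit 0))))))))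
def cwt44 : Tr ℕ := (.nd (.nd (.nd (.nd (.lf (nat_lit 0)) (.nd (.lf (nat_lit 0)) (.nd (.lf (nat_lit 0xac7000000000000000000000000000000000000000000000000000001)) (.lf (nat_lit 0))))) (.lf (nat_lit 0))) (.nd (.nd (.nd (.nd (.lf (nat_lit 0)) (.lf (nat_lit 0xd180000000000000000000000000000000000000000000000000000000000000001))) (.lf (nat_lit 0))) (.nd (.lf (nat_lit 0)) (.nd (.lf (nat_lit 0xc890000000c890000000000000000000000000000000001)) (.lf (nat_lit 0))))) (.lf (nat_lit 0)))) (.nd (.lf (nat_lit 0)) (.nd (.lf (nat_lit 0)) (.nd (.lf (nat_lit 0)) (.nd (.lf (nat_lit 0)) (.nd (.lf (nat_lit 0xbd00000000000000000000000000000000000000bd00000000000000000001)) (.lf (nat_lit 0))))))))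
def cwt45 : Tr ℕ := (.nd (.nd (.lf (nat_lit 0)) (.nd (.nd (.lf (nat_lit 0)) (.nd (.lf (nat_lit 0)) (.nd (.lf (nat_lit 0xc8900c890000000000000000001)) (.lf (nat_lit 0))))) (.nd (.lf (nat_lit 0)) (.nd (.nd (.lf (nat_lit 0)) (.lf (nat_lit 0xd1d00000000000000000d1d000000000000000000000000000000000000001))) (.lf (nat_lit 0)))))) (.nd (.lf (nat_lit 0)) (.nd (.lf (nat_lit 0)) (.nd (.lf (nat_lit 0)) (.nd (.lf (nat_lit 0)) (.nd (.lf (nat_lit 0xacc000000001)) (.lf (nat_lit 0))))))))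
def cwt46 : Tr ℕ := (.nd (.lf (nat_lit 0)) (.nd (.nd (.nd (.nd (.nd (.lf (nat_lit 0)) (.lf (nat_lit 0xc8500000000000000000000000000000000000000000000000000000000001))) (.lf (nat_lit 0))) (.lf (nat_lit 0))) (.lf (nat_lit 0))) (.nd (.lf (nat_lit 0)) (.nd (.lf (nat_lit 0)) (.nd (.lf (nat_lit 0)) (.nd (.lf (nat_lit 0xce700000000000000000ae700ae700c6700ae700000000000000000000000000001)) (.lf (nat_lit 0))))))))
def cwt47 : Tr ℕ := (.nd (.lf (nat_lit 0)) (.nd (.nd (.lf (nat_lit 0)) (.nd (.nd (.lf (nat_lit 0)) (.nd (.lf (nat_lit 0)) (.lf (nat_lit 0xcd90000000000000000001)))) (.nd (.nd (.lf (nat_lit 0)) (.lf (nat_lit 0xc1d00000000000000000000000000000000000000000001))) (.lf (nat_lit 0))))) (.nd (.lf (nat_lit 0)) (.nd (.lf (nat_lit 0)) (.nd (.lf (nat_lit 0)) (.nd (.lf (nat_lit 0xacc000000001)) (.lf (nat_lit 0))))))))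
def cwt48 : Tr ℕ := (.nd (.lf (nat_lit 0)) (.nd (.lf (nat_lit 0)) (.nd (.nd (.lf (nat_lit 0)) (.nd (.lf (nat_lit 0)) (.nd (.lf (nat_lit 0xc9c00000000000000000000000000001)) (.lf (nat_lit 0))))) (.nd (.lf (nat_lit 0)) (.nd (.lf (nat_lit 0)) (.nd (.lf (nat_lit 0xce700000000000000000000000000000000c6700ae700ae700ae7000000001)) (.lf (nat_lit 0))))))))
def cwt49 : Tr ℕ := (.nd (.nd (.lf (nat_lit 0)) (.nd (.lf (nat_lit 0)) (.nd (.lf (nat_lit 0)) (.nd (.nd (.lf (nat_lit 0)) (.lf (nat_lit 0xd1d00000000000000000d1d000000000000000000000000000000000000001))) (.lf (nat_lit 0)))))) (.nd (.nd (.lf (nat_lit 0)) (.nd (.lf (nat_lit 0)) (.nd (.lf (nat_lit 0)) (.nd (.lf (nat_lit 0xcd1000000000000000000000000000000000000000000000000000001)) (.lf (nat_lit 0)))))) (.nd (.nd (.nd (.nd (.nd (.lf (nat_lit 0)) (.lf (nat_lit 0xb1d00000000000000000000000000001))) (.lf (nat_lit 0))) (.lf (nat_lit 0))) (.lf (nat_lit 0))) (.nd (.lf (nat_lit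 0)) (.nd (.lf (nat_lit 0)) (.nd (.lf (nat_lit 0xc2600000000000001)) (.lf (nat_lit 0))))))))
def cwt50 : Tr ℕ := (.nd (.nd (.nd (.lf (nat_lit 0)) (.nd (.lf (nat_lit 0)) (.nd (.nd (.lf (nat_lit 0)) (.lf (nat_lit 0xb1d000000000000000000000001))) (.lf (nat_lit 0))))) (.lf (nat_lit 0))) (.nd (.nd (.lf (nat_lit 0)) (.nd (.lf (nat_lit 0)) (.nd (.lf (nat_lit 0)) (.nd (.lf (nat_lit 0xcd1000000000000000000000000000000000000000000000000000001)) (.lf (nat_lit 0)))))) (.nd (.lf (nat_lit 0)) (.nd (.lf (nat_lit 0)) (.nd (.lf (nat_lit 0)) (.nd (.lf (nat_lit 0xcc00000000000000000000000000000000000000000000000001)) (.lf (nat_lit 0))))))))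
def cwt51 : Tr ℕ := (.nd (.nd (.nd (.lf (nat_lit 0)) (.nd (.lf (nat_lit 0)) (.nd (.nd (.lf (nat_lit 0)) (.lf (nat_lit 0xc13000000000000000000000000000000000000000000000000000001))) (.lf (nat_lit 0))))) (.lf (nat_lit 0))) (.nd (.nd (.lf (nat_lit 0)) (.nd (.lf (nat_lit 0)) (.nd (.lf (nat_lit 0)) (.nd (.lf (nat_lit 0xcd4000000001)) (.lf (nat_lit 0)))))) (.nd (.lf (nat_lit 0)) (.nd (.lf (nat_lit 0)) (.nd (.lf (nat_lit 0)) (.nd (.lf (nat_lit 0xc2600000000000001)) (.lf (nat_lit 0))))))))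
def cwt52 : Tr ℕ := (.nd (.nd (.nd (.nd (.nd (.nd (.nd (.lf (nat_lit 0)) (.lf (nat_lit 0xcdb00000000000000000000000000001))) (.lf (nat_lit 0))) (.lf (nat_lit 0))) (.nd (.lf (nat_lit 0)) (.nd (.lf (nat_lit 0xac7000000000000000000000000000000000000000000000000000001)) (.lf (nat_lit 0))))) (.nd (.lf (nat_lit 0)) (.nd (.lf (nat_lit 0)) (.nd (.lf (nat_lit 0)) (.lf (nat_lit 0xc9d000000001)))))) (.lf (nat_lit 0))) (.nd (.nd (.lf (nat_lit 0)) (.nd (.lf (nat_lit 0)) (.nd (.lf (nat_lit 0)) (.nd (.lf (nat_lit 0xcd4000000001)) (.lf (nat_lit 0)))))) (.nd (.lf (nat_lit 0)) (.nd (.lf (nat_lit 0)) (.nd (.lf (nat_lit 0)) (.nd (.lf (nat_lit 0xcc0000000000000000000000000000000000000000000000000000001)) (.lf (nat_lit 0))))))))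
def cwt53 : Tr ℕ := (.nd (.nd (.nd (.nd (.nd (.nd (.nd (.lf (nat_lit 0)) (.lf (nat_lit 0xcdb00000000000000000000000000000000000000000001))) (.lf (nat_lit 0))) (.lf (nat_lit 0))) (.lf (nat_lit 0))) (.lf (nat_lit 0))) (.lf (nat_lit 0))) (.nd (.lf (nat_lit 0)) (.nd (.nd (.nd (.nd (.lf (nat_lit 0)) (.lf (nat_lit 0xcd700000000000000000000000000001))) (.lf (nat_lit 0))) (.lf (nat_lit 0))) (.lf (nat_lit 0)))))
def cwt54 : Tr ℕ := (.nd (.nd (.nd (.nd (.lf (nat_lit 0)) (.nd (.lf (nat_lit 0)) (.nd (.lf (nat_lit 0)) (.lf (nat_lit 0xcd401ad4010000001))))) (.lf (nat_lit 0))) (.lf (nat_lit 0))) (.lf (nat_lit 0)))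
def cwt55 : Tr ℕ := (.nd (.nd (.lf (nat_lit 0)) (.nd (.lf (nat_lit 0)) (.nd (.nd (.nd (.lf (nat_lit 0)) (.lf (nat_lit 0xc9c0000000000000000000000000000000000000000000000001))) (.lf (nat_lit 0))) (.nd (.nd (.lf (nat_lit 0)) (.lf (nat_lit 0xd1d0000000000000000000000d1d000000001))) (.lf (nat_lit 0)))))) (.lf (nat_lit 0)))
def cwt56 : Tr ℕ := (.nd (.lf (nat_lit 0)) (.nd (.lf (nat_lit 0)) (.nd (.nd (.lf (nat_lit 0)) (.nd (.lf (nat_lit 0)) (.nd (.lf (nat_lit 0xc9c000000000000000000000000000000000000001)) (.lf (nat_lit 0))))) (.nd (.nd (.lf (nat_lit 0)) (.nd (.lf (nat_lit 0)) (.lf (nat_lit 0xa9700a970000000000000000000000000000000000000000000000001)))) (.lf (nat_lit 0))))))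
def cwt57 : Tr ℕ := (.nd (.nd (.nd (.nd (.lf (nat_lit 0)) (.nd (.lf (nat_lit 0)) (.nd (.lf (nat_lit 0)) (.lf (nat_lit 0xd12000000000000000000000001))))) (.nd (.lf (nat_lit 0)) (.nd (.lf (nat_lit 0)) (.nd (.lf (nat_lit 0)) (.lf (nat_lit 0xd07000000000000000000000000000000000000000000000000000001)))))) (.nd (.lf (nat_lit 0)) (.nd (.lf (nat_lit 0)) (.nd (.nd (.lf (nat_lit 0)) (.lf (nat_lit 0xcdc0000000000000000000000000000000001))) (.lf (nat_lit 0)))))) (.nd (.nd (.nd (.nd (.nd (.nd (.lf (nat_lit 0)) (.lf (nat_lit 0xcdb020000000000000000000000000000000000000000000000000001))) (.lf (nat_lit 0xd0700d0700d0700000000000001))) (.lf (nat_lit 0))) (.lf (nat_lit 0))) (.nd (.lf (nat_lit 0)) (.nd (.lf (nat_lit 0)) (.nd (.lf (nat_lit 0xcd1000000001)) (.lf (nat_lit 0)))))) (.lf (nat_lit 0))))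
def cwt58 : Tr ℕ := (.nd (.nd (.nd (.lf (nat_lit 0)) (.nd (.lf (nat_lit 0)) (.nd (.nd (.lf (nat_lit 0)) (.lf (nat_lit 0xc81000000001))) (.nd (.lf (nat_lit 0)) (.lf (nat_lit 0xd1f0000000000000000000000000000000000000000000000001)))))) (.lf (nat_lit 0))) (.nd (.nd (.nd (.nd (.nd (.lf (nat_lit 0)) (.lf (nat_lit 0xd0700d0700d070000000000000000000000000000000001))) (.lf (nat_lit 0))) (.lf (nat_lit 0))) (.lf (nat_lit 0))) (.nd (.nd (.nd (.nd (.lf (nat_lit 0)) (.lf (nat_lit 0xcd70000000000000000000000000000000001))) (.lf (nat_lit 0))) (.lf (nat_lit 0))) (.lf (nat_lit 0)))))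
def cwt59 : Tr ℕ := (.nd (.nd (.nd (.nd (.lf (nat_lit 0)) (.nd (.lf (nat_lit 0)) (.nd (.lf (nat_lit 0)) (.lf (nat_lit 0xd120000000000000000000000000000000001))))) (.nd (.lf (nat_lit 0)) (.nd (.nd (.lf (nat_lit 0)) (.lf (nat_lit 0xc210000000000000000000000000000000000000000000000001))) (.lf (nat_lit 0))))) (.lf (nat_lit 0))) (.nd (.nd (.nd (.nd (.nd (.nd (.lf (nat_lit 0)) (.lf (nat_lit 0xc9a000000000000000000000000000000000000001))) (.lf (nat_lit 0))) (.lf (nat_lit 0))) (.lf (nat_lit 0))) (.nd (.lf (nat_lit 0)) (.nd (.lf (nat_lit 0)) (.nd (.lf (nat_lit 0xcd100000000000000000000000000001)) (.lf (nat_lit 0)))))) (.lf (nat_lit 0))))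
def cwt60 : Tr ℕ := (.nd (.nd (.nd (.nd (.lf (nat_lit 0)) (.nd (.lf (nat_lit 0)) (.nd (.lf (nat_lit 0xac7000000000000000000000000000000000000000000000000000001)) (.lf (nat_lit 0))))) (.nd (.lf (nat_lit 0)) (.nd (.nd (.lf (nat_lit 0)) (.lf (nat_lit 0xc8100000000000000000000000000001))) (.nd (.lf (nat_lit 0)) (.lf (nat_lit 0xc1d0000000000000000000000000000000000000000000000001)))))) (.nd (.lf (nat_lit 0)) (.nd (.lf (nat_lit 0)) (.nd (.nd (.lf (nat_lit 0)) (.lf (nat_lit 0xd1d00bdd00d1d00bdd00bdd0000000d1d000000000000000000000001))) (.lf (nat_lit 0)))))) (.lf (nat_lit 0)))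
def cwt61 : Tr ℕ := (.nd (.nd (.nd (.lf (nat_lit 0)) (.nd (.lf (nat_lit 0)) (.nd (.nd (.lf (nat_lit 0)) (.lf (nat_lit 0xc210000000000000000000000000000000000000000000000001))) (.lf (nat_lit 0))))) (.nd (.lf (nat_lit 0)) (.nd (.lf (nat_lit 0)) (.nd (.nd (.lf (nat_lit 0)) (.lf (nat_lit 0xd0900000000000000000000000000000000000000000001))) (.lf (nat_lit 0)))))) (.nd (.nd (.nd (.nd (.nd (.lf (nat_lit 0)) (.lf (nat_lit 0xd0700d0700d070000000000000000000000000000000001))) (.lf (nat_lit 0))) (.lf (nat_lit 0))) (.lf (nat_lit 0))) (.nd (.nd (.nd (.nd (.nd (.lf (nat_lit 0)) (.lf (nat_lit 0xd030100000000000000000000000000000000000000000000001))) (.lf (nat_lit 0))) (.lf (nat_lit 0))) (.lf (nat_lit 0))) (.lf (nat_lit 0)))))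
def cwt62 : Tr ℕ := (.nd (.nd (.lf (nat_lit 0)) (.nd (.lf (nat_lit 0)) (.nd (.lf (nat_lit 0)) (.nd (.nd (.lf (nat_lit 0)) (.lf (nat_lit 0xd09000000001))) (.lf (nat_lit 0)))))) (.nd (.nd (.nd (.nd (.nd (.lf (nat_lit 0)) (.lf (nat_lit 0xd0700d0700d0700000000000001))) (.lf (nat_lit 0))) (.lf (nat_lit 0))) (.lf (nat_lit 0))) (.lf (nat_lit 0))))
def cwt63 : Tr ℕ := (.nd (.nd (.nd (.nd (.lf (nat_lit 0)) (.nd (.lf (nat_lit 0)) (.nd (.lf (nat_lit 0)) (.lf (nat_lit 0xd1200d120000000000000000000000d12000000000000000000000001))))) (.nd (.lf (nat_lit 0)) (.nd (.nd (.lf (nat_lit 0)) (.lf (nat_lit 0xce301000000000000000000000000000000ca30100000000000000001))) (.lf (nat_lit 0))))) (.nd (.lf (nat_lit 0)) (.nd (.lf (nat_lit 0)) (.nd (.nd (.lf (nat_lit 0)) (.lf (nat_lit 0xcdc000000000000000000000000000000000000000000000000000001))) (.lf (nat_lit 0)))))) (.nd (.nd (.nd (.lf (nat_lit 0)) (.nd (.lf (nat_lit 0)) (.nd (.lf (nat_lit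 0)) (.lf (nat_lit 0x8a802d0803000000000002))))) (.nd (.nd (.lf (nat_lit 0)) (.nd (.lf (nat_lit 0)) (.lf (nat_lit 0xc980000000000000000000000b98000000001)))) (.lf (nat_lit 0)))) (.nd (.lf (nat_lit 0)) (.nd (.nd (.lf (nat_lit 0)) (.nd (.lf (nat_lit 0)) (.lf (nat_lit 0xb1600b960000000000000000000000000000000000000000000000001)))) (.lf (nat_lit 0))))))
def cwt64 : Tr ℕ := (.nd (.nd (.lf (nat_lit 0)) (.nd (.lf (nat_lit 0)) (.nd (.lf (nat_lit 0)) (.nd (.nd (.lf (nat_lit 0)) (.lf (nat_lit 0xb9c00cdc0000000000000000000000000000000000000000000000001))) (.lf (nat_lit 0)))))) (.nd (.nd (.lf (nat_lit 0)) (.nd (.nd (.lf (nat_lit 0)) (.nd (.lf (nat_lit 0)) (.lf (nat_lit 0xccc00c8c0000000000000000001)))) (.lf (nat_lit 0)))) (.lf (nat_lit 0))))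
def cwt65 : Tr ℕ := (.nd (.nd (.nd (.nd (.nd (.nd (.nd (.lf (nat_lit 0)) (.lf (nat_lit 0xcdb00000000000000000000000000001))) (.lf (nat_lit 0))) (.lf (nat_lit 0))) (.lf (nat_lit 0))) (.lf (nat_lit 0))) (.nd (.lf (nat_lit 0)) (.nd (.lf (nat_lit 0)) (.nd (.nd (.lf (nat_lit 0)) (.lf (nat_lit 0xd090000000000000000000000000000000000000000000000001))) (.lf (nat_lit 0)))))) (.nd (.nd (.nd (.nd (.nd (.nd (.lf (nat_lit 0)) (.lf (nat_lit 0xc9a000000000000000000000000000000000000001))) (.lf (nat_lit 0xd0700d0700d070000000000000000000000000000000001))) (.lf (nat_lit 0))) (.lf (nat_lit 0))) (.nd (.nd (.lf (nat_lit 0)) (.nd (.lf (nat_lit 0)) (.lf (nat_lit 0xc8c00000000000001)))) (.lf (nat_lit 0)))) (.nd (.lf (nat_lit 0)) (.nd (.nd (.lf (nat_lit 0)) (.nd (.lf (nat_lit 0)) (.lf (nat_lit 0xb1600b960000000000000000000000000000000000000000000000001)))) (.lf (nat_lit 0))))))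
def cwt66 : Tr ℕ := (.nd (.nd (.nd (.nd (.nd (.nd (.nd (.lf (nat_lit 0)) (.lf (nat_lit 0xcdb000000000000000000000000000000000000001))) (.lf (nat_lit 0))) (.lf (nat_lit 0))) (.nd (.lf (nat_lit 0)) (.nd (.lf (nat_lit 0)) (.lf (nat_lit 0xad40000000000000000000000000000000000000000000000001))))) (.nd (.lf (nat_lit 0)) (.nd (.nd (.lf (nat_lit 0)) (.lf (nat_lit 0xc810000000000000000000000000000000001))) (.lf (nat_lit 0))))) (.lf (nat_lit 0))) (.nd (.nd (.nd (.nd (.nd (.lf (nat_lit 0)) (.lf (nat_lit 0xd0700d0700d0700000000000001))) (.lf (nat_lit 0))) (.lf (nat_lit 0))) (.nd (.nd (.lf (nat_lit 0)) (.nd (.lf (nat_lit 0)) (.lf (nat_lit 0xc8c0000000ccc0000000000000000000000000000000001)))) (.lf (nat_lit 0)))) (.lf (nat_lit 0))))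
def cwt67 : Tr ℕ := (.nd (.nd (.nd (.nd (.lf (nat_lit 0)) (.nd (.lf (nat_lit 0)) (.nd (.lf (nat_lit 0)) (.lf (nat_lit 0xc9000c9000c90000000001))))) (.lf (nat_lit 0))) (.nd (.nd (.lf (nat_lit 0)) (.nd (.lf (nat_lit 0)) (.nd (.lf (nat_lit 0)) (.lf (nat_lit 0xc4c000000000000000000000000000000000000001))))) (.nd (.lf (nat_lit 0)) (.nd (.nd (.lf (nat_lit 0)) (.lf (nat_lit 0xd090000000000000000000000000000000001))) (.lf (nat_lit 0)))))) (.nd (.nd (.lf (nat_lit 0)) (.nd (.nd (.lf (nat_lit 0)) (.nd (.lf (nat_lit 0)) (.lf (nat_lit 0xc8c00000000000001)))) (.nd (.lf (nat_lit 0)) (.nd (.lf (nat_lit 0)) (.lf (nat_lit 0xd040000000d0400000000000000000000000000000000000000000001)))))) (.nd (.nd (.nd (.nd (.nd (.lf (nat_lit 0)) (.lf (nat_lit 0xc61000000000000ce100d210000000000000000001))) (.lf (nat_lit 0))) (.lf (nat_lit 0))) (.lf (nat_lit 0))) (.lf (nat_lit 0)))))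
def cwt68 : Tr ℕ := (.nd (.nd (.nd (.nd (.lf (nat_lit 0)) (.nd (.lf (nat_lit 0)) (.nd (.lf (nat_lit 0xac7000000000000000000000000000000000000000000000000000001)) (.lf (nat_lit 0xad4000000000000000000000000000000000000000000000000000001))))) (.nd (.lf (nat_lit 0)) (.nd (.nd (.lf (nat_lit 0)) (.lf (nat_lit 0xc810000000000000000000000000000000001))) (.lf (nat_lit 0))))) (.nd (.lf (nat_lit 0)) (.nd (.lf (nat_lit 0)) (.nd (.nd (.lf (nat_lit 0)) (.lf (nat_lit 0xaa7000000001))) (.lf (nat_lit 0)))))) (.nd (.nd (.nd (.lf (nat_lit 0)) (.nd (.lf (nat_lit 0)) (.nd (.lf (nat_lit 0)) (.lf (nat_lit 0x8a800d0801000000000000000cc801000000000000000000000000000000000000000000000cc801000000000002))))) (.nd (.nd (.lf (nat_lit 0)) (.nd (.lf (nat_lit 0)) (.lf (nat_lit 0xbc9000000001)))) (.nd (.lf (nat_lit 0)) (.nd (.lf (nat_lit 0)) (.lf (nat_lit 0xada000000000000000000000000000000000000001)))))) (.lf (nat_lit 0))))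
def cwt69 : Tr ℕ := (.nd (.nd (.nd (.nd (.lf (nat_lit 0)) (.nd (.lf (nat_lit 0)) (.nd (.lf (nat_lit 0)) (.lf (nat_lit 0xc9000c900000000c9000000000000000000000000000001))))) (.lf (nat_lit 0))) (.nd (.nd (.lf (nat_lit 0)) (.nd (.lf (nat_lit 0)) (.nd (.lf (nat_lit 0)) (.lf (nat_lit 0xc4c000000000000000000000000000000000000001))))) (.lf (nat_lit 0)))) (.nd (.nd (.nd (.nd (.nd (.lf (nat_lit 0)) (.lf (nat_lit 0xd0700d0700d0700000000000001))) (.lf (nat_lit 0))) (.nd (.lf (nat_lit 0)) (.nd (.lf (nat_lit 0)) (.lf (nat_lit 0xade0100000000000000000000000000000000000000000000000000000000000000000000008a800d1e010000000000000000000002))))) (.nd (.nd (.lf (nat_lit 0)) (.nd (.lf (nat_lit 0)) (.lf (nat_lit 0xc1a00000000000000000000000000000000000000000001)))) (.lf (nat_lit 0)))) (.lf (nat_lit 0))))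
def cwt70 : Tr ℕ := (.nd (.nd (.nd (.lf (nat_lit 0)) (.nd (.lf (nat_lit 0)) (.nd (.lf (nat_lit 0)) (.nd (.lf (nat_lit 0)) (.lf (nat_lit 0xd1f00adf000000001)))))) (.lf (nat_lit 0))) (.nd (.nd (.nd (.nd (.nd (.lf (nat_lit 0)) (.lf (nat_lit 0xd0700d0700d070000000000000000000000000000000001))) (.lf (nat_lit 0))) (.nd (.lf (nat_lit 0)) (.nd (.lf (nat_lit 0)) (.lf (nat_lit 0x8a800d0801000000000000000000000000000000000000000000000000008a800d080100000cc80100000cc801000000000002))))) (.lf (nat_lit 0))) (.nd (.lf (nat_lit 0)) (.nd (.nd (.lf (nat_lit 0)) (.nd (.lf (nat_lit 0)) (.lf (nat_lit 0xbc70000000000000000000000000000000000000000000000001)))) (.lf (nat_lit 0))))))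
def cwt71 : Tr ℕ := (.nd (.lf (nat_lit 0)) (.nd (.nd (.nd (.lf (nat_lit 0)) (.nd (.lf (nat_lit 0)) (.nd (.lf (nat_lit 0)) (.lf (nat_lit 0xade018a800d1e0100000000000000000000000000000002))))) (.lf (nat_lit 0))) (.lf (nat_lit 0))))
def cwt72 : Tr ℕ := (.nd (.nd (.nd (.lf (nat_lit 0)) (.nd (.lf (nat_lit 0)) (.nd (.lf (nat_lit 0)) (.nd (.lf (nat_lit 0)) (.lf (nat_lit 0xd1f00adf000000001)))))) (.lf (nat_lit 0))) (.nd (.nd (.nd (.lf (nat_lit 0)) (.nd (.lf (nat_lit 0)) (.nd (.lf (nat_lit 0)) (.lf (nat_lit 0x8a800d0801000000000000000000000000000000000000000000000000008a800d080100000cc80100000cc801000000000002))))) (.lf (nat_lit 0))) (.nd (.nd (.nd (.nd (.nd (.lf (nat_lit 0)) (.lf (nat_lit 0x8ab00d21010000000000000000000000000000000000000000000000000002))) (.lf (nat_lit 0))) (.lf (nat_lit 0))) (.lf (nat_lit 0))) (.nd (.nd (.lf (nat_lit 0)) (.nd (.lf (nat_lit 0)) (.lf (nat_lit 0xbc70000000000000000000000000000000000000000000000001))))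 (.lf (nat_lit 0))))))
def cwt73 : Tr ℕ := (.nd (.nd (.nd (.nd (.nd (.nd (.lf (nat_lit 0)) (.lf (nat_lit 0xcdc00000000000000000000000000000000000000000000000000000000001))) (.lf (nat_lit 0))) (.nd (.lf (nat_lit 0)) (.nd (.lf (nat_lit 0)) (.lf (nat_lit 0x8a800d240100000c6401000000000002))))) (.lf (nat_lit 0))) (.nd (.nd (.lf (nat_lit 0)) (.nd (.lf (nat_lit 0)) (.nd (.lf (nat_lit 0)) (.lf (nat_lit 0xd1a000000000000000000000000000000000000000000000000000001))))) (.lf (nat_lit 0)))) (.nd (.nd (.nd (.lf (nat_lit 0)) (.nd (.lf (nat_lit 0)) (.nd (.lf (nat_lit 0)) (.lf (nat_lit 0x8a800d1e01000000000000000ade0100000000000000000000000000000000000000000000000000000000000002))))) (.lf (nat_lit 0))) (.lf (nat_lit 0))))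
def cwt74 : Tr ℕ := (.nd (.nd (.nd (.lf (nat_lit 0)) (.nd (.lf (nat_lit 0)) (.nd (.lf (nat_lit 0)) (.nd (.lf (nat_lit 0)) (.lf (nat_lit 0xbdd00bdd00bdd000000001)))))) (.nd (.nd (.nd (.nd (.nd (.lf (nat_lit 0)) (.lf (nat_lit 0xbe100be100000000000000000d2100be100be100000000000001))) (.lf (nat_lit 0))) (.lf (nat_lit 0))) (.lf (nat_lit 0))) (.lf (nat_lit 0)))) (.nd (.lf (nat_lit 0)) (.nd (.lf (nat_lit 0)) (.nd (.nd (.lf (nat_lit 0)) (.nd (.lf (nat_lit 0)) (.lf (nat_lit 0xbc700000000000000000000000000001)))) (.lf (nat_lit 0))))))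
def cwt75 : Tr ℕ := (.nd (.nd (.nd (.nd (.nd (.nd (.lf (nat_lit 0)) (.lf (nat_lit 0xcdc00000000000000000000000000000000000000000000000000000000001))) (.lf (nat_lit 0))) (.lf (nat_lit 0))) (.nd (.lf (nat_lit 0)) (.nd (.nd (.lf (nat_lit 0)) (.lf (nat_lit 0xc8100000000000001))) (.lf (nat_lit 0))))) (.lf (nat_lit 0))) (.lf (nat_lit 0)))
def cwt76 : Tr ℕ := (.nd (.nd (.nd (.nd (.lf (nat_lit 0)) (.nd (.lf (nat_lit 0)) (.nd (.lf (nat_lit 0xac7000000000000000000000000000000000000000000000000000001)) (.lf (nat_lit 0))))) (.lf (nat_lit 0))) (.nd (.nd (.nd (.nd (.nd (.lf (nat_lit 0)) (.lf (nat_lit 0xd2100be100be1000000000000000000000000000be100d2100000000000001))) (.lf (nat_lit 0))) (.lf (nat_lit 0))) (.lf (nat_lit 0))) (.lf (nat_lit 0)))) (.nd (.nd (.lf (nat_lit 0)) (.nd (.nd (.lf (nat_lit 0)) (.nd (.lf (nat_lit 0)) (.lf (nat_lit 0xbc90000000000000000000000000000000001)))) (.nd (.lf (nat_lit 0)) (.nd (.lf (nat_lit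 0)) (.lf (nat_lit 0xd0500d0401d04010000001)))))) (.nd (.lf (nat_lit 0)) (.nd (.nd (.lf (nat_lit 0)) (.nd (.lf (nat_lit 0)) (.lf (nat_lit 0xbc7000000000000000000000000000000000000000000000000000001)))) (.lf (nat_lit 0))))))
def cwt77 : Tr ℕ := (.nd (.nd (.nd (.lf (nat_lit 0)) (.nd (.lf (nat_lit 0)) (.nd (.nd (.lf (nat_lit 0)) (.lf (nat_lit 0xb1d000000001))) (.lf (nat_lit 0))))) (.lf (nat_lit 0))) (.nd (.nd (.nd (.lf (nat_lit 0)) (.nd (.lf (nat_lit 0)) (.nd (.lf (nat_lit 0)) (.lf (nat_lit 0x8a802d0803000000000000000000000000000000000000000000000000000000000000000000000002))))) (.nd (.nd (.lf (nat_lit 0)) (.nd (.lf (nat_lit 0)) (.lf (nat_lit 0xc1a00b9a00c1a0000000000000000000000c1a000000000000000000000001)))) (.lf (nat_lit 0)))) (.nd (.nd (.nd (.nd (.nd (.lf (nat_lit 0)) (.lf (nat_lit 0xd0f0000000000000000000000000000000000000000000000001))) (.lf (nat_lit 0))) (.lf (nat_lit 0))) (.lf (nat_lit 0))) (.nd (.nd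 (.lf (nat_lit 0)) (.nd (.lf (nat_lit 0)) (.lf (nat_lit 0xbc7000000000000000000000001)))) (.lf (nat_lit 0))))))
def cwt78 : Tr ℕ := (.nd (.nd (.nd (.nd (.nd (.nd (.nd (.lf (nat_lit 0)) (.lf (nat_lit 0xcdb00000000000000000000000000001))) (.lf (nat_lit 0))) (.lf (nat_lit 0))) (.lf (nat_lit 0))) (.nd (.lf (nat_lit 0)) (.nd (.lf (nat_lit 0)) (.nd (.lf (nat_lit 0)) (.lf (nat_lit 0xd07000000000000000000000000000cc700000000000000000000000000001)))))) (.lf (nat_lit 0))) (.nd (.nd (.lf (nat_lit 0)) (.nd (.nd (.lf (nat_lit 0)) (.nd (.lf (nat_lit 0)) (.lf (nat_lit 0xbc9000000000000000000000001)))) (.lf (nat_lit 0)))) (.nd (.lf (nat_lit 0)) (.nd (.lf (nat_lit 0)) (.nd (.lf (nat_lit 0)) (.nd (.lf (nat_lit 0)) (.lf (nat_lit 0xc9300c93000000000000000000000000000c930000000000000000001))))))))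
def cwt79 : Tr ℕ := (.nd (.nd (.nd (.nd (.nd (.nd (.nd (.lf (nat_lit 0)) (.lf (nat_lit 0xcdb000000000000000000000000000000000000001))) (.lf (nat_lit 0))) (.lf (nat_lit 0))) (.lf (nat_lit 0))) (.nd (.lf (nat_lit 0)) (.nd (.nd (.lf (nat_lit 0)) (.lf (nat_lit 0xca3010000001))) (.lf (nat_lit 0))))) (.lf (nat_lit 0))) (.nd (.nd (.lf (nat_lit 0)) (.nd (.nd (.lf (nat_lit 0)) (.nd (.lf (nat_lit 0)) (.lf (nat_lit 0xc1a00b9a00c1a0000000000000000000000c1a000000000000000000000001)))) (.lf (nat_lit 0)))) (.lf (nat_lit 0))))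
def cwt80 : Tr ℕ := (.nd (.nd (.nd (.nd (.lf (nat_lit 0)) (.nd (.lf (nat_lit 0)) (.nd (.lf (nat_lit 0)) (.lf (nat_lit 0xae100000000000000000000000000001))))) (.lf (nat_lit 0))) (.lf (nat_lit 0))) (.nd (.nd (.nd (.lf (nat_lit 0)) (.nd (.lf (nat_lit 0)) (.nd (.lf (nat_lit 0)) (.lf (nat_lit 0xade0500000000000000000000000000000001))))) (.nd (.nd (.lf (nat_lit 0)) (.nd (.lf (nat_lit 0)) (.lf (nat_lit 0xc8c0000000000000000000000ccc00c8c000000000000000000000001)))) (.nd (.lf (nat_lit 0)) (.nd (.lf (nat_lit 0xb5a0000000c5a00000000000000000000000000001)) (.lf (nat_lit 0)))))) (.nd (.lf (nat_lit 0)) (.nd (.lf (nat_lit 0)) (.nd (.lf (nat_lit 0)) (.nd (.lf (nat_lit 0)) (.lf (nat_lit 0xd140000000000000000000000000000000000000000000000001))))))))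
def cwt81 : Tr ℕ := (.nd (.lf (nat_lit 0)) (.nd (.nd (.nd (.lf (nat_lit 0)) (.nd (.lf (nat_lit 0)) (.nd (.lf (nat_lit 0)) (.lf (nat_lit 0xcc801000000000000000000000000000000000000000001))))) (.nd (.nd (.lf (nat_lit 0)) (.nd (.lf (nat_lit 0)) (.lf (nat_lit 0xc8c00000000000000000000000000001)))) (.lf (nat_lit 0)))) (.nd (.lf (nat_lit 0)) (.nd (.nd (.lf (nat_lit 0)) (.nd (.lf (nat_lit 0)) (.lf (nat_lit 0xd1f00d1f000000000000000000000000000000000000001)))) (.lf (nat_lit 0))))))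
def cwt82 : Tr ℕ := (.nd (.nd (.nd (.lf (nat_lit 0)) (.nd (.lf (nat_lit 0)) (.nd (.nd (.lf (nat_lit 0)) (.lf (nat_lit 0xd03000000000000d03000000000000d0300000000000000000d0300d03000000001))) (.lf (nat_lit 0))))) (.lf (nat_lit 0))) (.nd (.lf (nat_lit 0)) (.nd (.nd (.nd (.nd (.nd (.lf (nat_lit 0)) (.lf (nat_lit 0xd1a00d1a00a9a0000000a9a00c1a00d1a0000000000000000001))) (.lf (nat_lit 0))) (.lf (nat_lit 0))) (.lf (nat_lit 0))) (.lf (nat_lit 0)))))
def cwt83 : Tr ℕ := (.nd (.nd (.nd (.nd (.nd (.nd (.lf (nat_lit 0)) (.lf (nat_lit 0xcc90000000000000000001))) (.lf (nat_lit 0))) (.lf (nat_lit 0))) (.nd (.lf (nat_lit 0)) (.nd (.nd (.lf (nat_lit 0)) (.lf (nat_lit 0xd0300d030000000000000000000000d0300d0300d0300000000000001))) (.lf (nat_lit 0))))) (.lf (nat_lit 0))) (.nd (.nd (.nd (.nd (.nd (.nd (.lf (nat_lit 0)) (.lf (nat_lit 0xbcc01b4c010000000000000000000000000000000000001))) (.lf (nat_lit 0))) (.lf (nat_lit 0)))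 (.lf (nat_lit 0))) (.lf (nat_lit 0))) (.nd (.lf (nat_lit 0)) (.nd (.nd (.lf (nat_lit 0)) (.nd (.lf (nat_lit 0)) (.lf (nat_lit 0xd1f00d1f000000000000000000000000000000000000001)))) (.lf (nat_lit 0))))))
def cwt84 : Tr ℕ := (.nd (.nd (.nd (.nd (.nd (.nd (.lf (nat_lit 0)) (.lf (nat_lit 0xcc900000000000000000000000000000000000000000001))) (.lf (nat_lit 0))) (.nd (.lf (nat_lit 0)) (.nd (.lf (nat_lit 0xac7000000000000000000000000000000000000000000000000000001)) (.lf (nat_lit 0))))) (.lf (nat_lit 0))) (.lf (nat_lit 0))) (.nd (.nd (.nd (.nd (.nd (.nd (.lf (nat_lit 0)) (.lf (nat_lit 0xb4c00000000000000000000000000000000000000000000000000000000001))) (.lf (nat_lit 0))) (.lf (nat_lit 0))) (.lf (nat_lit 0))) (.nd (.nd (.lf (nat_lit 0)) (.nd (.lf (nat_lit 0)) (.lf (nat_lit 0xc0a0000000000000000000000000000000000000000000000001)))) (.lf (nat_lit 0)))) (.lf (nat_lit 0))))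
def cwt85 : Tr ℕ := (.nd (.nd (.nd (.nd (.nd (.nd (.lf (nat_lit 0)) (.lf (nat_lit 0xcc90000000000000000000000000000000001))) (.lf (nat_lit 0))) (.lf (nat_lit 0))) (.nd (.lf (nat_lit 0)) (.nd (.nd (.lf (nat_lit 0)) (.lf (nat_lit 0xca30000000000000000000000000000000000000000000000001))) (.lf (nat_lit 0))))) (.lf (nat_lit 0))) (.nd (.nd (.nd (.nd (.nd (.nd (.lf (nat_lit 0)) (.lf (nat_lit 0xbcc01b4c01000000000001))) (.lf (nat_lit 0))) (.lf (nat_lit 0))) (.lf (nat_lit 0))) (.nd (.nd (.lf (nat_lit 0)) (.nd (.lf (nat_lit 0)) (.lf (nat_lit 0xb9800b980000000c9800000000000000000000000000001)))) (.lf (nat_lit 0)))) (.lf (nat_lit 0))))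
def cwt86 : Tr ℕ := (.nd (.nd (.nd (.nd (.nd (.nd (.lf (nat_lit 0)) (.lf (nat_lit 0xcc9000000000000000000000001))) (.lf (nat_lit 0))) (.lf (nat_lit 0))) (.nd (.lf (nat_lit 0)) (.nd (.nd (.lf (nat_lit 0)) (.lf (nat_lit 0xd0300d03000000000000d030000000d0300d03000000000000000000000001))) (.nd (.lf (nat_lit 0)) (.lf (nat_lit 0xd07010000000000000000000000000000000000000000000000000001)))))) (.lf (nat_lit 0))) (.nd (.nd (.nd (.nd (.nd (.nd (.lf (nat_lit 0)) (.lf (nat_lit 0xb4c0000000000000000000000000000000000000000000000000000000000000001))) (.lf (nat_lit 0))) (.lf (nat_lit 0))) (.lf (nat_lit 0))) (.lf (nat_lit 0))) (.lf (nat_lit 0))))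
def cwt87 : Tr ℕ := (.nd (.nd (.nd (.lf (nat_lit 0)) (.nd (.lf (nat_lit 0)) (.nd (.nd (.lf (nat_lit 0)) (.lf (nat_lit 0xd0300d030000000000000000000000d0300d0300d0300000000000001))) (.lf (nat_lit 0))))) (.lf (nat_lit 0))) (.nd (.lf (nat_lit 0)) (.nd (.nd (.lf (nat_lit 0)) (.nd (.nd (.lf (nat_lit 0)) (.lf (nat_lit 0xba10000000000000000000000be1000000001))) (.lf (nat_lit 0)))) (.nd (.nd (.lf (nat_lit 0)) (.nd (.lf (nat_lit 0)) (.lf (nat_lit 0xb4500b450000000000000000000000000000000000000000000000001)))) (.lf (nat_lit 0))))))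
def cwt88 : Tr ℕ := (.nd (.lf (nat_lit 0)) (.nd (.nd (.lf (nat_lit 0)) (.nd (.nd (.nd (.lf (nat_lit 0)) (.lf (nat_lit 0xad30000000000000000000000000000000000000000000000001))) (.lf (nat_lit 0))) (.lf (nat_lit 0)))) (.nd (.nd (.lf (nat_lit 0)) (.nd (.lf (nat_lit 0)) (.nd (.lf (nat_lit 0)) (.lf (nat_lit 0xb890000000000000000000000000000000001))))) (.lf (nat_lit 0)))))
def cwt89 : Tr ℕ := (.nd (.nd (.nd (.lf (nat_lit 0)) (.nd (.lf (nat_lit 0)) (.nd (.nd (.lf (nat_lit 0)) (.lf (nat_lit 0xca3000000000000000000000000000000000000000000000000000001))) (.lf (nat_lit 0))))) (.lf (nat_lit 0))) (.nd (.nd (.lf (nat_lit 0)) (.nd (.nd (.nd (.lf (nat_lit 0)) (.lf (nat_lit 0xadf00adf0000000000000000000000000000000000000000000000001))) (.lf (nat_lit 0))) (.lf (nat_lit 0)))) (.nd (.nd (.lf (nat_lit 0)) (.nd (.nd (.lf (nat_lit 0)) (.lf (nat_lit 0xac104000000000000000000000000000000000000000001))) (.lf (nat_lit 0)))) (.nd (.nd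 (.lf (nat_lit 0)) (.nd (.lf (nat_lit 0)) (.lf (nat_lit 0xb4500b450000000000000000000000000000000000000000000000001)))) (.lf (nat_lit 0))))))
def cwt90 : Tr ℕ := (.nd (.lf (nat_lit 0)) (.nd (.nd (.lf (nat_lit 0)) (.nd (.nd (.nd (.lf (nat_lit 0)) (.lf (nat_lit 0xad30000000000000000000000000000000000000000000000001))) (.lf (nat_lit 0))) (.lf (nat_lit 0)))) (.lf (nat_lit 0))))
def cwt91 : Tr ℕ := (.nd (.nd (.nd (.nd (.nd (.nd (.nd (.lf (nat_lit 0)) (.lf (nat_lit 0xcdb00000000000000000000000000001))) (.lf (nat_lit 0xcc90000000000000000001))) (.lf (nat_lit 0))) (.nd (.lf (nat_lit 0)) (.nd (.lf (nat_lit 0)) (.lf (nat_lit 0xc4201000000000000000000000000001))))) (.lf (nat_lit 0))) (.lf (nat_lit 0))) (.nd (.nd (.lf (nat_lit 0)) (.nd (.nd (.nd (.lf (nat_lit 0)) (.lf (nat_lit 0xadf00adf0000000000000000000000000000000000000000000000001))) (.lf (nat_lit 0))) (.lf (nat_lit 0)))) (.nd (.nd (.lf (nat_lit 0)) (.nd (.nd (.lf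 (nat_lit 0)) (.lf (nat_lit 0xb6500ca50000000ce500000000000000000000000000001))) (.lf (nat_lit 0)))) (.lf (nat_lit 0)))))
def cwt92 : Tr ℕ := (.nd (.nd (.nd (.nd (.nd (.nd (.nd (.lf (nat_lit 0)) (.lf (nat_lit 0xcdb00000000000000000000000000000000000000000001))) (.lf (nat_lit 0xcc900000000000000000000000000000000000000000001))) (.lf (nat_lit 0))) (.nd (.lf (nat_lit 0)) (.nd (.lf (nat_lit 0xac7000000000000000000000000000000000000000000000000000001)) (.lf (nat_lit 0xc4201000000000000000000000000001))))) (.nd (.lf (nat_lit 0)) (.nd (.nd (.lf (nat_lit 0)) (.lf (nat_lit 0xd1c00000000000000000000000000000000c9c0000000000000000001))) (.lf (nat_lit 0))))) (.nd (.nd (.nd (.nd (.nd (.lf (nat_lit 0)) (.lf (nat_lit 0xc0c00000000000000000ccc00c4c000000001))) (.lf (nat_lit 0))) (.lf (nat_lit 0))) (.lf (nat_lit 0))) (.lf (nat_lit 0)))) (.nd (.nd (.nd (.lf (nat_lit 0)) (.nd (.lf (nat_lit 0)) (.nd (.lf (nat_lit 0)) (.lf (nat_lit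 0xcc801cc801cc8010000000000000000000000000cc80100000000000000001))))) (.nd (.nd (.nd (.lf (nat_lit 0)) (.lf (nat_lit 0xcc70000000cc70000000000000000000000000000000001))) (.lf (nat_lit 0))) (.lf (nat_lit 0)))) (.lf (nat_lit 0))))
def cwt93 : Tr ℕ := (.nd (.nd (.nd (.nd (.nd (.nd (.lf (nat_lit 0)) (.lf (nat_lit 0xcc9000000000000000000000001))) (.lf (nat_lit 0))) (.lf (nat_lit 0))) (.lf (nat_lit 0))) (.lf (nat_lit 0))) (.nd (.nd (.nd (.lf (nat_lit 0)) (.nd (.lf (nat_lit 0)) (.nd (.lf (nat_lit 0)) (.lf (nat_lit 0xade050000000000000000000000000ade05000000000000000000000000001))))) (.lf (nat_lit 0))) (.nd (.nd (.lf (nat_lit 0)) (.nd (.nd (.lf (nat_lit 0)) (.lf (nat_lit 0xb6500ca50000000ce500000000000000000000000000001))) (.lf (nat_lit 0)))) (.lf (nat_lit 0)))))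
def cwt94 : Tr ℕ := (.nd (.nd (.nd (.nd (.nd (.nd (.lf (nat_lit 0)) (.lf (nat_lit 0xcc90000000000000000000000000000000001))) (.lf (nat_lit 0))) (.nd (.lf (nat_lit 0)) (.nd (.lf (nat_lit 0)) (.lf (nat_lit 0xb930000000b9300000000000000000000000000000000000000000001))))) (.lf (nat_lit 0))) (.lf (nat_lit 0))) (.nd (.lf (nat_lit 0)) (.nd (.nd (.lf (nat_lit 0)) (.nd (.nd (.lf (nat_lit 0)) (.lf (nat_lit 0xca500000000000000000000000000000000000000000000000000000000001))) (.lf (nat_lit 0)))) (.nd (.nd (.lf (nat_lit 0)) (.nd (.lf (nat_lit 0)) (.lf (nat_lit 0xbc7000000000000000000000000000000000000001)))) (.lf (nat_lit 0))))))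
def cwt95 : Tr ℕ := (.nd (.nd (.nd (.nd (.lf (nat_lit 0)) (.nd (.lf (nat_lit 0)) (.nd (.lf (nat_lit 0)) (.lf (nat_lit 0x8a800d02010000000000000000000000000000000000000000000000000000000c42010000000000000000000000000000000000000000000000000002))))) (.lf (nat_lit 0))) (.lf (nat_lit 0))) (.nd (.nd (.nd (.nd (.nd (.nd (.lf (nat_lit 0)) (.lf (nat_lit 0xc1d000000001))) (.lf (nat_lit 0))) (.lf (nat_lit 0))) (.nd (.lf (nat_lit 0)) (.nd (.lf (nat_lit 0)) (.lf (nat_lit 0xade000000000000000000000000000000000000000000000000000001))))) (.lf (nat_lit 0))) (.lf (nat_lit 0))))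
def cwt96 : Tr ℕ := (.nd (.nd (.lf (nat_lit 0)) (.nd (.lf (nat_lit 0)) (.nd (.nd (.lf (nat_lit 0)) (.nd (.lf (nat_lit 0)) (.lf (nat_lit 0xd23010000001)))) (.lf (nat_lit 0))))) (.nd (.nd (.nd (.nd (.nd (.nd (.lf (nat_lit 0)) (.lf (nat_lit 0xd0903000000000000000000000000001))) (.lf (nat_lit 0))) (.lf (nat_lit 0))) (.lf (nat_lit 0))) (.lf (nat_lit 0))) (.nd (.nd (.lf (nat_lit 0)) (.nd (.nd (.lf (nat_lit 0)) (.lf (nat_lit 0xca50000000000000000000000000000000000000000000000000000000000000001))) (.lf (nat_lit 0)))) (.lf (nat_lit 0)))))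
def cwt97 : Tr ℕ := (.nd (.nd (.lf (nat_lit 0)) (.nd (.lf (nat_lit 0)) (.nd (.nd (.lf (nat_lit 0)) (.nd (.lf (nat_lit 0)) (.lf (nat_lit 0x8b0008ae018b602d23030000000000000000000000000000000000000000000000000000000000000000000000000000000000000000000000000000000000000000000000000000000000000000000000000000000000000000000000000000000000000000000000000000000004)))) (.lf (nat_lit 0))))) (.nd (.nd (.nd (.lf (nat_lit 0)) (.nd (.lf (nat_lit 0)) (.nd (.lf (nat_lit 0)) (.lf (nat_lit 0xade0000000000000000000000000000000000000000000000001))))) (.nd (.lf (nat_lit 0)) (.nd (.lf (nat_lit 0)) (.nd (.lf (nat_lit 0)) (.lf (nat_lit 0xd1d000000000000000000000000000000000000001)))))) (.lf (nat_lit 0))))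
def cwt98 : Tr ℕ := (.nd (.nd (.nd (.nd (.lf (nat_lit 0)) (.nd (.lf (nat_lit 0)) (.nd (.lf (nat_lit 0)) (.lf (nat_lit 0xc640000000ba400000000000000000000000000000000000000000001))))) (.lf (nat_lit 0))) (.nd (.lf (nat_lit 0)) (.nd (.nd (.lf (nat_lit 0)) (.nd (.lf (nat_lit 0)) (.lf (nat_lit 0xd2301000000000000000000000000001)))) (.lf (nat_lit 0))))) (.nd (.nd (.lf (nat_lit 0)) (.nd (.lf (nat_lit 0)) (.nd (.lf (nat_lit 0)) (.nd (.lf (nat_lit 0xb5a00c5a0000000000000000001)) (.lf (nat_lit 0xd1d000000000000000000000000000000000000001)))))) (.lf (nat_lit 0))))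
def cwt99 : Tr ℕ := (.nd (.nd (.nd (.nd (.lf (nat_lit 0)) (.nd (.lf (nat_lit 0)) (.nd (.lf (nat_lit 0)) (.lf (nat_lit 0xc640000000ba400000000000000000000000000000000000000000001))))) (.lf (nat_lit 0))) (.nd (.lf (nat_lit 0)) (.nd (.nd (.lf (nat_lit 0)) (.nd (.lf (nat_lit 0)) (.lf (nat_lit 0x8b0008ae018b602d23030000000000000000000000000000000000000000000000000000000000000000000000000000000000000000000000000000000000000000000000000000000000000000000000000000000000000000000000000000000000000000000000000000000004)))) (.lf (nat_lit 0))))) (.nd (.nd (.nd (.nd (.nd (.nd (.lf (nat_lit 0)) (.lf (nat_lit 0xc1d00000000000000000000000000001))) (.lf (nat_lit 0xcce02000000000001))) (.lf (nat_lit 0))) (.lf (nat_lit 0))) (.lf (nat_lit 0))) (.nd (.lf (nat_lit 0)) (.nd (.nd (.lf (nat_lit 0)) (.nd (.lf (nat_lit 0)) (.lf (nat_lit 0xbc7010000000000000000000000000000000000000000000000000001)))) (.lf (nat_lit 0))))))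
def cwt100 : Tr ℕ := (.nd (.nd (.nd (.nd (.lf (nat_lit 0)) (.nd (.lf (nat_lit 0)) (.nd (.lf (nat_lit 0xac7000000000000000000000000000000000000000000000000000001)) (.lf (nat_lit 0))))) (.lf (nat_lit 0))) (.nd (.lf (nat_lit 0)) (.nd (.nd (.lf (nat_lit 0)) (.nd (.lf (nat_lit 0)) (.lf (nat_lit 0xc4300c430000000000000000000000c4300c4300c4300000000000001)))) (.lf (nat_lit 0))))) (.nd (.nd (.nd (.nd (.nd (.nd (.lf (nat_lit 0)) (.lf (nat_lit 0xd0903000000000000000000000000001))) (.lf (nat_lit 0xcce02000000000001))) (.lf (nat_lit 0))) (.lf (nat_lit 0))) (.lf (nat_lit 0))) (.lf (nat_lit 0))))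
def cwt101 : Tr ℕ := (.nd (.nd (.lf (nat_lit 0)) (.nd (.lf (nat_lit 0)) (.nd (.nd (.lf (nat_lit 0)) (.nd (.lf (nat_lit 0)) (.lf (nat_lit 0xc430000000000000000000000000000000001)))) (.lf (nat_lit 0))))) (.nd (.nd (.lf (nat_lit 0)) (.nd (.nd (.nd (.lf (nat_lit 0)) (.lf (nat_lit 0xcc700cc7000000001))) (.lf (nat_lit 0))) (.lf (nat_lit 0)))) (.nd (.nd (.lf (nat_lit 0)) (.nd (.lf (nat_lit 0)) (.nd (.lf (nat_lit 0)) (.lf (nat_lit 0xae700000000000000000ae700ae7000000001))))) (.nd (.nd (.lf (nat_lit 0)) (.nd (.lf (nat_lit 0)) (.lf (nat_lit 0xbc7010000000000000000000000000000000000000000000000000001)))) (.lf (nat_lit 0))))))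
def cwt102 : Tr ℕ := (.nd (.nd (.lf (nat_lit 0)) (.nd (.lf (nat_lit 0)) (.nd (.nd (.lf (nat_lit 0)) (.nd (.lf (nat_lit 0)) (.lf (nat_lit 0xc2100ca10000000000000000000000ca100aa100aa100000000000001)))) (.lf (nat_lit 0))))) (.nd (.lf (nat_lit 0)) (.nd (.nd (.lf (nat_lit 0)) (.nd (.lf (nat_lit 0)) (.nd (.lf (nat_lit 0)) (.lf (nat_lit 0xae700ae70000000000000000000000ae7000000000000000000000001))))) (.nd (.lf (nat_lit 0)) (.nd (.lf (nat_lit 0)) (.nd (.lf (nat_lit 0)) (.lf (nat_lit 0xcdb00000000000000000000000000001))))))))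
def cwt103 : Tr ℕ := (.nd (.nd (.nd (.lf (nat_lit 0)) (.nd (.lf (nat_lit 0)) (.nd (.lf (nat_lit 0)) (.nd (.lf (nat_lit 0)) (.lf (nat_lit 0xadc030000001)))))) (.nd (.lf (nat_lit 0)) (.nd (.nd (.lf (nat_lit 0)) (.nd (.lf (nat_lit 0)) (.lf (nat_lit 0xada0000000000000000000000ada000000001)))) (.lf (nat_lit 0))))) (.nd (.nd (.nd (.nd (.nd (.nd (.lf (nat_lit 0)) (.lf (nat_lit 0xcdd00d1d000000000000000000000000000c1d00000000000001))) (.lf (nat_lit 0))) (.lf (nat_lit 0))) (.nd (.lf (nat_lit 0)) (.nd (.lf (nat_lit 0)) (.lf (nat_lit 0xc8f0000000000000000000000000000000001))))) (.lf (nat_lit 0))) (.nd (.lf (nat_lit 0)) (.nd (.lf (nat_lit 0)) (.nd (.lf (nat_lit 0)) (.nd (.lf (nat_lit 0)) (.lf (nat_lit 0xcdb000000000000000000000001))))))))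
def cwt104 : Tr ℕ := (.nd (.nd (.nd (.nd (.nd (.nd (.nd (.lf (nat_lit 0)) (.lf (nat_lit 0xcdb00000000000000000000000000001))) (.lf (nat_lit 0))) (.lf (nat_lit 0))) (.lf (nat_lit 0))) (.lf (nat_lit 0))) (.nd (.lf (nat_lit 0)) (.nd (.nd (.lf (nat_lit 0)) (.nd (.lf (nat_lit 0)) (.lf (nat_lit 0xc2100ca10000000000000000000000ca100aa100aa100000000000001)))) (.lf (nat_lit 0))))) (.nd (.nd (.nd (.nd (.nd (.nd (.lf (nat_lit 0)) (.lf (nat_lit 0xd0903000000000001))) (.lf (nat_lit 0))) (.lf (nat_lit 0))) (.lf (nat_lit 0))) (.lf (nat_lit 0))) (.nd (.lf (nat_lit 0)) (.nd (.lf (nat_lit 0)) (.nd (.lf (nat_lit 0)) (.nd (.lf (nat_lit 0xb0c00000000000000000000000000000000000000000000000000000000001)) (.lf (nat_lit 0))))))))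
def cwt105 : Tr ℕ := (.nd (.nd (.nd (.nd (.nd (.nd (.nd (.lf (nat_lit 0)) (.lf (nat_lit 0xcdb0000000000000000000000000000000001))) (.lf (nat_lit 0))) (.lf (nat_lit 0))) (.lf (nat_lit 0))) (.nd (.lf (nat_lit 0)) (.nd (.lf (nat_lit 0)) (.nd (.lf (nat_lit 0)) (.lf (nat_lit 0xadc030000001)))))) (.nd (.lf (nat_lit 0)) (.nd (.nd (.lf (nat_lit 0)) (.nd (.lf (nat_lit 0)) (.lf (nat_lit 0xada00ada000000000000000000000001)))) (.nd (.lf (nat_lit 0)) (.nd (.lf (nat_lit 0)) (.lf (nat_lit 0xb45000000000000000000000000000b4500b45000000000000000000000001))))))) (.nd (.nd (.nd (.lf (nat_lit 0)) (.nd (.lf (nat_lit 0)) (.nd (.lf (nat_lit 0)) (.lf (nat_lit 0xc8f000000000000000000000001))))) (.nd (.lf (nat_lit 0)) (.nd (.nd (.lf (nat_lit 0)) (.lf (nat_lit 0xd25000000000000000000000000000d25000000000000000000000001))) (.lf (nat_lit 0))))) (.nd (.lf (nat_lit 0)) (.nd (.nd (.lf (nat_lit 0)) (.nd (.lf (nat_lit 0)) (.lf (nat_lit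 0xb5f000000001)))) (.lf (nat_lit 0))))))
def cwt106 : Tr ℕ := (.lf (nat_lit 0))
def cwt107 : Tr ℕ := (.nd (.nd (.nd (.lf (nat_lit 0)) (.nd (.lf (nat_lit 0)) (.nd (.lf (nat_lit 0)) (.nd (.lf (nat_lit 0)) (.lf (nat_lit 0xadc03000000000000000000000000001)))))) (.lf (nat_lit 0))) (.nd (.nd (.nd (.lf (nat_lit 0)) (.nd (.lf (nat_lit 0)) (.nd (.lf (nat_lit 0)) (.lf (nat_lit 0xae700000000000000000000000000000000000000000001))))) (.nd (.nd (.lf (nat_lit 0)) (.nd (.lf (nat_lit 0)) (.lf (nat_lit 0xc9d00000000000001)))) (.nd (.nd (.lf (nat_lit 0)) (.lf (nat_lit 0xd25000000000000000000000000000000000000001))) (.lf (nat_lit 0))))) (.lf (nat_lit 0))))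
def cwt108 : Tr ℕ := (.nd (.nd (.nd (.nd (.lf (nat_lit 0)) (.nd (.lf (nat_lit 0)) (.nd (.lf (nat_lit 0xac7000000000000000000000000000000000000000000000000000001)) (.lf (nat_lit 0))))) (.lf (nat_lit 0))) (.nd (.lf (nat_lit 0)) (.nd (.lf (nat_lit 0)) (.nd (.nd (.lf (nat_lit 0)) (.lf (nat_lit 0xc500000000000000000000000000000000000000000000000001))) (.lf (nat_lit 0)))))) (.nd (.lf (nat_lit 0)) (.nd (.lf (nat_lit 0)) (.nd (.lf (nat_lit 0)) (.nd (.lf (nat_lit 0)) (.nd (.lf (nat_lit 0xb0c00000000000000000000000000000000000000000000000000000000001)) (.lf (nat_lit 0))))))))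
def cwt109 : Tr ℕ := (.nd (.nd (.nd (.lf (nat_lit 0)) (.nd (.lf (nat_lit 0)) (.nd (.lf (nat_lit 0)) (.nd (.lf (nat_lit 0)) (.lf (nat_lit 0xadc01000000000000000000000000000000000000000000000000000000001)))))) (.lf (nat_lit 0))) (.nd (.nd (.nd (.nd (.nd (.nd (.lf (nat_lit 0)) (.lf (nat_lit 0xcdd00d1d000000000000000000000000000c1d00000000000001))) (.lf (nat_lit 0))) (.lf (nat_lit 0))) (.lf (nat_lit 0))) (.nd (.nd (.lf (nat_lit 0)) (.nd (.lf (nat_lit 0)) (.lf (nat_lit 0xc9d00000000000001)))) (.lf (nat_lit 0)))) (.lf (nat_lit 0))))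
def cwt110 : Tr ℕ := (.nd (.nd (.nd (.lf (nat_lit 0)) (.nd (.lf (nat_lit 0)) (.nd (.nd (.lf (nat_lit 0)) (.lf (nat_lit 0xc9c00000000000001))) (.lf (nat_lit 0))))) (.lf (nat_lit 0))) (.nd (.nd (.nd (.nd (.nd (.nd (.lf (nat_lit 0)) (.lf (nat_lit 0xd09030000000000000000000000000000000000001))) (.lf (nat_lit 0))) (.lf (nat_lit 0))) (.nd (.lf (nat_lit 0)) (.nd (.lf (nat_lit 0)) (.lf (nat_lit 0xcd70000000000000000001))))) (.nd (.lf (nat_lit 0)) (.nd (.lf (nat_lit 0)) (.nd (.lf (nat_lit 0)) (.lf (nat_lit 0xd1d0000000000000000000000000000000001)))))) (.nd (.nd (.lf (nat_lit 0)) (.nd (.lf (nat_lit 0)) (.nd (.lf (nat_lit 0)) (.lf (nat_lit 0xccf0000000000000000000000000000000000000000000000001))))) (.nd (.nd (.lf (nat_lit 0)) (.nd (.lf (nat_lit 0)) (.lf (nat_lit 0xcc70000000000000000000000000000000001)))) (.lf (nat_lit 0))))))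
def cwt111 : Tr ℕ := (.nd (.nd (.nd (.lf (nat_lit 0)) (.nd (.lf (nat_lit 0)) (.nd (.lf (nat_lit 0)) (.nd (.lf (nat_lit 0)) (.lf (nat_lit 0xcca00aca000000000000000000000000000cca00cca00d0a000000001)))))) (.lf (nat_lit 0))) (.nd (.nd (.nd (.nd (.nd (.nd (.lf (nat_lit 0)) (.lf (nat_lit 0xb450000000000000000000000000000000000000000000000001))) (.lf (nat_lit 0))) (.lf (nat_lit 0))) (.lf (nat_lit 0))) (.lf (nat_lit 0))) (.nd (.nd (.lf (nat_lit 0)) (.nd (.lf (nat_lit 0)) (.nd (.lf (nat_lit 0)) (.lf (nat_lit 0xb96000000000000000000000000000000000000001))))) (.nd (.nd (.lf (nat_lit 0)) (.nd (.lf (nat_lit 0)) (.lf (nat_lit 0xcc700000000000000000000000000000000000000000001)))) (.lf (nat_lit 0))))))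
def cwt112 : Tr ℕ := (.nd (.nd (.nd (.lf (nat_lit 0)) (.nd (.lf (nat_lit 0)) (.nd (.lf (nat_lit 0)) (.nd (.lf (nat_lit 0)) (.lf (nat_lit 0xadc0300000000000000000000000000000000000000000000001)))))) (.nd (.lf (nat_lit 0)) (.nd (.nd (.lf (nat_lit 0)) (.nd (.lf (nat_lit 0)) (.lf (nat_lit 0xca100aa100aa1000000001)))) (.lf (nat_lit 0))))) (.nd (.nd (.lf (nat_lit 0)) (.nd (.nd (.nd (.lf (nat_lit 0)) (.lf (nat_lit 0xb41000000001))) (.lf (nat_lit 0))) (.lf (nat_lit 0)))) (.lf (nat_lit 0))))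
def cwt113 : Tr ℕ := (.nd (.nd (.nd (.lf (nat_lit 0)) (.nd (.lf (nat_lit 0)) (.nd (.lf (nat_lit 0)) (.nd (.lf (nat_lit 0)) (.lf (nat_lit 0xadc010000000000000000000000000000000000000000000000000001)))))) (.nd (.lf (nat_lit 0)) (.nd (.nd (.lf (nat_lit 0)) (.nd (.lf (nat_lit 0)) (.lf (nat_lit 0xada00ada000000001)))) (.lf (nat_lit 0))))) (.nd (.nd (.nd (.nd (.nd (.nd (.lf (nat_lit 0)) (.lf (nat_lit 0xb45000000001))) (.lf (nat_lit 0))) (.lf (nat_lit 0))) (.lf (nat_lit 0))) (.nd (.lf (nat_lit 0)) (.nd (.nd (.lf (nat_lit 0)) (.lf (nat_lit 0xd25000000000000000000000000000d25000000000000000000000001))) (.lf (nat_lit 0))))) (.nd (.nd (.lf (nat_lit 0)) (.nd (.lf (nat_lit 0)) (.nd (.lf (nat_lit 0)) (.lf (nat_lit 0xbd7000000000000000000000000000000000000000000000000000001))))) (.nd (.nd (.nd (.lf (nat_lit 0)) (.lf (nat_lit 0xc8c000000000000000000000000000000000000001))) (.lf (nat_lit 0))) (.lf (nat_lit 0))))))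
def cwt114 : Tr ℕ := (.nd (.nd (.lf (nat_lit 0)) (.nd (.nd (.lf (nat_lit 0)) (.nd (.lf (nat_lit 0)) (.nd (.lf (nat_lit 0xcca000000000000000000000000000000000000001)) (.lf (nat_lit 0))))) (.lf (nat_lit 0)))) (.nd (.nd (.nd (.nd (.nd (.nd (.lf (nat_lit 0)) (.lf (nat_lit 0xb4500000000000000000000000000000000000000000001))) (.lf (nat_lit 0))) (.lf (nat_lit 0))) (.lf (nat_lit 0))) (.nd (.nd (.nd (.lf (nat_lit 0)) (.lf (nat_lit 0xb41000000001))) (.lf (nat_lit 0))) (.lf (nat_lit 0)))) (.nd (.nd (.lf (nat_lit 0)) (.nd (.lf (nat_lit 0)) (.nd (.lf (nat_lit 0)) (.lf (nat_lit 0xb960000000000000000000000000000000001))))) (.nd (.nd (.nd (.lf (nat_lit 0)) (.lf (nat_lit 0xc8c00000000000001))) (.lf (nat_lit 0))) (.nd (.lf (nat_lit 0)) (.nd (.lf (nat_lit 0xca600000000000000000000000000000000000000000000000000000000001)) (.lf (nat_lit 0))))))))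
def cwt115 : Tr ℕ := (.nd (.nd (.nd (.lf (nat_lit 0)) (.nd (.lf (nat_lit 0)) (.nd (.nd (.lf (nat_lit 0)) (.lf (nat_lit 0xbca00cca00cca0000000000000000000000d0a00cca00b0a00000000000001))) (.nd (.lf (nat_lit 0)) (.lf (nat_lit 0xadc010000000000000000000000000000000000000000000000000001)))))) (.nd (.nd (.lf (nat_lit 0)) (.nd (.lf (nat_lit 0)) (.nd (.lf (nat_lit 0xcca00000000000001)) (.lf (nat_lit 0))))) (.lf (nat_lit 0)))) (.nd (.nd (.nd (.nd (.nd (.nd (.lf (nat_lit 0)) (.lf (nat_lit 0xb450000000000000000000000000000000000000000000000001))) (.lf (nat_lit 0))) (.lf (nat_lit 0))) (.lf (nat_lit 0))) (.nd (.lf (nat_lit 0)) (.nd (.nd (.lf (nat_lit 0)) (.lf (nat_lit 0xd25000000000000000000000000000000000000001))) (.lf (nat_lit 0))))) (.nd (.lf (nat_lit 0)) (.nd (.nd (.lf (nat_lit 0)) (.nd (.lf (nat_lit 0)) (.lf (nat_lit 0xb5f0000000d1f0000000000000000000000000000000001)))) (.nd (.lf (nat_lit 0)) (.nd (.lf (nat_lit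 0)) (.lf (nat_lit 0xcdb00000000000000000000000000001))))))))
def cwt116 : Tr ℕ := (.nd (.nd (.nd (.nd (.lf (nat_lit 0)) (.nd (.lf (nat_lit 0)) (.nd (.lf (nat_lit 0xac7000000000000000000000000000000000000000000000000000001)) (.lf (nat_lit 0))))) (.lf (nat_lit 0))) (.nd (.nd (.lf (nat_lit 0)) (.nd (.lf (nat_lit 0)) (.nd (.lf (nat_lit 0xcca000000000000000000000000000000000000001)) (.lf (nat_lit 0))))) (.nd (.nd (.lf (nat_lit 0)) (.nd (.lf (nat_lit 0)) (.lf (nat_lit 0xd230100000000000000000000000000000000000d230100000000000000001)))) (.lf (nat_lit 0))))) (.nd (.lf (nat_lit 0)) (.nd (.lf (nat_lit 0)) (.nd (.nd (.lf (nat_lit 0)) (.nd (.lf (nat_lit 0)) (.lf (nat_lit 0xcc700cc700cc700bc7000000001)))) (.nd (.lf (nat_lit 0)) (.nd (.lf (nat_lit 0xca600000000000000000000000000000000000000000000000000000000001)) (.lf (nat_lit 0xcdb0000000000000000001))))))))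
def cwt117 : Tr ℕ := (.nd (.nd (.nd (.nd (.nd (.nd (.nd (.lf (nat_lit 0)) (.lf (nat_lit 0xcdb00000000000000000000000000001))) (.lf (nat_lit 0))) (.lf (nat_lit 0))) (.lf (nat_lit 0))) (.nd (.lf (nat_lit 0)) (.nd (.nd (.lf (nat_lit 0)) (.lf (nat_lit 0xb0a00cca00cca0000000b0a0000000b0a00cca00d0a0000000000000000001))) (.lf (nat_lit 0))))) (.nd (.nd (.lf (nat_lit 0)) (.nd (.lf (nat_lit 0)) (.nd (.lf (nat_lit 0xcca00000000000001)) (.lf (nat_lit 0))))) (.nd (.nd (.lf (nat_lit 0)) (.nd (.lf (nat_lit 0)) (.lf (nat_lit 0xd2303000000000000000d2303d23030000001)))) (.lf (nat_lit 0))))) (.nd (.nd (.nd (.nd (.nd (.nd (.lf (nat_lit 0)) (.lf (nat_lit 0xb45000000001))) (.lf (nat_lit 0))) (.lf (nat_lit 0))) (.lf (nat_lit 0))) (.nd (.nd (.nd (.lf (nat_lit 0)) (.lf (nat_lit 0xc4500000000000000000000000000000000000000000000000000000000001))) (.lf (nat_lit 0))) (.lf (nat_lit 0)))) (.nd (.lf (nat_lit 0)) (.nd (.nd (.lf (nat_lit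 0)) (.nd (.lf (nat_lit 0)) (.lf (nat_lit 0xcc700cc700cc700bc700000000000000000000000000001)))) (.lf (nat_lit 0))))))
def cwt118 : Tr ℕ := (.nd (.nd (.nd (.nd (.nd (.nd (.nd (.lf (nat_lit 0)) (.lf (nat_lit 0xcdb000000001))) (.lf (nat_lit 0))) (.lf (nat_lit 0))) (.lf (nat_lit 0))) (.lf (nat_lit 0))) (.nd (.nd (.lf (nat_lit 0)) (.nd (.lf (nat_lit 0)) (.nd (.lf (nat_lit 0xcca00000000000001)) (.lf (nat_lit 0))))) (.lf (nat_lit 0)))) (.nd (.nd (.nd (.nd (.nd (.nd (.lf (nat_lit 0)) (.lf (nat_lit 0xb450000000000000000001))) (.lf (nat_lit 0))) (.lf (nat_lit 0))) (.lf (nat_lit 0))) (.lf (nat_lit 0))) (.nd (.lf (nat_lit 0)) (.nd (.nd (.lf (nat_lit 0)) (.nd (.lf (nat_lit 0)) (.lf (nat_lit 0xc9d00add000000000000000000000000000add0000000000000000001)))) (.nd (.lf (nat_lit 0)) (.nd (.lf (nat_lit 0xb260000000000000000000000000000000001)) (.lf (nat_lit 0))))))))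
def cwt119 : Tr ℕ := (.nd (.nd (.lf (nat_lit 0)) (.nd (.nd (.lf (nat_lit 0)) (.nd (.lf (nat_lit 0)) (.nd (.lf (nat_lit 0xcca000000000000000000000000000000000000001)) (.lf (nat_lit 0))))) (.lf (nat_lit 0)))) (.nd (.nd (.lf (nat_lit 0)) (.nd (.nd (.nd (.lf (nat_lit 0)) (.lf (nat_lit 0xc450000000000000000000000000000000000000000000000000000000000000001))) (.lf (nat_lit 0))) (.lf (nat_lit 0)))) (.lf (nat_lit 0))))
def cwt120 : Tr ℕ := (.nd (.nd (.lf (nat_lit 0)) (.nd (.nd (.lf (nat_lit 0)) (.nd (.lf (nat_lit 0)) (.nd (.lf (nat_lit 0xcca00000000000001)) (.lf (nat_lit 0))))) (.lf (nat_lit 0)))) (.nd (.lf (nat_lit 0)) (.nd (.lf (nat_lit 0)) (.nd (.nd (.lf (nat_lit 0)) (.nd (.lf (nat_lit 0)) (.lf (nat_lit 0xadd0000000000000000000000000000000001)))) (.nd (.lf (nat_lit 0)) (.nd (.lf (nat_lit 0xb26000000000000000000000001)) (.lf (nat_lit 0))))))))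
def cwt121 : Tr ℕ := (.nd (.nd (.nd (.lf (nat_lit 0)) (.nd (.lf (nat_lit 0)) (.nd (.lf (nat_lit 0)) (.nd (.lf (nat_lit 0)) (.lf (nat_lit 0xd0a0000000000000000000000000000000000000000000000001)))))) (.nd (.nd (.nd (.nd (.nd (.lf (nat_lit 0)) (.lf (nat_lit 0xb4c00b4c00000000000000000000000000000000000000000001))) (.lf (nat_lit 0))) (.lf (nat_lit 0))) (.nd (.lf (nat_lit 0)) (.nd (.lf (nat_lit 0xcca000000000000000000000000000000000000001)) (.lf (nat_lit 0xa9a000000000000000000000000000000000000000000c1a000000001))))) (.lf (nat_lit 0)))) (.nd (.nd (.lf (nat_lit 0)) (.nd (.lf (nat_lit 0)) (.nd (.lf (nat_lit 0)) (.nd (.lf (nat_lit 0)) (.lf (nat_lit 0xc4900d090000000d09000000000000000000000000000000000000001)))))) (.lf (nat_lit 0))))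
def cwt122 : Tr ℕ := (.nd (.lf (nat_lit 0)) (.nd (.nd (.nd (.nd (.nd (.nd (.lf (nat_lit 0)) (.lf (nat_lit 0xca70000000000000000000000000000000000000000000000001))) (.lf (nat_lit 0))) (.lf (nat_lit 0))) (.lf (nat_lit 0))) (.lf (nat_lit 0))) (.nd (.lf (nat_lit 0)) (.nd (.nd (.lf (nat_lit 0)) (.nd (.lf (nat_lit 0)) (.lf (nat_lit 0xcc700cc700cc700000000000000000cc700cc700cc700bc700000000000001)))) (.lf (nat_lit 0))))))
def cwt123 : Tr ℕ := (.nd (.nd (.nd (.lf (nat_lit 0)) (.nd (.nd (.lf (nat_lit 0)) (.nd (.lf (nat_lit 0)) (.lf (nat_lit 0xc6700b67000000001)))) (.nd (.lf (nat_lit 0)) (.nd (.lf (nat_lit 0)) (.lf (nat_lit 0xadc05adc05000000000001)))))) (.nd (.lf (nat_lit 0)) (.nd (.nd (.lf (nat_lit 0)) (.nd (.lf (nat_lit 0)) (.lf (nat_lit 0xc43010000001)))) (.lf (nat_lit 0))))) (.nd (.lf (nat_lit 0)) (.nd (.lf (nat_lit 0)) (.nd (.nd (.nd (.lf (nat_lit 0)) (.lf (nat_lit 0xc8c00000000000001))) (.nd (.lf (nat_lit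 0)) (.lf (nat_lit 0xcc700cc700cc700000000000000000cc700cc700cc700bc700000000000001)))) (.lf (nat_lit 0))))))
def cwt124 : Tr ℕ := (.nd (.nd (.nd (.lf (nat_lit 0)) (.nd (.lf (nat_lit 0)) (.nd (.lf (nat_lit 0)) (.nd (.lf (nat_lit 0)) (.lf (nat_lit 0xadc0100000adc0100000000000000000000000000000000000000000000001)))))) (.nd (.nd (.lf (nat_lit 0)) (.nd (.lf (nat_lit 0)) (.nd (.lf (nat_lit 0xc8900000000000000000000000000000000000000000001)) (.lf (nat_lit 0))))) (.nd (.nd (.lf (nat_lit 0)) (.nd (.lf (nat_lit 0)) (.lf (nat_lit 0xc430000000c4300c43000000000000000000000001)))) (.lf (nat_lit 0))))) (.nd (.lf (nat_lit 0)) (.nd (.lf (nat_lit 0)) (.nd (.nd (.nd (.lf (nat_lit 0)) (.lf (nat_lit 0xc8c000000000000000000000000000000000000001))) (.nd (.lf (nat_lit 0xac7000000000000000000000000000000000000000000000000000001)) (.lf (nat_lit 0)))) (.lf (nat_lit 0))))))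
def cwt125 : Tr ℕ := (.nd (.nd (.nd (.nd (.lf (nat_lit 0)) (.nd (.lf (nat_lit 0)) (.nd (.lf (nat_lit 0)) (.lf (nat_lit 0xc93000000000000000000000000000000000000000000000000000001))))) (.nd (.lf (nat_lit 0)) (.nd (.lf (nat_lit 0)) (.nd (.lf (nat_lit 0x8ab008b8018b3028ad038a9048b005d0a0600000000000000000000000000000000000000000000000000000000000000000000000000000000000000000000000000000000000000000000000000000000000000000000000000000000000000000000000000000000000000000000000000000000000000000000000000000000000000000000000000000000000000000000000000000000000000000000000000000000000000000000000000007)) (.lf (nat_lit 0xcca0000000cca000000000000d0a000000000000d0a00d0a00d0a000000001)))))) (.nd (.nd (.lf (nat_lit 0)) (.nd (.lf (nat_lit 0)) (.nd (.lf (nat_lit 0xc8900000000000000000000000000000000000000000001)) (.lf (nat_lit 0))))) (.nd (.nd (.lf (nat_lit 0)) (.nd (.lf (nat_lit 0)) (.lf (nat_lit 0xc430000000000000000001))))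 (.lf (nat_lit 0))))) (.lf (nat_lit 0)))
def cwt126 : Tr ℕ := (.nd (.nd (.nd (.nd (.lf (nat_lit 0)) (.nd (.lf (nat_lit 0)) (.nd (.lf (nat_lit 0)) (.lf (nat_lit 0xc210000000000000000001))))) (.nd (.lf (nat_lit 0)) (.nd (.lf (nat_lit 0)) (.nd (.lf (nat_lit 0xc8a06000000000000000000000000000000c8a068ab008b8018b3028ad038a9048b005d0a0600000000000000000000000000000000000000000000000000000000000000000000000000000000000000000000000000000000000000000000000000000000000000000000000000000000000000000000000000000000000000000000000000000000000000000000000000000000000000000000000000000000000000000000000000000000000000000000000000000000000000000000000000007)) (.lf (nat_lit 0xadc0100000000000000000000000000000001)))))) (.lf (nat_lit 0))) (.nd (.nd (.nd (.nd (.nd (.nd (.lf (nat_lit 0)) (.lf (nat_lit 0xca70000000000000000000000000000000000000000000000001))) (.lf (nat_lit 0))) (.lf (nat_lit 0))) (.lf (nat_lit 0))) (.nd (.lf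 (nat_lit 0)) (.nd (.lf (nat_lit 0)) (.nd (.lf (nat_lit 0)) (.lf (nat_lit 0xc49000000000000000000000000000000000000001)))))) (.nd (.nd (.lf (nat_lit 0)) (.nd (.lf (nat_lit 0)) (.nd (.lf (nat_lit 0)) (.lf (nat_lit 0xada000000001))))) (.nd (.lf (nat_lit 0)) (.nd (.lf (nat_lit 0)) (.nd (.lf (nat_lit 0xc93000000000000000000000000000cd30000000000000000000000000000000001)) (.lf (nat_lit 0))))))))
def cwt127 : Tr ℕ := (.nd (.nd (.nd (.lf (nat_lit 0)) (.nd (.lf (nat_lit 0)) (.nd (.lf (nat_lit 0)) (.nd (.lf (nat_lit 0)) (.lf (nat_lit 0xadc0100000000000000000000000000000001)))))) (.nd (.lf (nat_lit 0)) (.nd (.nd (.lf (nat_lit 0)) (.nd (.lf (nat_lit 0)) (.lf (nat_lit 0xc430000000000000000001)))) (.lf (nat_lit 0))))) (.lf (nat_lit 0)))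
def cwT : Tr ℕ := (.nd (.nd (.nd (.nd (.nd (.nd (.nd cwt0 cwt64) (.nd cwt32 cwt96)) (.nd (.nd cwt16 cwt80) (.nd cwt48 cwt112))) (.nd (.nd (.nd cwt8 cwt72) (.nd cwt40 cwt104)) (.nd (.nd cwt24 cwt88) (.nd cwt56 cwt120)))) (.nd (.nd (.nd (.nd cwt4 cwt68) (.nd cwt36 cwt100)) (.nd (.nd cwt20 cwt84) (.nd cwt52 cwt116))) (.nd (.nd (.nd cwt12 cwt76) (.nd cwt44 cwt108)) (.nd (.nd cwt28 cwt92) (.nd cwt60 cwt124))))) (.nd (.nd (.nd (.nd (.nd cwt2 cwt66) (.nd cwt34 cwt98)) (.nd (.nd cwt18 cwt82) (.nd cwt50 cwt114))) (.nd (.nd (.nd cwt10 cwt74) (.nd cwt42 cwt106)) (.nd (.nd cwt26 cwt90) (.nd cwt58 cwt122)))) (.nd (.nd (.nd (.nd cwt6 cwt70) (.nd cwt38 cwt102)) (.nd (.nd cwt22 cwt86) (.nd cwt54 cwt118))) (.nd (.nd (.nd cwt14 cwt78) (.nd cwt46 cwt110)) (.nd (.nd cwt30 cwt94) (.nd cwt62 cwt126)))))) (.nd (.nd (.nd (.nd (.nd (.nd cwt1 cwt65) (.nd cwt33 cwt97)) (.nd (.nd cwt17 cwt81) (.nd cwt49 cwt113))) (.nd (.nd (.nd cwt9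 cwt73) (.nd cwt41 cwt105)) (.nd (.nd cwt25 cwt89) (.nd cwt57 cwt121)))) (.nd (.nd (.nd (.nd cwt5 cwt69) (.nd cwt37 cwt101)) (.nd (.nd cwt21 cwt85) (.nd cwt53 cwt117))) (.nd (.nd (.nd cwt13 cwt77) (.nd cwt45 cwt109)) (.nd (.nd cwt29 cwt93) (.nd cwt61 cwt125))))) (.nd (.nd (.nd (.nd (.nd cwt3 cwt67) (.nd cwt35 cwt99)) (.nd (.nd cwt19 cwt83) (.nd cwt51 cwt115))) (.nd (.nd (.nd cwt11 cwt75) (.nd cwt43 cwt107)) (.nd (.nd cwt27 cwt91) (.nd cwt59 cwt123)))) (.nd (.nd (.nd (.nd cwt7 cwt71) (.nd cwt39 cwt103)) (.nd (.nd cwt23 cwt87) (.nd cwt55 cwt119))) (.nd (.nd (.nd cwt15 cwt79) (.nd cwt47 cwt111)) (.nd (.nd cwt31 cwt95) (.nd cwt63 cwt127)))))))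

end Pool.Agent.MQ.F5
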