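import Pool.Agent.Lib.MP_c86c76_al.Q.F5.ktF0

/-!
Certificate data.
-/

set_option autoImplicit false
set_option maxRecDepth 100000

noncomputable section

namespace Pool.Agent.MQ.F5

open Pool.Agent.MC

def ktT : Tr ℕ := (.nd (.nd (.nd (.nd ktt0 ktt8) (.nd ktt4 ktt12)) (.nd (.nd ktt2 ktt10) (.nd ktt6 ktt14))) (.nd (.nd (.nd ktt1 ktt9) (.nd ktt5 ktt13)) (.nd (.nd ktt3 ktt11) (.nd ktt7 ktt15))))

end Pool.Agent.MQ.F5
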