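import Pool.Agent.Lib.MP_c86c76_al.Q.F5.xbF0
import Pool.Agent.Lib.MP_c86c76_al.Q.F5.xbF1

/-!
Certificate data.
-/

set_option autoImplicit false
set_option maxRecDepth 100000

noncomputable section

namespace Pool.Agent.MQ.F5

open Pool.Agent.MC

def xbT : Tr ℕ := (.nd (.nd (.nd (.nd (.nd xbt0 xbt16) (.nd xbt8 xbt24)) (.nd (.nd xbt4 xbt20) (.nd xbt12 xbt28))) (.nd (.nd (.nd xbt2 xbt18) (.nd xbt10 xbt26)) (.nd (.nd xbt6 xbt22) (.nd xbt14 xbt30)))) (.nd (.nd (.nd (.nd xbt1 xbt17) (.nd xbt9 xbt25)) (.nd (.nd xbt5 xbt21) (.nd xbt13 xbt29))) (.nd (.nd (.nd xbt3 xbt19) (.nd xbt11 xbt27)) (.nd (.nd xbt7 xbt23) (.nd xbt15 xbt31)))))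

end Pool.Agent.MQ.F5
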