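import Pool.Agent.Lib.MP_c86c76_al.Q.F5.Grp
import Pool.Agent.Lib.MP_c86c76_al.Q.F5.Wr
import Pool.Agent.Lib.MP_c86c76_al.Q.F5.Am
import Pool.Agent.Lib.MP_c86c76_al.Q.F5.Blk
import Pool.Agent.Lib.MP_c86c76_al.Q.F5.Wf
import Pool.Agent.Lib.MP_c86c76_al.Q.F5.Cw
import Pool.Agent.Lib.MP_c86c76_al.Q.F5.Kt
import Pool.Agent.Lib.MP_c86c76_al.Q.F5.Xb
import Pool.Agent.Lib.MP_c86c76_al.Q.F5.Ml
import Pool.Agent.Lib.MP_c86c76_al.Q.F5.Sq

/-!
Certificate data.
-/

set_option autoImplicit false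
set_option maxRecDepth 100000

noncomputable section

namespace Pool.Agent.MQ.F5

open Pool.Agent.MC

def dat : Dat where
  nX := 10
  rl := fun j => bits rlN (Nat.mul 128 j) 0xffffffffffffffffffffffffffffffff
  nU := 384
  wh := whT.get
  wi := wiT.get
  nK := 16
  mul := fun a b => mu1 (Nat.add (Nat.mul 16 a) b)
  inv := inv
  nC := 16
  mc := fun a b => mu1 (Nat.add (Nat.mul 16 a) b)
  ic := inv
  kc := fun c => c
  ng := 1
  gs := fun _ => nat_lit 0x10
  wt := fun _ => 1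
  sy := fun _ => 0
  nT := 24
  sg := sg
  et := et
  ht := ht
  nM := 454
  me := me
  mp := mp
  mu := mu
  mx := mx
  wr := wr
  nB := 15
  wb := wbT.get
  ob := ob
  pn := pn
  pt := pt
  pa := pa
  dl := dl
  wp := wp
  ni := ni
  it := fun b e => it1 (Nat.add (Nat.mul 1 b) e)
  nb := fun b e x => fc 0 (Nat.add (Nat.mul 1 b) e) fun z => nb1 z x
  wn := fun b e x => fc 0 (Nat.add (Nat.mul 1 b) e) fun z => vl (wnT.get z) x
  am := am
  wa := fun u j => vl (waT.get u) j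
  nD := 113
  vw := vwT.get
  bo := bo
  bk := bk
  ip := ip
  fa := fa
  wf := fun g l => vl (wfT.get g) l
  cw := fun g s => vl (cwT.get g) s
  tz := tz
  tr := tr
  nl := nl
  ko := ko
  kt := ktT.get
  sm := sm
  tp := tp
  tq := tq
  xb := xbT.get
  ml := fun A e => Nat.shiftRight (mlT.get A) (Nat.mul 3072 e)
  mr := fun A e => Nat.shiftRight (mrT.get A) (Nat.mul 3072 e)
  nY := 6
  db := db
  tt := fun y x a => tt1 (Nat.add (Nat.mul 4 (Nat.add (Nat.mul 16 y) x)) a)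
  ww := fun y k a a' => ww1 (Nat.add (Nat.mul 4 (Nat.add (Nat.mul 4 (Nat.add (Nat.mul 16 y) k)) a)) a')
  nG := nG
  dr := fun y b => dr1 (Nat.add (Nat.mul 64 y) b)
  LL := fun y a => fc [] (Nat.add (Nat.mul 4 y) a) llT.get
  sh := 34
  tau := 5866877800716575
  hh := 34

end Pool.Agent.MQ.F5
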