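import Pool.Agent.Lib.MP_c86c76_al.Q.F5.Rf
import Pool.Agent.Lib.MP_c86c76_al.GL.FiveB

/-!
The fixed point property in genus five with one boundary component.
-/

set_option autoImplicit false

namespace Pool.Agent.MT

theorem baseB : BaseB := baseB_of MQ.F5.rf51

theorem fhFive : FH (St 5) := fhB baseB

end Pool.Agent.MT
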