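import Pool.Agent.Lib.MP_c86c76_al.Q.F5.Dat

/-!
Kernel checks.
-/

set_option autoImplicit false
set_option maxRecDepth 100000

namespace Pool.Agent.MQ.F5

open Pool.Agent.MC

theorem ka0 : allIn 0 16 (fun a => allLT 16 (dat.kOk a)) = true := by decide +kernel

theorem kb0 : allIn 0 16 (fun a => allLT 16 (dat.cOk a)) = true := by decide +kernel

theorem kc0 : allIn 0 4 (fun a => allLT 24 (dat.etOk a)) = true := by decide +kernel

theorem kc4 : allIn 4 4 (fun a => allLT 24 (dat.etOk a)) = true := by decide +kernel

theorem kc8 : allIn 8 4 (fun a => allLT 24 (dat.etOk a)) = true := by decide +kernel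

theorem kc12 : allIn 12 4 (fun a => allLT 24 (dat.etOk a)) = true := by decide +kernel

theorem kc16 : allIn 16 4 (fun a => allLT 24 (dat.etOk a)) = true := by decide +kernel

theorem kc20 : allIn 20 4 (fun a => allLT 24 (dat.etOk a)) = true := by decide +kernel

theorem kc24 : allIn 24 4 (fun a => allLT 24 (dat.etOk a)) = true := by decide +kernel

theorem kc28 : allIn 28 4 (fun a => allLT 24 (dat.etOk a)) = true := by decide +kernel

theorem kc32 : allIn 32 4 (fun a => allLT 24 (dat.etOk a)) = true := by decide +kernel

theorem kc36 : allIn 36 4 (fun a => allLT 24 (dat.etOk a)) = true := by decide +kernel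

theorem kc40 : allIn 40 4 (fun a => allLT 24 (dat.etOk a)) = true := by decide +kernel

theorem kc44 : allIn 44 4 (fun a => allLT 24 (dat.etOk a)) = true := by decide +kernel

theorem kc48 : allIn 48 4 (fun a => allLT 24 (dat.etOk a)) = true := by decide +kernel

theorem kc52 : allIn 52 4 (fun a => allLT 24 (dat.etOk a)) = true := by decide +kernel

theorem kc56 : allIn 56 4 (fun a => allLT 24 (dat.etOk a)) = true := by decide +kernel

theorem kc60 : allIn 60 4 (fun a => allLT 24 (dat.etOk a)) = true := by decide +kernel


end Pool.Agent.MQ.F5
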