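import Pool.Agent.Lib.MP_c86c76_al.Q.F5.Dat

/-!
Kernel checks.
-/

set_option autoImplicit false
set_option maxRecDepth 100000

namespace Pool.Agent.MQ.F5

open Pool.Agent.MC

theorem kc64 : allIn 64 4 (fun a => allLT 24 (dat.etOk a)) = true := by decide +kernel

theorem kc68 : allIn 68 4 (fun a => allLT 24 (dat.etOk a)) = true := by decide +kernel

theorem kc72 : allIn 72 4 (fun a => allLT 24 (dat.etOk a)) = true := by decide +kernel

theorem kc76 : allIn 76 4 (fun a => allLT 24 (dat.etOk a)) = true := by decide +kernel

theorem kc80 : allIn 80 4 (fun a => allLT 24 (dat.etOk a)) = true := by decide +kernel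

theorem kc84 : allIn 84 4 (fun a => allLT 24 (dat.etOk a)) = true := by decide +kernel

theorem kc88 : allIn 88 4 (fun a => allLT 24 (dat.etOk a)) = true := by decide +kernel

theorem kc92 : allIn 92 4 (fun a => allLT 24 (dat.etOk a)) = true := by decide +kernel

theorem kc96 : allIn 96 4 (fun a => allLT 24 (dat.etOk a)) = true := by decide +kernel

theorem kc100 : allIn 100 4 (fun a => allLT 24 (dat.etOk a)) = true := by decide +kernel

theorem kc104 : allIn 104 4 (fun a => allLT 24 (dat.etOk a)) = true := by decide +kernel

theorem kc108 : allIn 108 4 (fun a => allLT 24 (dat.etOk a)) = true := by decide +kernel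

theorem kc112 : allIn 112 4 (fun a => allLT 24 (dat.etOk a)) = true := by decide +kernel

theorem kc116 : allIn 116 4 (fun a => allLT 24 (dat.etOk a)) = true := by decide +kernel

theorem kc120 : allIn 120 4 (fun a => allLT 24 (dat.etOk a)) = true := by decide +kernel

theorem kc124 : allIn 124 4 (fun a => allLT 24 (dat.etOk a)) = true := by decide +kernel

theorem kc128 : allIn 128 4 (fun a => allLT 24 (dat.etOk a)) = true := by decide +kernel

theorem kc132 : allIn 132 4 (fun a => allLT 24 (dat.etOk a)) = true := by decide +kernel


end Pool.Agent.MQ.F5
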