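import Pool.Agent.Lib.MP_c86c76_al.Q.F5.Dat

/-!
Kernel checks.
-/

set_option autoImplicit false
set_option maxRecDepth 100000

namespace Pool.Agent.MQ.F5

open Pool.Agent.MC

theorem ki5764 : allIn 5764 91 (dat.pG dB gB) = true := by decide +kernel

theorem ki5855 : allIn 5855 73 (dat.pG dB gB) = true := by decide +kernel

theorem ki5928 : allIn 5928 67 (dat.pG dB gB) = true := by decide +kernel

theorem ki5995 : allIn 5995 83 (dat.pG dB gB) = true := by decide +kernel

theorem ki6078 : allIn 6078 81 (dat.pG dB gB) = true := by decide +kernel

theorem ki6159 : allIn 6159 89 (dat.pG dB gB) = true := by decide +kernel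

theorem ki6248 : allIn 6248 94 (dat.pG dB gB) = true := by decide +kernel

theorem ki6342 : allIn 6342 90 (dat.pG dB gB) = true := by decide +kernel

theorem ki6432 : allIn 6432 133 (dat.pG dB gB) = true := by decide +kernel

theorem ki6565 : allIn 6565 135 (dat.pG dB gB) = true := by decide +kernel

theorem ki6700 : allIn 6700 110 (dat.pG dB gB) = true := by decide +kernel

theorem ki6810 : allIn 6810 72 (dat.pG dB gB) = true := by decide +kernel

theorem ki6882 : allIn 6882 71 (dat.pG dB gB) = true := by decide +kernel

theorem ki6953 : allIn 6953 68 (dat.pG dB gB) = true := by decide +kernel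

theorem ki7021 : allIn 7021 82 (dat.pG dB gB) = true := by decide +kernel

theorem ki7103 : allIn 7103 65 (dat.pG dB gB) = true := by decide +kernel


end Pool.Agent.MQ.F5
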