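import Pool.Agent.Lib.MP_c86c76_al.Q.F5.Dat

/-!
Kernel checks.
-/

set_option autoImplicit false
set_option maxRecDepth 100000

namespace Pool.Agent.MQ.F5

open Pool.Agent.MC

theorem ki7168 : allIn 7168 66 (dat.pG dB gB) = true := by decide +kernel

theorem ki7234 : allIn 7234 81 (dat.pG dB gB) = true := by decide +kernel

theorem ki7315 : allIn 7315 63 (dat.pG dB gB) = true := by decide +kernel

theorem ki7378 : allIn 7378 54 (dat.pG dB gB) = true := by decide +kernel

theorem ki7432 : allIn 7432 89 (dat.pG dB gB) = true := by decide +kernel

theorem ki7521 : allIn 7521 78 (dat.pG dB gB) = true := by decide +kernel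

theorem ki7599 : allIn 7599 79 (dat.pG dB gB) = true := by decide +kernel

theorem ki7678 : allIn 7678 66 (dat.pG dB gB) = true := by decide +kernel

theorem ki7744 : allIn 7744 56 (dat.pG dB gB) = true := by decide +kernel

theorem ki7800 : allIn 7800 69 (dat.pG dB gB) = true := by decide +kernel

theorem ki7869 : allIn 7869 64 (dat.pG dB gB) = true := by decide +kernel

theorem ki7933 : allIn 7933 51 (dat.pG dB gB) = true := by decide +kernel

theorem ki7984 : allIn 7984 66 (dat.pG dB gB) = true := by decide +kernel

theorem ki8050 : allIn 8050 67 (dat.pG dB gB) = true := by decide +kernel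

theorem ki8117 : allIn 8117 85 (dat.pG dB gB) = true := by decide +kernel

theorem ki8202 : allIn 8202 116 (dat.pG dB gB) = true := by decide +kernel


end Pool.Agent.MQ.F5
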