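import Pool.Agent.Lib.MP_c86c76_al.Q.F5.Dat

/-!
Kernel checks.
-/

set_option autoImplicit false
set_option maxRecDepth 100000

namespace Pool.Agent.MQ.F5

open Pool.Agent.MC

theorem ki8318 : allIn 8318 104 (dat.pG dB gB) = true := by decide +kernel

theorem ki8422 : allIn 8422 79 (dat.pG dB gB) = true := by decide +kernel

theorem ki8501 : allIn 8501 85 (dat.pG dB gB) = true := by decide +kernel

theorem ki8586 : allIn 8586 83 (dat.pG dB gB) = true := by decide +kernel

theorem ki8669 : allIn 8669 70 (dat.pG dB gB) = true := by decide +kernel

theorem ki8739 : allIn 8739 82 (dat.pG dB gB) = true := by decide +kernel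

theorem ki8821 : allIn 8821 47 (dat.pG dB gB) = true := by decide +kernel

theorem kj0 : allIn 0 113 dat.balOk = true := by decide +kernel

theorem kk0 : allIn 0 1 dat.gatOk = true := by decide +kernel

theorem kk1 : allIn 1 1 dat.gatOk = true := by decide +kernel

theorem kk2 : allIn 2 3 dat.gatOk = true := by decide +kernel

theorem kk5 : allIn 5 3 dat.gatOk = true := by decide +kernel

theorem kk8 : allIn 8 2 dat.gatOk = true := by decide +kernel

theorem kk10 : allIn 10 3 dat.gatOk = true := by decide +kernel

theorem kk13 : allIn 13 3 dat.gatOk = true := by decide +kernel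

theorem kk16 : allIn 16 3 dat.gatOk = true := by decide +kernel

theorem kk19 : allIn 19 3 dat.gatOk = true := by decide +kernel

theorem kk22 : allIn 22 4 dat.gatOk = true := by decide +kernel


end Pool.Agent.MQ.F5
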