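import Pool.Agent.Lib.MP_c86c76_al.Q.F5.Dat

/-!
Kernel checks.
-/

set_option autoImplicit false
set_option maxRecDepth 100000

namespace Pool.Agent.MQ.F5

open Pool.Agent.MC

theorem kk26 : allIn 26 2 dat.gatOk = true := by decide +kernel

theorem kk28 : allIn 28 4 dat.gatOk = true := by decide +kernel

theorem kk32 : allIn 32 8 dat.gatOk = true := by decide +kernel

theorem kk40 : allIn 40 1 dat.gatOk = true := by decide +kernel

theorem kk41 : allIn 41 1 dat.gatOk = true := by decide +kernel

theorem kk42 : allIn 42 2 dat.gatOk = true := by decide +kernel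

theorem kk44 : allIn 44 2 dat.gatOk = true := by decide +kernel

theorem kk46 : allIn 46 2 dat.gatOk = true := by decide +kernel

theorem kk48 : allIn 48 1 dat.gatOk = true := by decide +kernel

theorem kk49 : allIn 49 2 dat.gatOk = true := by decide +kernel

theorem kk51 : allIn 51 2 dat.gatOk = true := by decide +kernel

theorem kk53 : allIn 53 2 dat.gatOk = true := by decide +kernel

theorem kk55 : allIn 55 3 dat.gatOk = true := by decide +kernel

theorem kk58 : allIn 58 4 dat.gatOk = true := by decide +kernel

theorem kk62 : allIn 62 3 dat.gatOk = true := by decide +kernel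

theorem kk65 : allIn 65 3 dat.gatOk = true := by decide +kernel

theorem kk68 : allIn 68 6 dat.gatOk = true := by decide +kernel

theorem kk74 : allIn 74 6 dat.gatOk = true := by decide +kernel

theorem kk80 : allIn 80 15 dat.gatOk = true := by decide +kernel


end Pool.Agent.MQ.F5
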