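import Pool.Agent.Lib.MP_c86c76_al.Q.F5.Dat

/-!
Kernel checks.
-/

set_option autoImplicit false
set_option maxRecDepth 100000

namespace Pool.Agent.MQ.F5

open Pool.Agent.MC

theorem kk95 : allIn 95 9 dat.gatOk = true := by decide +kernel

theorem kk104 : allIn 104 9 dat.gatOk = true := by decide +kernel

theorem kl0 : allIn 0 132 dat.pZ = true := by decide +kernel

theorem kl132 : allIn 132 92 dat.pZ = true := by decide +kernel

theorem kl224 : allIn 224 35 dat.pZ = true := by decide +kernel

theorem kl259 : allIn 259 34 dat.pZ = true := by decide +kernel

theorem kl293 : allIn 293 32 dat.pZ = true := by decide +kernel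

theorem kl325 : allIn 325 31 dat.pZ = true := by decide +kernel

theorem kl356 : allIn 356 30 dat.pZ = true := by decide +kernel

theorem kl386 : allIn 386 10 dat.pZ = true := by decide +kernel

theorem kl396 : allIn 396 31 dat.pZ = true := by decide +kernel

theorem kl427 : allIn 427 28 dat.pZ = true := by decide +kernel

theorem kl455 : allIn 455 25 dat.pZ = true := by decide +kernel

theorem km0 : allIn 0 5 (dat.pR fb) = true := by decide +kernel

theorem km5 : allIn 5 5 (dat.pR fb) = true := by decide +kernel

theorem km10 : allIn 10 5 (dat.pR fb) = true := by decide +kernel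

theorem km15 : allIn 15 5 (dat.pR fb) = true := by decide +kernel

theorem km20 : allIn 20 5 (dat.pR fb) = true := by decide +kernel


end Pool.Agent.MQ.F5
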