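import Pool.Agent.Lib.MP_c86c76_al.Q.F5.Dat

/-!
Kernel checks.
-/

set_option autoImplicit false
set_option maxRecDepth 100000

namespace Pool.Agent.MQ.F5

open Pool.Agent.MC

theorem km25 : allIn 25 5 (dat.pR fb) = true := by decide +kernel

theorem km30 : allIn 30 5 (dat.pR fb) = true := by decide +kernel

theorem km35 : allIn 35 5 (dat.pR fb) = true := by decide +kernel

theorem km40 : allIn 40 5 (dat.pR fb) = true := by decide +kernel

theorem km45 : allIn 45 5 (dat.pR fb) = true := by decide +kernel

theorem km50 : allIn 50 5 (dat.pR fb) = true := by decide +kernel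

theorem km55 : allIn 55 5 (dat.pR fb) = true := by decide +kernel

theorem km60 : allIn 60 5 (dat.pR fb) = true := by decide +kernel

theorem km65 : allIn 65 5 (dat.pR fb) = true := by decide +kernel

theorem km70 : allIn 70 5 (dat.pR fb) = true := by decide +kernel

theorem km75 : allIn 75 5 (dat.pR fb) = true := by decide +kernel

theorem km80 : allIn 80 5 (dat.pR fb) = true := by decide +kernel

theorem km85 : allIn 85 5 (dat.pR fb) = true := by decide +kernel

theorem km90 : allIn 90 5 (dat.pR fb) = true := by decide +kernel

theorem km95 : allIn 95 5 (dat.pR fb) = true := by decide +kernel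

theorem km100 : allIn 100 5 (dat.pR fb) = true := by decide +kernel

theorem km105 : allIn 105 5 (dat.pR fb) = true := by decide +kernel


end Pool.Agent.MQ.F5
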