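import Pool.Agent.Lib.MP_c86c76_al.Q.F5.Dat

/-!
Kernel checks.
-/

set_option autoImplicit false
set_option maxRecDepth 100000

namespace Pool.Agent.MQ.F5

open Pool.Agent.MC

theorem km110 : allIn 110 5 (dat.pR fb) = true := by decide +kernel

theorem km115 : allIn 115 5 (dat.pR fb) = true := by decide +kernel

theorem km120 : allIn 120 5 (dat.pR fb) = true := by decide +kernel

theorem km125 : allIn 125 5 (dat.pR fb) = true := by decide +kernel

theorem km130 : allIn 130 5 (dat.pR fb) = true := by decide +kernel

theorem km135 : allIn 135 5 (dat.pR fb) = true := by decide +kernel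

theorem km140 : allIn 140 5 (dat.pR fb) = true := by decide +kernel

theorem km145 : allIn 145 5 (dat.pR fb) = true := by decide +kernel

theorem km150 : allIn 150 5 (dat.pR fb) = true := by decide +kernel

theorem km155 : allIn 155 2 (dat.pR fb) = true := by decide +kernel


end Pool.Agent.MQ.F5
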