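import Pool.Agent.Lib.MP_c86c76_al.Q.F5.Dat

/-!
Kernel checks.
-/

set_option autoImplicit false
set_option maxRecDepth 100000

namespace Pool.Agent.MQ.F5

open Pool.Agent.MC

theorem kc136 : allIn 136 4 (fun a => allLT 24 (dat.etOk a)) = true := by decide +kernel

theorem kc140 : allIn 140 4 (fun a => allLT 24 (dat.etOk a)) = true := by decide +kernel

theorem kc144 : allIn 144 4 (fun a => allLT 24 (dat.etOk a)) = true := by decide +kernel

theorem kc148 : allIn 148 4 (fun a => allLT 24 (dat.etOk a)) = true := by decide +kernel

theorem kc152 : allIn 152 4 (fun a => allLT 24 (dat.etOk a)) = true := by decide +kernel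

theorem kc156 : allIn 156 4 (fun a => allLT 24 (dat.etOk a)) = true := by decide +kernel

theorem kc160 : allIn 160 4 (fun a => allLT 24 (dat.etOk a)) = true := by decide +kernel

theorem kc164 : allIn 164 4 (fun a => allLT 24 (dat.etOk a)) = true := by decide +kernel

theorem kc168 : allIn 168 4 (fun a => allLT 24 (dat.etOk a)) = true := by decide +kernel

theorem kc172 : allIn 172 4 (fun a => allLT 24 (dat.etOk a)) = true := by decide +kernel

theorem kc176 : allIn 176 4 (fun a => allLT 24 (dat.etOk a)) = true := by decide +kernel

theorem kc180 : allIn 180 4 (fun a => allLT 24 (dat.etOk a)) = true := by decide +kernel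

theorem kc184 : allIn 184 4 (fun a => allLT 24 (dat.etOk a)) = true := by decide +kernel

theorem kc188 : allIn 188 4 (fun a => allLT 24 (dat.etOk a)) = true := by decide +kernel

theorem kc192 : allIn 192 4 (fun a => allLT 24 (dat.etOk a)) = true := by decide +kernel

theorem kc196 : allIn 196 4 (fun a => allLT 24 (dat.etOk a)) = true := by decide +kernel

theorem kc200 : allIn 200 4 (fun a => allLT 24 (dat.etOk a)) = true := by decide +kernel

theorem kc204 : allIn 204 4 (fun a => allLT 24 (dat.etOk a)) = true := by decide +kernel


end Pool.Agent.MQ.F5
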