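import Pool.Agent.Lib.MP_c86c76_al.Q.F5.Dat

/-!
Kernel checks.
-/

set_option autoImplicit false
set_option maxRecDepth 100000

namespace Pool.Agent.MQ.F5

open Pool.Agent.MC

theorem kc208 : allIn 208 4 (fun a => allLT 24 (dat.etOk a)) = true := by decide +kernel

theorem kc212 : allIn 212 4 (fun a => allLT 24 (dat.etOk a)) = true := by decide +kernel

theorem kc216 : allIn 216 4 (fun a => allLT 24 (dat.etOk a)) = true := by decide +kernel

theorem kc220 : allIn 220 4 (fun a => allLT 24 (dat.etOk a)) = true := by decide +kernel

theorem kc224 : allIn 224 4 (fun a => allLT 24 (dat.etOk a)) = true := by decide +kernel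

theorem kc228 : allIn 228 4 (fun a => allLT 24 (dat.etOk a)) = true := by decide +kernel

theorem kc232 : allIn 232 4 (fun a => allLT 24 (dat.etOk a)) = true := by decide +kernel

theorem kc236 : allIn 236 4 (fun a => allLT 24 (dat.etOk a)) = true := by decide +kernel

theorem kc240 : allIn 240 4 (fun a => allLT 24 (dat.etOk a)) = true := by decide +kernel

theorem kc244 : allIn 244 4 (fun a => allLT 24 (dat.etOk a)) = true := by decide +kernel

theorem kc248 : allIn 248 4 (fun a => allLT 24 (dat.etOk a)) = true := by decide +kernel

theorem kc252 : allIn 252 4 (fun a => allLT 24 (dat.etOk a)) = true := by decide +kernel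

theorem kc256 : allIn 256 4 (fun a => allLT 24 (dat.etOk a)) = true := by decide +kernel

theorem kc260 : allIn 260 4 (fun a => allLT 24 (dat.etOk a)) = true := by decide +kernel

theorem kc264 : allIn 264 4 (fun a => allLT 24 (dat.etOk a)) = true := by decide +kernel

theorem kc268 : allIn 268 4 (fun a => allLT 24 (dat.etOk a)) = true := by decide +kernel

theorem kc272 : allIn 272 4 (fun a => allLT 24 (dat.etOk a)) = true := by decide +kernel

theorem kc276 : allIn 276 4 (fun a => allLT 24 (dat.etOk a)) = true := by decide +kernel


end Pool.Agent.MQ.F5
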