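import Pool.Agent.Lib.MP_c86c76_al.Q.F5.Dat

/-!
Kernel checks.
-/

set_option autoImplicit false
set_option maxRecDepth 100000

namespace Pool.Agent.MQ.F5

open Pool.Agent.MC

theorem kc280 : allIn 280 4 (fun a => allLT 24 (dat.etOk a)) = true := by decide +kernel

theorem kc284 : allIn 284 4 (fun a => allLT 24 (dat.etOk a)) = true := by decide +kernel

theorem kc288 : allIn 288 4 (fun a => allLT 24 (dat.etOk a)) = true := by decide +kernel

theorem kc292 : allIn 292 4 (fun a => allLT 24 (dat.etOk a)) = true := by decide +kernel

theorem kc296 : allIn 296 4 (fun a => allLT 24 (dat.etOk a)) = true := by decide +kernel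

theorem kc300 : allIn 300 4 (fun a => allLT 24 (dat.etOk a)) = true := by decide +kernel

theorem kc304 : allIn 304 4 (fun a => allLT 24 (dat.etOk a)) = true := by decide +kernel

theorem kc308 : allIn 308 4 (fun a => allLT 24 (dat.etOk a)) = true := by decide +kernel

theorem kc312 : allIn 312 4 (fun a => allLT 24 (dat.etOk a)) = true := by decide +kernel

theorem kc316 : allIn 316 4 (fun a => allLT 24 (dat.etOk a)) = true := by decide +kernel

theorem kc320 : allIn 320 4 (fun a => allLT 24 (dat.etOk a)) = true := by decide +kernel

theorem kc324 : allIn 324 4 (fun a => allLT 24 (dat.etOk a)) = true := by decide +kernel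

theorem kc328 : allIn 328 4 (fun a => allLT 24 (dat.etOk a)) = true := by decide +kernel

theorem kc332 : allIn 332 4 (fun a => allLT 24 (dat.etOk a)) = true := by decide +kernel

theorem kc336 : allIn 336 4 (fun a => allLT 24 (dat.etOk a)) = true := by decide +kernel

theorem kc340 : allIn 340 4 (fun a => allLT 24 (dat.etOk a)) = true := by decide +kernel

theorem kc344 : allIn 344 4 (fun a => allLT 24 (dat.etOk a)) = true := by decide +kernel

theorem kc348 : allIn 348 4 (fun a => allLT 24 (dat.etOk a)) = true := by decide +kernel


end Pool.Agent.MQ.F5
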