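import Pool.Agent.Lib.MP_c86c76_al.Q.F5.Dat

/-!
Kernel checks.
-/

set_option autoImplicit false
set_option maxRecDepth 100000

namespace Pool.Agent.MQ.F5

open Pool.Agent.MC

theorem kc352 : allIn 352 4 (fun a => allLT 24 (dat.etOk a)) = true := by decide +kernel

theorem kc356 : allIn 356 4 (fun a => allLT 24 (dat.etOk a)) = true := by decide +kernel

theorem kc360 : allIn 360 4 (fun a => allLT 24 (dat.etOk a)) = true := by decide +kernel

theorem kc364 : allIn 364 4 (fun a => allLT 24 (dat.etOk a)) = true := by decide +kernel

theorem kc368 : allIn 368 4 (fun a => allLT 24 (dat.etOk a)) = true := by decide +kernel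

theorem kc372 : allIn 372 4 (fun a => allLT 24 (dat.etOk a)) = true := by decide +kernel

theorem kc376 : allIn 376 4 (fun a => allLT 24 (dat.etOk a)) = true := by decide +kernel

theorem kc380 : allIn 380 4 (fun a => allLT 24 (dat.etOk a)) = true := by decide +kernel

theorem kd0 : allIn 0 15 dat.fibOk = true := by decide +kernel

theorem ke0 : allIn 0 26 (fun a => allLT 157 (dat.amOk a)) = true := by decide +kernel

theorem ke26 : allIn 26 26 (fun a => allLT 157 (dat.amOk a)) = true := by decide +kernel

theorem ke52 : allIn 52 26 (fun a => allLT 157 (dat.amOk a)) = true := by decide +kernel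

theorem ke78 : allIn 78 26 (fun a => allLT 157 (dat.amOk a)) = true := by decide +kernel

theorem ke104 : allIn 104 26 (fun a => allLT 157 (dat.amOk a)) = true := by decide +kernel

theorem ke130 : allIn 130 26 (fun a => allLT 157 (dat.amOk a)) = true := by decide +kernel

theorem ke156 : allIn 156 26 (fun a => allLT 157 (dat.amOk a)) = true := by decide +kernel

theorem ke182 : allIn 182 26 (fun a => allLT 157 (dat.amOk a)) = true := by decide +kernel

theorem ke208 : allIn 208 26 (fun a => allLT 157 (dat.amOk a)) = true := by decide +kernel


end Pool.Agent.MQ.F5
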