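import Pool.Agent.Lib.MP_c86c76_al.Q.F5.Dat

/-!
Kernel checks.
-/

set_option autoImplicit false
set_option maxRecDepth 100000

namespace Pool.Agent.MQ.F5

open Pool.Agent.MC

theorem ke234 : allIn 234 26 (fun a => allLT 157 (dat.amOk a)) = true := by decide +kernel

theorem ke260 : allIn 260 26 (fun a => allLT 157 (dat.amOk a)) = true := by decide +kernel

theorem ke286 : allIn 286 26 (fun a => allLT 157 (dat.amOk a)) = true := by decide +kernel

theorem ke312 : allIn 312 26 (fun a => allLT 157 (dat.amOk a)) = true := by decide +kernel

theorem ke338 : allIn 338 26 (fun a => allLT 157 (dat.amOk a)) = true := by decide +kernel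

theorem ke364 : allIn 364 20 (fun a => allLT 157 (dat.amOk a)) = true := by decide +kernel

theorem kf0 : allIn 1 166 dat.meOk = true := by decide +kernel

theorem kf166 : allIn 167 166 dat.meOk = true := by decide +kernel

theorem kf332 : allIn 333 121 dat.meOk = true := by decide +kernel

theorem kg0 : allIn 0 7 (fun t => allLT dat.nS (dat.htOk t)) = true := by decide +kernel

theorem kg7 : allIn 7 7 (fun t => allLT dat.nS (dat.htOk t)) = true := by decide +kernel

theorem kg14 : allIn 14 7 (fun t => allLT dat.nS (dat.htOk t)) = true := by decide +kernel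

theorem kg21 : allIn 21 3 (fun t => allLT dat.nS (dat.htOk t)) = true := by decide +kernel

theorem kh0 : allIn 0 1250 (dat.pB dB gB 8868) = true := by decide +kernel

theorem kh1250 : allIn 1250 670 (dat.pB dB gB 8868) = true := by decide +kernel

theorem ki0 : allIn 0 301 (dat.pG dB gB) = true := by decide +kernel

theorem ki301 : allIn 301 296 (dat.pG dB gB) = true := by decide +kernel

theorem ki597 : allIn 597 292 (dat.pG dB gB) = true := by decide +kernel


end Pool.Agent.MQ.F5
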