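import Pool.Agent.Lib.MP_c86c76_al.Q.F5.Dat

/-!
Kernel checks.
-/

set_option autoImplicit false
set_option maxRecDepth 100000

namespace Pool.Agent.MQ.F5

open Pool.Agent.MC

theorem ki889 : allIn 889 260 (dat.pG dB gB) = true := by decide +kernel

theorem ki1149 : allIn 1149 256 (dat.pG dB gB) = true := by decide +kernel

theorem ki1405 : allIn 1405 253 (dat.pG dB gB) = true := by decide +kernel

theorem ki1658 : allIn 1658 171 (dat.pG dB gB) = true := by decide +kernel

theorem ki1829 : allIn 1829 197 (dat.pG dB gB) = true := by decide +kernel

theorem ki2026 : allIn 2026 204 (dat.pG dB gB) = true := by decide +kernel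

theorem ki2230 : allIn 2230 129 (dat.pG dB gB) = true := by decide +kernel

theorem ki2359 : allIn 2359 113 (dat.pG dB gB) = true := by decide +kernel

theorem ki2472 : allIn 2472 108 (dat.pG dB gB) = true := by decide +kernel

theorem ki2580 : allIn 2580 94 (dat.pG dB gB) = true := by decide +kernel

theorem ki2674 : allIn 2674 84 (dat.pG dB gB) = true := by decide +kernel

theorem ki2758 : allIn 2758 86 (dat.pG dB gB) = true := by decide +kernel

theorem ki2844 : allIn 2844 94 (dat.pG dB gB) = true := by decide +kernel

theorem ki2938 : allIn 2938 85 (dat.pG dB gB) = true := by decide +kernel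

theorem ki3023 : allIn 3023 74 (dat.pG dB gB) = true := by decide +kernel

theorem ki3097 : allIn 3097 63 (dat.pG dB gB) = true := by decide +kernel


end Pool.Agent.MQ.F5
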