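import Pool.Agent.Lib.MP_c86c76_al.Q.F5.Dat

/-!
Kernel checks.
-/

set_option autoImplicit false
set_option maxRecDepth 100000

namespace Pool.Agent.MQ.F5

open Pool.Agent.MC

theorem ki3160 : allIn 3160 56 (dat.pG dB gB) = true := by decide +kernel

theorem ki3216 : allIn 3216 40 (dat.pG dB gB) = true := by decide +kernel

theorem ki3256 : allIn 3256 41 (dat.pG dB gB) = true := by decide +kernel

theorem ki3297 : allIn 3297 66 (dat.pG dB gB) = true := by decide +kernel

theorem ki3363 : allIn 3363 90 (dat.pG dB gB) = true := by decide +kernel

theorem ki3453 : allIn 3453 78 (dat.pG dB gB) = true := by decide +kernel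

theorem ki3531 : allIn 3531 101 (dat.pG dB gB) = true := by decide +kernel

theorem ki3632 : allIn 3632 81 (dat.pG dB gB) = true := by decide +kernel

theorem ki3713 : allIn 3713 36 (dat.pG dB gB) = true := by decide +kernel

theorem ki3749 : allIn 3749 103 (dat.pG dB gB) = true := by decide +kernel

theorem ki3852 : allIn 3852 60 (dat.pG dB gB) = true := by decide +kernel

theorem ki3912 : allIn 3912 105 (dat.pG dB gB) = true := by decide +kernel

theorem ki4017 : allIn 4017 87 (dat.pG dB gB) = true := by decide +kernel

theorem ki4104 : allIn 4104 106 (dat.pG dB gB) = true := by decide +kernel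

theorem ki4210 : allIn 4210 90 (dat.pG dB gB) = true := by decide +kernel

theorem ki4300 : allIn 4300 71 (dat.pG dB gB) = true := by decide +kernel


end Pool.Agent.MQ.F5
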