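import Pool.Agent.Lib.MP_c86c76_al.Q.F5.Dat

/-!
Kernel checks.
-/

set_option autoImplicit false
set_option maxRecDepth 100000

namespace Pool.Agent.MQ.F5

open Pool.Agent.MC

theorem ki4371 : allIn 4371 85 (dat.pG dB gB) = true := by decide +kernel

theorem ki4456 : allIn 4456 71 (dat.pG dB gB) = true := by decide +kernel

theorem ki4527 : allIn 4527 92 (dat.pG dB gB) = true := by decide +kernel

theorem ki4619 : allIn 4619 90 (dat.pG dB gB) = true := by decide +kernel

theorem ki4709 : allIn 4709 94 (dat.pG dB gB) = true := by decide +kernel

theorem ki4803 : allIn 4803 81 (dat.pG dB gB) = true := by decide +kernel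

theorem ki4884 : allIn 4884 112 (dat.pG dB gB) = true := by decide +kernel

theorem ki4996 : allIn 4996 98 (dat.pG dB gB) = true := by decide +kernel

theorem ki5094 : allIn 5094 79 (dat.pG dB gB) = true := by decide +kernel

theorem ki5173 : allIn 5173 92 (dat.pG dB gB) = true := by decide +kernel

theorem ki5265 : allIn 5265 91 (dat.pG dB gB) = true := by decide +kernel

theorem ki5356 : allIn 5356 86 (dat.pG dB gB) = true := by decide +kernel

theorem ki5442 : allIn 5442 67 (dat.pG dB gB) = true := by decide +kernel

theorem ki5509 : allIn 5509 87 (dat.pG dB gB) = true := by decide +kernel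

theorem ki5596 : allIn 5596 83 (dat.pG dB gB) = true := by decide +kernel

theorem ki5679 : allIn 5679 85 (dat.pG dB gB) = true := by decide +kernel


end Pool.Agent.MQ.F5
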