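import Pool.Agent.Lib.MP_c86c76_al.Q.F5.Kz0
import Pool.Agent.Lib.MP_c86c76_al.Q.F5.Kz1
import Pool.Agent.Lib.MP_c86c76_al.Q.F5.Kz2
import Pool.Agent.Lib.MP_c86c76_al.Q.F5.Kz3
import Pool.Agent.Lib.MP_c86c76_al.Q.F5.Kz4
import Pool.Agent.Lib.MP_c86c76_al.Q.F5.Kz5
import Pool.Agent.Lib.MP_c86c76_al.Q.F5.Kz6
import Pool.Agent.Lib.MP_c86c76_al.Q.F5.Kz7
import Pool.Agent.Lib.MP_c86c76_al.Q.F5.Kz8
import Pool.Agent.Lib.MP_c86c76_al.Q.F5.Kz9
import Pool.Agent.Lib.MP_c86c76_al.Q.F5.Kz10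
import Pool.Agent.Lib.MP_c86c76_al.Q.F5.Kz11
import Pool.Agent.Lib.MP_c86c76_al.Q.F5.Kz12
import Pool.Agent.Lib.MP_c86c76_al.Q.F5.Kz13
import Pool.Agent.Lib.MP_c86c76_al.Q.F5.Kz14
import Pool.Agent.Lib.MP_c86c76_al.Q.F5.Kz15
import Pool.Agent.Lib.MP_c86c76_al.Q.F5.Kz16

/-!
All checks.
-/

set_option autoImplicit false
set_option maxRecDepth 100000

namespace Pool.Agent.MQ.F5

open Pool.Agent.MC

theorem allA : allIn 0 16 (fun a => allLT 16 (dat.kOk a)) = true := ka0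

theorem allB : allIn 0 16 (fun a => allLT 16 (dat.cOk a)) = true := kb0

theorem jc0x0 : allIn 0 32 (fun a => allLT 24 (dat.etOk a)) = true :=
  (asmApp (asmApp (asmApp (asmApp (asmApp (asmApp (asmApp kc0 kc4 rfl rfl) kc8 rfl rfl) kc12 rfl rfl) kc16 rfl rfl) kc20 rfl rfl) kc24 rfl rfl) kc28 rfl rfl)

theorem jc0x8 : allIn 32 32 (fun a => allLT 24 (dat.etOk a)) = true :=
  (asmApp (asmApp (asmApp (asmApp (asmApp (asmApp (asmApp kc32 kc36 rfl rfl) kc40 rfl rfl) kc44 rfl rfl) kc48 rfl rfl) kc52 rfl rfl) kc56 rfl rfl) kc60 rfl rfl)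

theorem jc0x16 : allIn 64 32 (fun a => allLT 24 (dat.etOk a)) = true :=
  (asmApp (asmApp (asmApp (asmApp (asmApp (asmApp (asmApp kc64 kc68 rfl rfl) kc72 rfl rfl) kc76 rfl rfl) kc80 rfl rfl) kc84 rfl rfl) kc88 rfl rfl) kc92 rfl rfl)

theorem jc0x24 : allIn 96 32 (fun a => allLT 24 (dat.etOk a)) = true :=
  (asmApp (asmApp (asmApp (asmApp (asmApp (asmApp (asmApp kc96 kc100 rfl rfl) kc104 rfl rfl) kc108 rfl rfl) kc112 rfl rfl) kc116 rfl rfl) kc120 rfl rfl) kc124 rfl rfl)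

theorem jc0x32 : allIn 128 32 (fun a => allLT 24 (dat.etOk a)) = true :=
  (asmApp (asmApp (asmApp (asmApp (asmApp (asmApp (asmApp kc128 kc132 rfl rfl) kc136 rfl rfl) kc140 rfl rfl) kc144 rfl rfl) kc148 rfl rfl) kc152 rfl rfl) kc156 rfl rfl)

theorem jc0x40 : allIn 160 32 (fun a => allLT 24 (dat.etOk a)) = true :=
  (asmApp (asmApp (asmApp (asmApp (asmApp (asmApp (asmApp kc160 kc164 rfl rfl) kc168 rfl rfl) kc172 rfl rfl) kc176 rfl rfl) kc180 rfl rfl) kc184 rfl rfl) kc188 rfl rfl)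

theorem jc0x48 : allIn 192 32 (fun a => allLT 24 (dat.etOk a)) = true :=
  (asmApp (asmApp (asmApp (asmApp (asmApp (asmApp (asmApp kc192 kc196 rfl rfl) kc200 rfl rfl) kc204 rfl rfl) kc208 rfl rfl) kc212 rfl rfl) kc216 rfl rfl) kc220 rfl rfl)

theorem jc0x56 : allIn 224 32 (fun a => allLT 24 (dat.etOk a)) = true :=
  (asmApp (asmApp (asmApp (asmApp (asmApp (asmApp (asmApp kc224 kc228 rfl rfl) kc232 rfl rfl) kc236 rfl rfl) kc240 rfl rfl) kc244 rfl rfl) kc248 rfl rfl) kc252 rfl rfl)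

theorem jc0x64 : allIn 256 32 (fun a => allLT 24 (dat.etOk a)) = true :=
  (asmApp (asmApp (asmApp (asmApp (asmApp (asmApp (asmApp kc256 kc260 rfl rfl) kc264 rfl rfl) kc268 rfl rfl) kc272 rfl rfl) kc276 rfl rfl) kc280 rfl rfl) kc284 rfl rfl)

theorem jc0x72 : allIn 288 32 (fun a => allLT 24 (dat.etOk a)) = true :=
  (asmApp (asmApp (asmApp (asmApp (asmApp (asmApp (asmApp kc288 kc292 rfl rfl) kc296 rfl rfl) kc300 rfl rfl) kc304 rfl rfl) kc308 rfl rfl) kc312 rfl rfl) kc316 rfl rfl)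

theorem jc0x80 : allIn 320 32 (fun a => allLT 24 (dat.etOk a)) = true :=
  (asmApp (asmApp (asmApp (asmApp (asmApp (asmApp (asmApp kc320 kc324 rfl rfl) kc328 rfl rfl) kc332 rfl rfl) kc336 rfl rfl) kc340 rfl rfl) kc344 rfl rfl) kc348 rfl rfl)

theorem jc0x88 : allIn 352 32 (fun a => allLT 24 (dat.etOk a)) = true :=
  (asmApp (asmApp (asmApp (asmApp (asmApp (asmApp (asmApp kc352 kc356 rfl rfl) kc360 rfl rfl) kc364 rfl rfl) kc368 rfl rfl) kc372 rfl rfl) kc376 rfl rfl) kc380 rfl rfl)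

theorem jc1x0 : allIn 0 256 (fun a => allLT 24 (dat.etOk a)) = true :=
  (asmApp (asmApp (asmApp (asmApp (asmApp (asmApp (asmApp jc0x0 jc0x8 rfl rfl) jc0x16 rfl rfl) jc0x24 rfl rfl) jc0x32 rfl rfl) jc0x40 rfl rfl) jc0x48 rfl rfl) jc0x56 rfl rfl)

theorem jc1x8 : allIn 256 128 (fun a => allLT 24 (dat.etOk a)) = true :=
  (asmApp (asmApp (asmApp jc0x64 jc0x72 rfl rfl) jc0x80 rfl rfl) jc0x88 rfl rfl)

theorem jc2x0 : allIn 0 384 (fun a => allLT 24 (dat.etOk a)) = true :=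
  (asmApp jc1x0 jc1x8 rfl rfl)

theorem allC : allIn 0 384 (fun a => allLT 24 (dat.etOk a)) = true := jc2x0

theorem allD : allIn 0 15 dat.fibOk = true := kd0

theorem je0x0 : allIn 0 208 (fun a => allLT 157 (dat.amOk a)) = true :=
  (asmApp (asmApp (asmApp (asmApp (asmApp (asmApp (asmApp ke0 ke26 rfl rfl) ke52 rfl rfl) ke78 rfl rfl) ke104 rfl rfl) ke130 rfl rfl) ke156 rfl rfl) ke182 rfl rfl)

theorem je0x8 : allIn 208 176 (fun a => allLT 157 (dat.amOk a)) = true :=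
  (asmApp (asmApp (asmApp (asmApp (asmApp (asmApp ke208 ke234 rfl rfl) ke260 rfl rfl) ke286 rfl rfl) ke312 rfl rfl) ke338 rfl rfl) ke364 rfl rfl)

theorem je1x0 : allIn 0 384 (fun a => allLT 157 (dat.amOk a)) = true :=
  (asmApp je0x0 je0x8 rfl rfl)

theorem allE : allIn 0 384 (fun a => allLT 157 (dat.amOk a)) = true := je1x0

theorem jf0x0 : allIn 1 453 dat.meOk = true :=
  (asmApp (asmApp kf0 kf166 rfl rfl) kf332 rfl rfl)

theorem allF : allIn 1 453 dat.meOk = true := jf0x0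

theorem jg0x0 : allIn 0 24 (fun t => allLT dat.nS (dat.htOk t)) = true :=
  (asmApp (asmApp (asmApp kg0 kg7 rfl rfl) kg14 rfl rfl) kg21 rfl rfl)

theorem allG : allIn 0 24 (fun t => allLT dat.nS (dat.htOk t)) = true := jg0x0

theorem jh0x0 : allIn 0 1920 (dat.pB dB gB 8868) = true :=
  (asmApp kh0 kh1250 rfl rfl)

theorem allH : allIn 0 1920 (dat.pB dB gB 8868) = true := jh0x0

theorem ji0x0 : allIn 0 2026 (dat.pG dB gB) = true :=
  (asmApp (asmApp (asmApp (asmApp (asmApp (asmApp (asmApp ki0 ki301 rfl rfl) ki597 rfl rfl) ki889 rfl rfl) ki1149 rfl rfl) ki1405 rfl rfl) ki1658 rfl rfl) ki1829 rfl rfl)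

theorem ji0x8 : allIn 2026 912 (dat.pG dB gB) = true :=
  (asmApp (asmApp (asmApp (asmApp (asmApp (asmApp (asmApp ki2026 ki2230 rfl rfl) ki2359 rfl rfl) ki2472 rfl rfl) ki2580 rfl rfl) ki2674 rfl rfl) ki2758 rfl rfl) ki2844 rfl rfl)

theorem ji0x16 : allIn 2938 515 (dat.pG dB gB) = true :=
  (asmApp (asmApp (asmApp (asmApp (asmApp (asmApp (asmApp ki2938 ki3023 rfl rfl) ki3097 rfl rfl) ki3160 rfl rfl) ki3216 rfl rfl) ki3256 rfl rfl) ki3297 rfl rfl) ki3363 rfl rfl)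

theorem ji0x24 : allIn 3453 651 (dat.pG dB gB) = true :=
  (asmApp (asmApp (asmApp (asmApp (asmApp (asmApp (asmApp ki3453 ki3531 rfl rfl) ki3632 rfl rfl) ki3713 rfl rfl) ki3749 rfl rfl) ki3852 rfl rfl) ki3912 rfl rfl) ki4017 rfl rfl)

theorem ji0x32 : allIn 4104 699 (dat.pG dB gB) = true :=
  (asmApp (asmApp (asmApp (asmApp (asmApp (asmApp (asmApp ki4104 ki4210 rfl rfl) ki4300 rfl rfl) ki4371 rfl rfl) ki4456 rfl rfl) ki4527 rfl rfl) ki4619 rfl rfl) ki4709 rfl rfl)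

theorem ji0x40 : allIn 4803 706 (dat.pG dB gB) = true :=
  (asmApp (asmApp (asmApp (asmApp (asmApp (asmApp (asmApp ki4803 ki4884 rfl rfl) ki4996 rfl rfl) ki5094 rfl rfl) ki5173 rfl rfl) ki5265 rfl rfl) ki5356 rfl rfl) ki5442 rfl rfl)

theorem ji0x48 : allIn 5509 650 (dat.pG dB gB) = true :=
  (asmApp (asmApp (asmApp (asmApp (asmApp (asmApp (asmApp ki5509 ki5596 rfl rfl) ki5679 rfl rfl) ki5764 rfl rfl) ki5855 rfl rfl) ki5928 rfl rfl) ki5995 rfl rfl) ki6078 rfl rfl)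

theorem ji0x56 : allIn 6159 794 (dat.pG dB gB) = true :=
  (asmApp (asmApp (asmApp (asmApp (asmApp (asmApp (asmApp ki6159 ki6248 rfl rfl) ki6342 rfl rfl) ki6432 rfl rfl) ki6565 rfl rfl) ki6700 rfl rfl) ki6810 rfl rfl) ki6882 rfl rfl)

theorem ji0x64 : allIn 6953 568 (dat.pG dB gB) = true :=
  (asmApp (asmApp (asmApp (asmApp (asmApp (asmApp (asmApp ki6953 ki7021 rfl rfl) ki7103 rfl rfl) ki7168 rfl rfl) ki7234 rfl rfl) ki7315 rfl rfl) ki7378 rfl rfl) ki7432 rfl rfl)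

theorem ji0x72 : allIn 7521 529 (dat.pG dB gB) = true :=
  (asmApp (asmApp (asmApp (asmApp (asmApp (asmApp (asmApp ki7521 ki7599 rfl rfl) ki7678 rfl rfl) ki7744 rfl rfl) ki7800 rfl rfl) ki7869 rfl rfl) ki7933 rfl rfl) ki7984 rfl rfl)

theorem ji0x80 : allIn 8050 689 (dat.pG dB gB) = true :=
  (asmApp (asmApp (asmApp (asmApp (asmApp (asmApp (asmApp ki8050 ki8117 rfl rfl) ki8202 rfl rfl) ki8318 rfl rfl) ki8422 rfl rfl) ki8501 rfl rfl) ki8586 rfl rfl) ki8669 rfl rfl)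

theorem ji0x88 : allIn 8739 129 (dat.pG dB gB) = true :=
  (asmApp ki8739 ki8821 rfl rfl)

theorem ji1x0 : allIn 0 6953 (dat.pG dB gB) = true :=
  (asmApp (asmApp (asmApp (asmApp (asmApp (asmApp (asmApp ji0x0 ji0x8 rfl rfl) ji0x16 rfl rfl) ji0x24 rfl rfl) ji0x32 rfl rfl) ji0x40 rfl rfl) ji0x48 rfl rfl) ji0x56 rfl rfl)

theorem ji1x8 : allIn 6953 1915 (dat.pG dB gB) = true :=
  (asmApp (asmApp (asmApp ji0x64 ji0x72 rfl rfl) ji0x80 rfl rfl) ji0x88 rfl rfl)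

theorem ji2x0 : allIn 0 8868 (dat.pG dB gB) = true :=
  (asmApp ji1x0 ji1x8 rfl rfl)

theorem allI : allIn 0 8868 (dat.pG dB gB) = true := ji2x0

theorem allJ : allIn 0 113 dat.balOk = true := kj0

theorem jk0x0 : allIn 0 19 dat.gatOk = true :=
  (asmApp (asmApp (asmApp (asmApp (asmApp (asmApp (asmApp kk0 kk1 rfl rfl) kk2 rfl rfl) kk5 rfl rfl) kk8 rfl rfl) kk10 rfl rfl) kk13 rfl rfl) kk16 rfl rfl)

theorem jk0x8 : allIn 19 25 dat.gatOk = true :=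
  (asmApp (asmApp (asmApp (asmApp (asmApp (asmApp (asmApp kk19 kk22 rfl rfl) kk26 rfl rfl) kk28 rfl rfl) kk32 rfl rfl) kk40 rfl rfl) kk41 rfl rfl) kk42 rfl rfl)

theorem jk0x16 : allIn 44 18 dat.gatOk = true :=
  (asmApp (asmApp (asmApp (asmApp (asmApp (asmApp (asmApp kk44 kk46 rfl rfl) kk48 rfl rfl) kk49 rfl rfl) kk51 rfl rfl) kk53 rfl rfl) kk55 rfl rfl) kk58 rfl rfl)

theorem jk0x24 : allIn 62 51 dat.gatOk = true :=
  (asmApp (asmApp (asmApp (asmApp (asmApp (asmApp kk62 kk65 rfl rfl) kk68 rfl rfl) kk74 rfl rfl) kk80 rfl rfl) kk95 rfl rfl) kk104 rfl rfl)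

theorem jk1x0 : allIn 0 113 dat.gatOk = true :=
  (asmApp (asmApp (asmApp jk0x0 jk0x8 rfl rfl) jk0x16 rfl rfl) jk0x24 rfl rfl)

theorem allK : allIn 0 113 dat.gatOk = true := jk1x0

theorem jl0x0 : allIn 0 396 dat.pZ = true :=
  (asmApp (asmApp (asmApp (asmApp (asmApp (asmApp (asmApp kl0 kl132 rfl rfl) kl224 rfl rfl) kl259 rfl rfl) kl293 rfl rfl) kl325 rfl rfl) kl356 rfl rfl) kl386 rfl rfl)

theorem jl0x8 : allIn 396 84 dat.pZ = true :=
  (asmApp (asmApp kl396 kl427 rfl rfl) kl455 rfl rfl)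

theorem jl1x0 : allIn 0 480 dat.pZ = true :=
  (asmApp jl0x0 jl0x8 rfl rfl)

theorem allL : allIn 0 480 dat.pZ = true := jl1x0

theorem jm0x0 : allIn 0 40 (dat.pR fb) = true :=
  (asmApp (asmApp (asmApp (asmApp (asmApp (asmApp (asmApp km0 km5 rfl rfl) km10 rfl rfl) km15 rfl rfl) km20 rfl rfl) km25 rfl rfl) km30 rfl rfl) km35 rfl rfl)

theorem jm0x8 : allIn 40 40 (dat.pR fb) = true :=
  (asmApp (asmApp (asmApp (asmApp (asmApp (asmApp (asmApp km40 km45 rfl rfl) km50 rfl rfl) km55 rfl rfl) km60 rfl rfl) km65 rfl rfl) km70 rfl rfl) km75 rfl rfl)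

theorem jm0x16 : allIn 80 40 (dat.pR fb) = true :=
  (asmApp (asmApp (asmApp (asmApp (asmApp (asmApp (asmApp km80 km85 rfl rfl) km90 rfl rfl) km95 rfl rfl) km100 rfl rfl) km105 rfl rfl) km110 rfl rfl) km115 rfl rfl)

theorem jm0x24 : allIn 120 37 (dat.pR fb) = true :=
  (asmApp (asmApp (asmApp (asmApp (asmApp (asmApp (asmApp km120 km125 rfl rfl) km130 rfl rfl) km135 rfl rfl) km140 rfl rfl) km145 rfl rfl) km150 rfl rfl) km155 rfl rfl)

theorem jm1x0 : allIn 0 157 (dat.pR fb) = true :=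
  (asmApp (asmApp (asmApp jm0x0 jm0x8 rfl rfl) jm0x16 rfl rfl) jm0x24 rfl rfl)

theorem allM : allIn 0 157 (dat.pR fb) = true := jm1x0

theorem nPe : dat.nP = 157 := by decide +kernel

theorem grp : dat.grpOk = true := by
  rw [Dat.grpOk]
  simp only [an_iff]
  exact ⟨by decide +kernel, by decide +kernel, by decide +kernel, by decide +kernel,
    by decide +kernel, by decide +kernel, by decide +kernel, by decide +kernel, by decide +kernel,
    by decide +kernel, by decide +kernel, by decide +kernel, by decide +kernel, by decide +kernel,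
    by decide +kernel, by decide +kernel, allF, (allLT_iff _ _).2 (allIn_lt allG)⟩

theorem geo : GeoOk dat :=
  ⟨grp, by decide +kernel, all2 allA, all2 allB, all2 allC, allIn_lt allD,
    fun u hu j hj => all2 allE u hu j (nPe ▸ hj)⟩

theorem pD0 : allIn 0 dat.nD (dat.pD dB 1920) = true := by decide +kernel

theorem pF0 : allIn 0 dat.nB (dat.pF fb 157) = true := by decide +kernel

theorem w0 : allIn 0 16 dat.wOk = true := by decide +kernel

theorem l0 : allIn 0 6 dat.lOk = true := by decide +kernel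

/-- All checks succeed. -/
theorem allOk : AllOk dat :=
  ⟨geo, blkOk_of pD0 allH allI, allIn_lt allK, allIn_lt allJ, zsOk_of (by decide) allL,
    ⟨allIn_lt w0, allIn_lt l0, rowOk_of pF0 allM, by decide +kernel⟩⟩

end Pool.Agent.MQ.F5
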